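/-
helper50, project GS (MP_20ddb5_an, Ghys-Sullivan: minimal C^2 groups of circle diffeomorphisms).
Definitions.
-/
import Mathlib

set_option autoImplicit false
open Set Filter Topology MeasureTheory

namespace Pool.Agent.H50.GS

/-- `u` is a C² lift of the circle homeomorphism `g`, with nowhere vanishing derivative. -/
def IsLift (g : Circle ≃ₜ Circle) (u : ℝ → ℝ) : Prop :=
  ContDiff ℝ 2 u ∧ (∀ t, deriv u t ≠ 0) ∧ ∀ t, Circle.exp (u t) = g (Circle.exp t)

/-- All elements of `G` are C² diffeomorphisms of the circle. -/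
def C2Group (G : Subgroup (Circle ≃ₜ Circle)) : Prop := ∀ g ∈ G, ∃ u, IsLift g u

/-- The action of `G` on the circle is minimal. -/
def Minimal (G : Subgroup (Circle ≃ₜ Circle)) : Prop :=
  ∀ C : Set Circle, IsClosed C → (∀ g ∈ G, ⇑g ⁻¹' C = C) → C = ∅ ∨ C = univ

/-- The action of `G` is ergodic with respect to Lebesgue measure. -/
def LebErgodic (G : Subgroup (Circle ≃ₜ Circle)) : Prop :=
  ∀ A : Set Circle, MeasurableSet (⇑Circle.exp ⁻¹' A) → (∀ g ∈ G, ⇑g ⁻¹' A = A) →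
    volume (⇑Circle.exp ⁻¹' A) = 0 ∨ volume (⇑Circle.exp ⁻¹' Aᶜ) = 0

/-- `g` is an orientation preserving C² diffeomorphism. -/
def IsPos (g : Circle ≃ₜ Circle) : Prop := ∃ u, IsLift g u ∧ ∀ t, 0 < deriv u t

/-- `u` is the (orientation preserving) lift of `g` which fixes `p`. -/
def FixLift (p : ℝ) (g : Circle ≃ₜ Circle) (u : ℝ → ℝ) : Prop :=
  IsLift g u ∧ (∀ t, 0 < deriv u t) ∧ u p = p

/-- The maps `F n` move every point of `(α, β)` to the right, converge uniformly to the identity on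
`(α, β)`, and the logarithms of their derivatives are uniformly Lipschitz there. -/
def NearId (α β : ℝ) (F : ℕ → ℝ → ℝ) : Prop :=
  (∀ n, ∀ t ∈ Ioo α β, t < F n t) ∧
  (∀ n, ∀ t ∈ Ioo α β, DifferentiableAt ℝ (F n) t) ∧
  (∀ n, ∀ t ∈ Ioo α β, 0 < deriv (F n) t) ∧
  (∀ ε > 0, ∃ N, ∀ n ≥ N, ∀ t ∈ Ioo α β, |F n t - t| < ε) ∧
  ∃ C : ℝ, ∀ n, ∀ s ∈ Ioo α β, ∀ t ∈ Ioo α β,
    |Real.log (deriv (F n) s) - Real.log (deriv (F n) t)| ≤ C * |s - t|

end Pool.Agent.H50.GS
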