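/-
helper50, project GS, job GS-CONJ: transport of a near-identity sequence by a fixed C² diffeomorphism.

v, w inverse C² diffeos of ℝ (derivatives nonzero, v may be decreasing), v p ∈ (α, β). U n: C² on (α, β), U n → id,
(U n)' → 1 uniformly on (α, β), |(U n)''| ≤ M on (α, β).
CLAIM: for some r > 0 and N the maps V n := w ∘ U (N+n) ∘ v have the same properties on (p-r, p+r), and
v maps (p-r,p+r) into (α,β), U (N+n) (v t) ∈ (α, β) for t ∈ (p-r, p+r).

PROOF. Choose a compact interval [α', β'] ⊂ (α, β) containing v p in its interior, r > 0 with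
v((p-r, p+r)) ⊂ (α', β') (r ≤ 1), N with |U n t - t| < min(α' - α, β - β') on (α,β) for n ≥ N. On the compact
[α, β] the functions w', w'' are bounded and w, w' are uniformly continuous; on [p-1,p+1] v', v'' are bounded.
V n is C² on (p-r,p+r) (composition of ContDiffOn).  V n t - t = w (U n (v t)) - w (v t) → 0 uniformly.
(V n)'(t) = w'(U n (v t)) (U n)'(v t) v'(t) → w'(v t) v'(t) = 1 uniformly.
(V n)''(t) = w''(U n (v t)) ((U n)'(v t) v'(t))² + w'(U n (v t)) ( (U n)''(v t) v'(t)² + (U n)'(v t) v''(t) ), bounded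
by a constant independent of n ((U n)' ≤ 2 for n ≥ N, enlarge N).
-/
import Pool.Agent.H50.GS.Defs

set_option autoImplicit false
open Set Filter Topology MeasureTheory

namespace Pool.Agent.H50.GS

theorem conjSeq_c2 {v : ℝ → ℝ} (hv : ContDiff ℝ 2 v) :
    Differentiable ℝ v ∧ Differentiable ℝ (deriv v) ∧ Continuous (deriv v) ∧
      Continuous (deriv (deriv v)) := by
  have h1 : ContDiff ℝ (1 + 1) v := by rwa [one_add_one_eq_two]
  have h2 := (contDiff_succ_iff_deriv.1 h1)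
  exact ⟨h2.1, h2.2.2.differentiable (by simp), h2.2.2.continuous, h2.2.2.continuous_deriv le_rfl⟩

theorem conjSeq_c2on {a b : ℝ} {U : ℝ → ℝ} (hU : ContDiffOn ℝ 2 U (Ioo a b)) {x : ℝ}
    (hx : x ∈ Ioo a b) :
    HasDerivAt U (deriv U x) x ∧ HasDerivAt (deriv U) (deriv (deriv U) x) x := by
  have hn : Ioo a b ∈ 𝓝 x := isOpen_Ioo.mem_nhds hx
  have h1 : ContDiffOn ℝ 1 (deriv U) (Ioo a b) :=
    hU.deriv_of_isOpen isOpen_Ioo (by norm_num)
  exact ⟨((hU.differentiableOn (by norm_num)).differentiableAt hn).hasDerivAt,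
    ((h1.differentiableOn (by norm_num)).differentiableAt hn).hasDerivAt⟩

/-- a uniform continuity statement on a compact interval -/
theorem conjSeq_uc {a b : ℝ} {g : ℝ → ℝ} (hg : Continuous g) {ε : ℝ} (hε : 0 < ε) :
    ∃ δ > 0, ∀ x ∈ Icc a b, ∀ y ∈ Icc a b, |x - y| < δ → |g x - g y| < ε := by
  have h := isCompact_Icc.uniformContinuousOn_of_continuous (hg.continuousOn (s := Icc a b))
  obtain ⟨δ, hδ, h2⟩ := Metric.uniformContinuousOn_iff.1 h ε hε
  exact ⟨δ, hδ, fun x hx y hy hxy => h2 x hx y hy hxy⟩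

theorem conjSeq_bd {a b : ℝ} {g : ℝ → ℝ} (hg : Continuous g) :
    ∃ B > 0, ∀ x ∈ Icc a b, |g x| ≤ B := by
  obtain ⟨B, hB⟩ := isCompact_Icc.exists_bound_of_continuousOn (hg.continuousOn (s := Icc a b))
  refine ⟨|B| + 1, by positivity, fun x hx => ?_⟩
  have := hB x hx
  rw [Real.norm_eq_abs] at this
  linarith [le_abs_self B]

theorem conjSeq {α β p : ℝ} {v w : ℝ → ℝ} (hv : ContDiff ℝ 2 v) (hw : ContDiff ℝ 2 w)
    (hv' : ∀ t, deriv v t ≠ 0) (hvw : ∀ t, v (w t) = t) (hwv : ∀ t, w (v t) = t)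
    (hvp : v p ∈ Ioo α β)
    {U : ℕ → ℝ → ℝ} (hU2 : ∀ n, ContDiffOn ℝ 2 (U n) (Ioo α β))
    (h0 : ∀ ε > 0, ∃ N, ∀ n ≥ N, ∀ t ∈ Ioo α β, |U n t - t| < ε)
    (h1 : ∀ ε > 0, ∃ N, ∀ n ≥ N, ∀ t ∈ Ioo α β, |deriv (U n) t - 1| < ε)
    {M : ℝ} (h2 : ∀ n, ∀ t ∈ Ioo α β, |deriv (deriv (U n)) t| ≤ M) :
    ∃ r > 0, ∃ N : ℕ, (∀ t ∈ Ioo (p - r) (p + r), v t ∈ Ioo α β ∧ ∀ n, U (N + n) (v t) ∈ Ioo α β) ∧
      (∀ n, ContDiffOn ℝ 2 (fun t => w (U (N + n) (v t))) (Ioo (p - r) (p + r))) ∧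
      (∀ ε > 0, ∃ N', ∀ n ≥ N', ∀ t ∈ Ioo (p - r) (p + r), |w (U (N + n) (v t)) - t| < ε) ∧
      (∀ ε > 0, ∃ N', ∀ n ≥ N', ∀ t ∈ Ioo (p - r) (p + r),
        |deriv (fun t => w (U (N + n) (v t))) t - 1| < ε) ∧
      ∃ M' : ℝ, ∀ n, ∀ t ∈ Ioo (p - r) (p + r),
        |deriv (deriv (fun t => w (U (N + n) (v t)))) t| ≤ M' := by
  obtain ⟨vd, vd2, vc, vc2⟩ := conjSeq_c2 hv
  obtain ⟨wd, wd2, wc, wc2⟩ := conjSeq_c2 hw
  obtain ⟨hα, hβ⟩ := hvp
  -- the choice of `δ`, `r`, `N`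
  obtain ⟨δ, hδ, hδ1, hδ2⟩ : ∃ δ > 0, α < v p - 2 * δ ∧ v p + 2 * δ < β := by
    refine ⟨min (v p - α) (β - v p) / 3, by
      have : 0 < min (v p - α) (β - v p) := lt_min (by linarith) (by linarith)
      positivity, ?_, ?_⟩
    · have := min_le_left (v p - α) (β - v p)
      linarith
    · have := min_le_right (v p - α) (β - v p)
      linarith
  obtain ⟨r0, hr0, hr1⟩ := Metric.continuousAt_iff.1 (vd.continuous.continuousAt (x := p)) δ hδ
  obtain ⟨N1, hN1⟩ := h0 δ hδ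
  obtain ⟨N2, hN2⟩ := h1 1 one_pos
  set r := min r0 1 with hr
  have hrpos : 0 < r := lt_min hr0 one_pos
  set N := max N1 N2 with hN
  have hvt : ∀ t ∈ Ioo (p - r) (p + r), |v t - v p| < δ := by
    intro t ht
    have h3 : dist t p < r0 := by
      rw [Real.dist_eq, abs_lt]
      have := min_le_left r0 1
      constructor <;> linarith [ht.1, ht.2]
    exact hr1 h3
  have hvI : ∀ t ∈ Ioo (p - r) (p + r), v t ∈ Ioo α β := by
    intro t ht
    have := abs_lt.1 (hvt t ht)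
    constructor <;> linarith [this.1, this.2]
  have hUI : ∀ t ∈ Ioo (p - r) (p + r), ∀ n, U (N + n) (v t) ∈ Ioo α β := by
    intro t ht n
    have h3 := abs_lt.1 (hvt t ht)
    have h4 := abs_lt.1 (hN1 (N + n) (le_trans (le_max_left _ _) (Nat.le_add_right _ _)) (v t)
      (hvI t ht))
    constructor <;> linarith [h3.1, h3.2, h4.1, h4.2]
  have ht1 : ∀ t ∈ Ioo (p - r) (p + r), t ∈ Icc (p - 1) (p + 1) := by
    intro t ht
    have := min_le_right r0 1
    constructor <;> linarith [ht.1, ht.2]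
  obtain ⟨Bv, hBv, hBv'⟩ := conjSeq_bd (a := p - 1) (b := p + 1) vc
  obtain ⟨Bv2, hBv2, hBv2'⟩ := conjSeq_bd (a := p - 1) (b := p + 1) vc2
  obtain ⟨Bw, hBw, hBw'⟩ := conjSeq_bd (a := α) (b := β) wc
  obtain ⟨Bw2, hBw2, hBw2'⟩ := conjSeq_bd (a := α) (b := β) wc2
  -- derivatives
  have hD : ∀ n, ∀ t ∈ Ioo (p - r) (p + r), HasDerivAt (fun t => w (U (N + n) (v t)))
      (deriv w (U (N + n) (v t)) * (deriv (U (N + n)) (v t) * deriv v t)) t := by
    intro n t ht
    have e1 := (conjSeq_c2on (hU2 (N + n)) (hvI t ht)).1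
    have e2 := e1.comp t (vd t).hasDerivAt
    exact (wd (U (N + n) (v t))).hasDerivAt.comp t e2
  have hD2 : ∀ n, ∀ t ∈ Ioo (p - r) (p + r), HasDerivAt
      (deriv (fun t => w (U (N + n) (v t))))
      (deriv (deriv w) (U (N + n) (v t)) * (deriv (U (N + n)) (v t) * deriv v t) *
        (deriv (U (N + n)) (v t) * deriv v t) +
        deriv w (U (N + n) (v t)) * (deriv (deriv (U (N + n))) (v t) * deriv v t * deriv v t +
          deriv (U (N + n)) (v t) * deriv (deriv v) t)) t := by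
    intro n t ht
    obtain ⟨e1, e3⟩ := (conjSeq_c2on (hU2 (N + n)) (hvI t ht))
    have e2 := e1.comp t (vd t).hasDerivAt
    have e4 := (wd2 (U (N + n) (v t))).hasDerivAt.comp t e2
    have e5 := e3.comp t (vd t).hasDerivAt
    have e6 := e4.mul (e5.mul (vd2 t).hasDerivAt)
    refine e6.congr_of_eventuallyEq ?_
    filter_upwards [isOpen_Ioo.mem_nhds ht] with s hs
    exact (hD n s hs).deriv
  have hU1 : ∀ n, ∀ t ∈ Ioo (p - r) (p + r), |deriv (U (N + n)) (v t)| ≤ 2 := by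
    intro n t ht
    have h4 := abs_lt.1 (hN2 (N + n) (le_trans (le_max_right _ _) (Nat.le_add_right _ _)) (v t)
      (hvI t ht))
    rw [abs_le]
    constructor <;> linarith [h4.1, h4.2]
  refine ⟨r, hrpos, N, fun t ht => ⟨hvI t ht, hUI t ht⟩, fun n => ?_, fun ε hε => ?_,
    fun ε hε => ?_, ?_⟩
  · exact hw.comp_contDiffOn ((hU2 (N + n)).comp hv.contDiffOn (fun t ht => hvI t ht))
  · obtain ⟨η, hη, hη'⟩ := conjSeq_uc (a := α) (b := β) wd.continuous hε
    obtain ⟨N', hN'⟩ := h0 η hη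
    refine ⟨N', fun n hn t ht => ?_⟩
    have h3 := hη' _ (Ioo_subset_Icc_self (hUI t ht n)) _ (Ioo_subset_Icc_self (hvI t ht))
      (hN' (N + n) (by omega) (v t) (hvI t ht))
    rwa [hwv] at h3
  · have hε1 : 0 < ε / (2 * Bv) := by positivity
    have hε2 : 0 < ε / (2 * Bv * Bw) := by positivity
    obtain ⟨η, hη, hη'⟩ := conjSeq_uc (a := α) (b := β) wc hε1
    obtain ⟨N', hN'⟩ := h0 η hη
    obtain ⟨N'', hN''⟩ := h1 _ hε2
    refine ⟨max N' N'', fun n hn t ht => ?_⟩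
    have hn1 : N' ≤ N + n := by have := le_max_left N' N''; omega
    have hn2 : N'' ≤ N + n := by have := le_max_right N' N''; omega
    rw [(hD n t ht).deriv]
    have h3 := hη' _ (Ioo_subset_Icc_self (hUI t ht n)) _ (Ioo_subset_Icc_self (hvI t ht))
      (hN' (N + n) hn1 (v t) (hvI t ht))
    have h4 := hN'' (N + n) hn2 (v t) (hvI t ht)
    have h5 : deriv w (v t) * deriv v t = 1 := by
      have h6 := (wd (v t)).hasDerivAt.comp t (vd t).hasDerivAt
      have h7 : w ∘ v = fun t => t := funext hwv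
      rw [h7] at h6
      exact h6.unique (hasDerivAt_id t)
    have h6 : deriv w (U (N + n) (v t)) * (deriv (U (N + n)) (v t) * deriv v t) - 1 =
        (deriv w (U (N + n) (v t)) * (deriv (U (N + n)) (v t) - 1) +
          (deriv w (U (N + n) (v t)) - deriv w (v t))) * deriv v t := by
      linear_combination h5
    rw [h6, abs_mul]
    have h7 : |deriv v t| ≤ Bv := hBv' t (ht1 t ht)
    have h8 : |deriv w (U (N + n) (v t))| ≤ Bw := hBw' _ (Ioo_subset_Icc_self (hUI t ht n))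
    have h9 : |deriv w (U (N + n) (v t)) * (deriv (U (N + n)) (v t) - 1) +
          (deriv w (U (N + n) (v t)) - deriv w (v t))| < ε / Bv := by
      refine (abs_add_le _ _).trans_lt ?_
      rw [abs_mul]
      have h10 : |deriv w (U (N + n) (v t))| * |deriv (U (N + n)) (v t) - 1| ≤
          Bw * (ε / (2 * Bv * Bw)) :=
        mul_le_mul h8 h4.le (abs_nonneg _) hBw.le
      have h11 : Bw * (ε / (2 * Bv * Bw)) = ε / (2 * Bv) := by field_simp
      have h12 : ε / (2 * Bv) + ε / (2 * Bv) = ε / Bv := by field_simp; ring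
      linarith
    calc _ ≤ |deriv w (U (N + n) (v t)) * (deriv (U (N + n)) (v t) - 1) +
          (deriv w (U (N + n) (v t)) - deriv w (v t))| * Bv :=
          mul_le_mul_of_nonneg_left h7 (abs_nonneg _)
      _ < ε / Bv * Bv := mul_lt_mul_of_pos_right h9 hBv
      _ = ε := div_mul_cancel₀ _ hBv.ne'
  · refine ⟨Bw2 * (2 * Bv) * (2 * Bv) + Bw * (M * Bv * Bv + 2 * Bv2), fun n t ht => ?_⟩
    rw [(hD2 n t ht).deriv]
    have h7 : |deriv v t| ≤ Bv := hBv' t (ht1 t ht)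
    have h7' : |deriv (deriv v) t| ≤ Bv2 := hBv2' t (ht1 t ht)
    have h8 : |deriv w (U (N + n) (v t))| ≤ Bw := hBw' _ (Ioo_subset_Icc_self (hUI t ht n))
    have h8' : |deriv (deriv w) (U (N + n) (v t))| ≤ Bw2 :=
      hBw2' _ (Ioo_subset_Icc_self (hUI t ht n))
    have h9 := hU1 n t ht
    have h10 := h2 (N + n) (v t) (hvI t ht)
    have hM : 0 ≤ M := (abs_nonneg _).trans h10
    have h11 : |deriv (U (N + n)) (v t) * deriv v t| ≤ 2 * Bv := by
      rw [abs_mul]; exact mul_le_mul h9 h7 (abs_nonneg _) (by norm_num)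
    have h12 : |deriv (deriv (U (N + n))) (v t) * deriv v t * deriv v t +
          deriv (U (N + n)) (v t) * deriv (deriv v) t| ≤ M * Bv * Bv + 2 * Bv2 := by
      refine (abs_add_le _ _).trans (add_le_add ?_ ?_)
      · rw [abs_mul, abs_mul]
        exact mul_le_mul (mul_le_mul h10 h7 (abs_nonneg _) hM) h7 (abs_nonneg _) (by positivity)
      · rw [abs_mul]
        exact mul_le_mul h9 h7' (abs_nonneg _) (by norm_num)
    refine (abs_add_le _ _).trans (add_le_add ?_ ?_)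
    · rw [abs_mul, abs_mul]
      exact mul_le_mul (mul_le_mul h8' h11 (abs_nonneg _) hBw2.le) h11 (abs_nonneg _)
        (by positivity)
    · rw [abs_mul]
      exact mul_le_mul h8 h12 (abs_nonneg _) hBw.le

end Pool.Agent.H50.GS
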