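/-
helper4, project GS (owner helper50): auxiliary one-variable lemmas for `Renorm` and `RenHyp`.
-/
import Mathlib

set_option autoImplicit false
open Set Filter Topology

namespace Pool.Agent.H50.GS

/-- If `G p = p` and `t ≤ G t` to the right of `p`, then `G' p ≥ 1`. -/
theorem one_le_of_fix {G : ℝ → ℝ} {p d : ℝ} (hd : HasDerivAt G d p) (hp : G p = p)
    (h : ∀ᶠ t in 𝓝[>] p, t ≤ G t) : 1 ≤ d := by
  have h1 : Tendsto (slope G p) (𝓝[>] p) (𝓝 d) :=
    (hasDerivAt_iff_tendsto_slope.1 hd).mono_left (nhdsWithin_mono _ (fun x hx => ne_of_gt hx))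
  refine ge_of_tendsto h1 ?_
  filter_upwards [h, self_mem_nhdsWithin] with t ht htp
  have htp' : 0 < t - p := sub_pos.2 htp
  rw [slope_def_field, hp, le_div_iff₀ htp']
  linarith

/-- If `G p = p` and `G t ≤ t` to the right of `p`, then `G' p ≤ 1`. -/
theorem le_one_of_fix {G : ℝ → ℝ} {p d : ℝ} (hd : HasDerivAt G d p) (hp : G p = p)
    (h : ∀ᶠ t in 𝓝[>] p, G t ≤ t) : d ≤ 1 := by
  have h1 : Tendsto (slope G p) (𝓝[>] p) (𝓝 d) :=
    (hasDerivAt_iff_tendsto_slope.1 hd).mono_left (nhdsWithin_mono _ (fun x hx => ne_of_gt hx))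
  refine le_of_tendsto h1 ?_
  filter_upwards [h, self_mem_nhdsWithin] with t ht htp
  have htp' : 0 < t - p := sub_pos.2 htp
  rw [slope_def_field, hp, div_le_iff₀ htp']
  linarith

theorem iter_inv {f e : ℝ → ℝ} (hfe : ∀ t, f (e t) = t) (k : ℕ) (t : ℝ) :
    f^[k] (e^[k] t) = t :=
  Function.LeftInverse.iterate (f := e) (g := f) hfe k t

theorem contDiff_iter {f : ℝ → ℝ} (hf : ContDiff ℝ 2 f) (k : ℕ) : ContDiff ℝ 2 (f^[k]) := by
  induction k with
  | zero => exact contDiff_id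
  | succ k ih =>
    rw [Function.iterate_succ]
    exact ih.comp hf

/-- Chain rule for `e^[k] ∘ G ∘ f^[k]`. -/
theorem conj_hasDerivAt {f e : ℝ → ℝ} (hf : ContDiff ℝ 2 f) (he : ContDiff ℝ 2 e)
    (hk' : ∀ k : ℕ, ∀ t, 0 < deriv (f^[k]) t) (hfe : ∀ t, f (e t) = t)
    {G : ℝ → ℝ} {k : ℕ} {u : ℝ} (hG : DifferentiableAt ℝ G (f^[k] u)) :
    HasDerivAt (fun t => e^[k] (G (f^[k] t)))
      (deriv G (f^[k] u) * deriv (f^[k]) u / deriv (f^[k]) (e^[k] (G (f^[k] u)))) u := by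
  have hfk : ∀ t, DifferentiableAt ℝ (f^[k]) t := fun t =>
    (contDiff_iter hf k).differentiable (by norm_num) t
  have h1 : HasDerivAt (f^[k]) (deriv (f^[k]) u) u := (hfk u).hasDerivAt
  have h2 : HasDerivAt (e^[k]) (deriv (f^[k]) (e^[k] (G (f^[k] u))))⁻¹ (G (f^[k] u)) := by
    refine HasDerivAt.of_local_left_inverse (f := f^[k]) ?_ (hfk _).hasDerivAt (hk' k _).ne' ?_
    · exact ((contDiff_iter he k).continuous).continuousAt
    · exact Eventually.of_forall (fun y => iter_inv hfe k y)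
  have h3 := h2.comp u (hG.hasDerivAt.comp u h1)
  refine (h3.congr_deriv ?_)
  rw [div_eq_mul_inv]
  ring

/-- `log G'` is Lipschitz on compact intervals. -/
theorem lip_log_deriv {G : ℝ → ℝ} (hG : ContDiff ℝ 2 G) (hG' : ∀ t, 0 < deriv G t) (a b : ℝ) :
    ∃ B : ℝ, 0 ≤ B ∧ ∀ s ∈ Icc a b, ∀ t ∈ Icc a b,
      |Real.log (deriv G s) - Real.log (deriv G t)| ≤ B * |s - t| := by
  have h1 : ContDiff ℝ 1 (deriv G) := by
    have : ContDiff ℝ (1 + 1) G := by norm_num; exact hG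
    exact ((contDiff_succ_iff_deriv).1 this).2.2
  have h2 : ContDiff ℝ 1 (fun t => Real.log (deriv G t)) := h1.log (fun t => (hG' t).ne')
  have h3 : Continuous (deriv (fun t => Real.log (deriv G t))) := h2.continuous_deriv le_rfl
  obtain ⟨B, hB⟩ := (isCompact_Icc (a := a) (b := b)).exists_bound_of_continuousOn
    h3.continuousOn
  refine ⟨|B|, abs_nonneg _, fun s hs t ht => ?_⟩
  have := (convex_Icc a b).norm_image_sub_le_of_norm_deriv_le
    (f := fun t => Real.log (deriv G t)) (C := |B|)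
    (fun x _ => h2.differentiable (by norm_num) x) (fun x hx => (hB x hx).trans (le_abs_self B))
    ht hs
  simpa [Real.norm_eq_abs] using this

end Pool.Agent.H50.GS
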