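/-
helper50, project GS, job GS-SUM: bounded distortion of the iterates of a C² contraction.

SETTING. c := p + δ; f C² with f' > 0, f p = p, f t < t on (p, c]. a ∈ (p, c).
All iterates f^[k] are C² with positive derivative, f^[k] t ∈ (p, c] for t ∈ (p, c], decreasing in k.
Let C0 be a bound of |(log f')'| = |f''/f'| on [p, c] (continuous), so log f' is C0-Lipschitz on [p,c].
(1) f^[k] c → p (decreasing, limit is a fixed point in [p, c), hence p; use continuity), and
p < f^[k] t ≤ f^[k] c for t ∈ (p, c].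
(2) For u ∈ (p, c] put Δ = [f u, u]. The intervals f^[i] Δ = [f^[i+1] u, f^[i] u] telescope:
Σ_{i<k} (f^[i] u - f^[i+1] u) ≤ u - p ≤ δ. For v, w ∈ Δ, |log (f^[i])'(v) - log (f^[i])'(w)| ≤
Σ_{l<i} |log f'(f^[l] v) - log f'(f^[l] w)| ≤ C0 Σ_l |f^[l] v - f^[l] w| ≤ C0 δ
(both points f^[l] v, f^[l] w lie in [f^[l+1] u, f^[l] u]; log (f^[i])' = Σ_{l<i} log f' ∘ f^[l] by the
chain rule).  By the mean value theorem f^[i] u - f^[i+1] u = (f^[i])'(w) (u - f u) for some w ∈ Δ, so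
(f^[i])'(u) ≤ exp(C0 δ) (f^[i] u - f^[i+1] u)/(u - f u).
(3) μ := min over u ∈ [a, c] of (u - f u) > 0 (compactness). So for u ∈ [a, c]:
Σ_{i<k} (f^[i])'(u) ≤ exp(C0 δ) δ / μ =: C1 and (f^[k])'(u) ≤ exp(C0 δ) (f^[k] c - p)/μ → 0 uniformly.
(4) For s, t ∈ [a, c]: |log (f^[k])'(s) - log (f^[k])'(t)| ≤ C0 Σ_{i<k} |f^[i] s - f^[i] t| ≤ C0 C1 |s - t|
(mean value theorem on the interval between s and t, Σ_i (f^[i])'(ξ_i): either bound
|f^[i] s - f^[i] t| = ∫_s^t (f^[i])' and sum under the integral, or note that i ↦ sup_{[a,c]} (f^[i])' is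
summable: use the pointwise bound (f^[i])'(u) ≤ exp(C0δ)(f^[i] u - f^[i+1] u)/μ and integrate; simplest: the
function L_k = log (f^[k])' is differentiable with derivative Σ_{i<k} (log f')'(f^[i] u)·(f^[i])'(u), whose
absolute value is at most C0 C1 at every point u of [a,c], so L_k is C0 C1-Lipschitz on [a,c]).
-/
import Pool.Agent.H50.GS.Defs

set_option autoImplicit false
open Set Filter Topology MeasureTheory

namespace Pool.Agent.H50.GS

section SumAux

variable {p δ : ℝ} {f : ℝ → ℝ}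

theorem sum_cd (hf : ContDiff ℝ 2 f) (k : ℕ) : ContDiff ℝ 2 (f^[k]) := by
  induction k with
  | zero => simpa using contDiff_id
  | succ k ih => rw [Function.iterate_succ]; exact ih.comp hf

theorem sum_diff (hf : ContDiff ℝ 2 f) (k : ℕ) : Differentiable ℝ (f^[k]) :=
  (sum_cd hf k).differentiable (by norm_num)

theorem sum_deriv_succ (hf : ContDiff ℝ 2 f) (k : ℕ) (t : ℝ) :
    deriv (f^[k+1]) t = deriv f (f^[k] t) * deriv (f^[k]) t := by
  rw [Function.iterate_succ']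
  exact deriv_comp t ((hf.differentiable (by norm_num)) _) (sum_diff hf k t)

theorem sum_pos (hf : ContDiff ℝ 2 f) (hf' : ∀ t, 0 < deriv f t) (k : ℕ) (t : ℝ) :
    0 < deriv (f^[k]) t := by
  induction k with
  | zero => simp
  | succ k ih => rw [sum_deriv_succ hf]; exact mul_pos (hf' _) ih

theorem sum_mono (hf' : ∀ t, 0 < deriv f t) (k : ℕ) : StrictMono (f^[k]) :=
  (strictMono_of_deriv_pos hf').iterate k

theorem sum_log (hf : ContDiff ℝ 2 f) (hf' : ∀ t, 0 < deriv f t) (k : ℕ) (t : ℝ) :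
    Real.log (deriv (f^[k]) t) = ∑ i ∈ Finset.range k, Real.log (deriv f (f^[i] t)) := by
  induction k with
  | zero => simp
  | succ k ih =>
    rw [sum_deriv_succ hf, Real.log_mul (hf' _).ne' (sum_pos hf hf' k t).ne', ih,
      Finset.sum_range_succ, add_comm]

theorem sum_range (hf' : ∀ t, 0 < deriv f t) (hp : f p = p)
    (hcon : ∀ t ∈ Ioc p (p + δ), f t < t) (k : ℕ) (t : ℝ) (ht : t ∈ Ioc p (p + δ)) :
    p < f^[k] t ∧ f^[k] t ≤ t := by
  have hm := strictMono_of_deriv_pos hf'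
  induction k with
  | zero => simpa using ht.1
  | succ k ih =>
    rw [Function.iterate_succ_apply']
    have h1 : f^[k] t ∈ Ioc p (p + δ) := ⟨ih.1, ih.2.trans ht.2⟩
    refine ⟨?_, (hcon _ h1).le.trans ih.2⟩
    calc p = f p := hp.symm
      _ < f (f^[k] t) := hm ih.1

theorem sum_tendsto (hδ : 0 < δ) (hf : ContDiff ℝ 2 f) (hf' : ∀ t, 0 < deriv f t) (hp : f p = p)
    (hcon : ∀ t ∈ Ioc p (p + δ), f t < t) :
    Tendsto (fun k => f^[k] (p + δ)) atTop (𝓝 p) := by
  have hc : p + δ ∈ Ioc p (p + δ) := ⟨by linarith, le_rfl⟩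
  have hanti : Antitone (fun k => f^[k] (p + δ)) := by
    refine antitone_nat_of_succ_le fun k => ?_
    rw [Function.iterate_succ_apply']
    have h1 := sum_range hf' hp hcon k _ hc
    exact (hcon _ ⟨h1.1, h1.2⟩).le
  have hbdd : BddBelow (Set.range fun k => f^[k] (p + δ)) := by
    refine ⟨p, ?_⟩
    rintro _ ⟨k, rfl⟩
    exact (sum_range hf' hp hcon k _ hc).1.le
  have ht := tendsto_atTop_ciInf hanti hbdd
  set L := ⨅ k, f^[k] (p + δ) with hL
  have hLp : p ≤ L := le_ciInf fun k => (sum_range hf' hp hcon k _ hc).1.le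
  have hLc : L ≤ p + δ := by
    have := ciInf_le hbdd 0
    simpa using this
  have hfix : f L = L := by
    have h1 : Tendsto (fun k => f^[k+1] (p + δ)) atTop (𝓝 L) :=
      ht.comp (tendsto_add_atTop_nat 1)
    have h2 : Tendsto (fun k => f^[k+1] (p + δ)) atTop (𝓝 (f L)) := by
      have h3 := (hf.continuous.tendsto L).comp ht
      refine h3.congr fun k => ?_
      simp only [Function.comp]
      rw [Function.iterate_succ_apply']
    exact tendsto_nhds_unique h2 h1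
  rcases hLp.eq_or_lt with h | h
  · rw [← h] at ht; exact ht
  · exact absurd (hcon L ⟨h, hLc⟩) (by rw [hfix]; exact lt_irrefl _)

theorem sum_telesc (k : ℕ) (u : ℝ) :
    ∑ i ∈ Finset.range k, (f^[i] u - f^[i+1] u) = u - f^[k] u := by
  induction k with
  | zero => simp
  | succ k ih => rw [Finset.sum_range_succ, ih]; ring

theorem sum_C0 (hf : ContDiff ℝ 2 f) (hf' : ∀ t, 0 < deriv f t) (p c : ℝ) :
    ∃ C : ℝ, 0 ≤ C ∧ (∀ t, DifferentiableAt ℝ (fun t => Real.log (deriv f t)) t) ∧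
      (∀ t ∈ Icc p c, |deriv (fun t => Real.log (deriv f t)) t| ≤ C) ∧
      ∀ s ∈ Icc p c, ∀ t ∈ Icc p c,
        |Real.log (deriv f s) - Real.log (deriv f t)| ≤ C * |s - t| := by
  have h1 : ContDiff ℝ 1 (deriv f) := ((contDiff_succ_iff_deriv (n := 1)).1 hf).2.2
  have h2 : ContDiff ℝ 1 (fun t => Real.log (deriv f t)) := h1.log fun t => (hf' t).ne'
  have h3 : Continuous (deriv (fun t => Real.log (deriv f t))) := h2.continuous_deriv (by norm_num)
  obtain ⟨C, hC⟩ := isCompact_Icc.exists_bound_of_continuousOn (s := Icc p c) h3.continuousOn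
  have hd : ∀ t, DifferentiableAt ℝ (fun t => Real.log (deriv f t)) t :=
    fun t => h2.differentiable (by norm_num) t
  refine ⟨max C 0, le_max_right _ _, hd, fun t ht => (hC t ht).trans (le_max_left _ _), ?_⟩
  intro s hs t ht
  have := Convex.norm_image_sub_le_of_norm_deriv_le (𝕜 := ℝ)
    (f := fun t => Real.log (deriv f t)) (C := max C 0) (s := Icc p c)
    (fun x _ => hd x) (fun x hx => (hC x hx).trans (le_max_left _ _)) (convex_Icc p c) ht hs
  simpa [Real.norm_eq_abs] using this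

theorem sum_dist {C0 : ℝ} (hC0 : 0 ≤ C0) (hf : ContDiff ℝ 2 f) (hf' : ∀ t, 0 < deriv f t)
    (hp : f p = p) (hcon : ∀ t ∈ Ioc p (p + δ), f t < t)
    (hlip : ∀ s ∈ Icc p (p + δ), ∀ t ∈ Icc p (p + δ),
        |Real.log (deriv f s) - Real.log (deriv f t)| ≤ C0 * |s - t|)
    (k : ℕ) {u v w : ℝ} (hu : u ∈ Ioc p (p + δ)) (hv : v ∈ Icc (f u) u) (hw : w ∈ Icc (f u) u) :
    |Real.log (deriv (f^[k]) v) - Real.log (deriv (f^[k]) w)| ≤ C0 * δ := by
  rw [sum_log hf hf', sum_log hf hf', ← Finset.sum_sub_distrib]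
  refine (Finset.abs_sum_le_sum_abs _ _).trans ?_
  have hmem : ∀ i, ∀ x ∈ Icc (f u) u, f^[i] x ∈ Icc (f^[i+1] u) (f^[i] u) := by
    intro i x hx
    refine ⟨?_, (sum_mono hf' i).monotone hx.2⟩
    rw [Function.iterate_succ_apply]
    exact (sum_mono hf' i).monotone hx.1
  have hsub : ∀ i, Icc (f^[i+1] u) (f^[i] u) ⊆ Icc p (p + δ) := by
    intro i x hx
    exact ⟨(sum_range hf' hp hcon (i+1) u hu).1.le.trans hx.1,
      hx.2.trans ((sum_range hf' hp hcon i u hu).2.trans hu.2)⟩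
  calc ∑ i ∈ Finset.range k, |Real.log (deriv f (f^[i] v)) - Real.log (deriv f (f^[i] w))|
      ≤ ∑ i ∈ Finset.range k, C0 * (f^[i] u - f^[i+1] u) := by
        refine Finset.sum_le_sum fun i _ => ?_
        refine (hlip _ (hsub i (hmem i v hv)) _ (hsub i (hmem i w hw))).trans ?_
        refine mul_le_mul_of_nonneg_left ?_ hC0
        have h1 := hmem i v hv
        have h2 := hmem i w hw
        rw [abs_le]; constructor <;> linarith [h1.1, h1.2, h2.1, h2.2]
    _ = C0 * (u - f^[k] u) := by rw [← Finset.mul_sum, sum_telesc]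
    _ ≤ C0 * δ := by
        refine mul_le_mul_of_nonneg_left ?_ hC0
        have := (sum_range hf' hp hcon k u hu).1
        linarith [hu.2]

theorem sum_bound {C0 : ℝ} (hC0 : 0 ≤ C0) (hf : ContDiff ℝ 2 f) (hf' : ∀ t, 0 < deriv f t)
    (hp : f p = p) (hcon : ∀ t ∈ Ioc p (p + δ), f t < t)
    (hlip : ∀ s ∈ Icc p (p + δ), ∀ t ∈ Icc p (p + δ),
        |Real.log (deriv f s) - Real.log (deriv f t)| ≤ C0 * |s - t|)
    (k : ℕ) {u : ℝ} (hu : u ∈ Ioc p (p + δ)) :
    deriv (f^[k]) u * (u - f u) ≤ Real.exp (C0 * δ) * (f^[k] u - f^[k+1] u) := by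
  have hlt : f u < u := hcon u hu
  obtain ⟨w, hw, hwe⟩ := exists_deriv_eq_slope (f^[k]) hlt
    (sum_cd hf k).continuous.continuousOn (sum_diff hf k).differentiableOn
  have h1 := sum_dist hC0 hf hf' hp hcon hlip k hu (v := u) (w := w) ⟨hlt.le, le_rfl⟩
    ⟨hw.1.le, hw.2.le⟩
  have h2 : deriv (f^[k]) u ≤ Real.exp (C0 * δ) * deriv (f^[k]) w := by
    have h3 := (abs_le.1 h1).2
    have h4 : Real.log (deriv (f^[k]) u) ≤ C0 * δ + Real.log (deriv (f^[k]) w) := by linarith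
    have h5 := Real.exp_le_exp.2 h4
    rwa [Real.exp_add, Real.exp_log (sum_pos hf hf' k u), Real.exp_log (sum_pos hf hf' k w)] at h5
  have hne : (0:ℝ) < u - f u := by linarith
  have h6 : deriv (f^[k]) w * (u - f u) = f^[k] u - f^[k+1] u := by
    rw [hwe, div_mul_cancel₀ _ hne.ne', Function.iterate_succ_apply]
  calc deriv (f^[k]) u * (u - f u) ≤ (Real.exp (C0 * δ) * deriv (f^[k]) w) * (u - f u) :=
        mul_le_mul_of_nonneg_right h2 hne.le
    _ = Real.exp (C0 * δ) * (f^[k] u - f^[k+1] u) := by rw [mul_assoc, h6]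

end SumAux

theorem iter_facts {p δ a : ℝ} (hδ : 0 < δ) {f : ℝ → ℝ} (hf : ContDiff ℝ 2 f)
    (hf' : ∀ t, 0 < deriv f t) (hp : f p = p) (hcon : ∀ t ∈ Ioc p (p + δ), f t < t)
    (ha : a ∈ Ioo p (p + δ)) :
    (∃ C : ℝ, 0 ≤ C ∧ ∀ k : ℕ, ∀ s ∈ Icc a (p + δ), ∀ t ∈ Icc a (p + δ),
      |Real.log (deriv (f^[k]) s) - Real.log (deriv (f^[k]) t)| ≤ C * |s - t|) ∧
    (∀ ε > 0, ∃ K : ℕ, ∀ k ≥ K, ∀ t ∈ Icc a (p + δ), deriv (f^[k]) t < ε) ∧
    (∀ ε > 0, ∃ K : ℕ, ∀ k ≥ K, ∀ t ∈ Ioc p (p + δ), f^[k] t < p + ε) ∧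
    (∀ k : ℕ, ∀ t ∈ Ioc p (p + δ), p < f^[k] t ∧ f^[k] t ≤ t) ∧
    (∀ k : ℕ, ∀ t, 0 < deriv (f^[k]) t) ∧
    (∀ k : ℕ, ContDiff ℝ 2 (f^[k])) := by
  obtain ⟨C0, hC0, hdiff, hder, hlip⟩ := sum_C0 hf hf' p (p + δ)
  have hsubset : Icc a (p + δ) ⊆ Ioc p (p + δ) := fun x hx => ⟨ha.1.trans_le hx.1, hx.2⟩
  have huni : ∀ ε > 0, ∃ K : ℕ, ∀ k ≥ K, ∀ t ∈ Ioc p (p + δ), f^[k] t < p + ε := by
    intro ε hε
    have ht := sum_tendsto hδ hf hf' hp hcon
    have h1 := (tendsto_order.1 ht).2 (p + ε) (by linarith)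
    obtain ⟨K, hK⟩ := eventually_atTop.1 h1
    refine ⟨K, fun k hk t ht => ?_⟩
    exact ((sum_mono hf' k).monotone ht.2).trans_lt (hK k hk)
  -- the minimum of `u - f u` on `[a, c]`
  obtain ⟨u0, hu0, hmin⟩ := isCompact_Icc.exists_isMinOn (s := Icc a (p + δ))
    ⟨a, le_rfl, ha.2.le⟩ (f := fun u => u - f u) (continuous_id.sub hf.continuous).continuousOn
  set μ := u0 - f u0 with hμdef
  have hμ : 0 < μ := by have := hcon u0 (hsubset hu0); rw [hμdef]; linarith
  have hμle : ∀ u ∈ Icc a (p + δ), μ ≤ u - f u := fun u hu => hmin hu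
  have hE : 0 < Real.exp (C0 * δ) := Real.exp_pos _
  have hb : ∀ k : ℕ, ∀ u ∈ Icc a (p + δ),
      deriv (f^[k]) u ≤ Real.exp (C0 * δ) / μ * (f^[k] u - f^[k+1] u) := by
    intro k u hu
    have h1 := sum_bound hC0 hf hf' hp hcon hlip k (hsubset hu)
    have h2 : deriv (f^[k]) u * μ ≤ deriv (f^[k]) u * (u - f u) :=
      mul_le_mul_of_nonneg_left (hμle u hu) (sum_pos hf hf' k u).le
    have h3 : deriv (f^[k]) u * μ ≤ Real.exp (C0 * δ) * (f^[k] u - f^[k+1] u) := h2.trans h1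
    have h4 : Real.exp (C0 * δ) / μ * (f^[k] u - f^[k+1] u)
        = (Real.exp (C0 * δ) * (f^[k] u - f^[k+1] u)) / μ := by ring
    rw [h4, le_div_iff₀ hμ]
    exact h3
  refine ⟨⟨C0 * (Real.exp (C0 * δ) / μ * δ), by positivity, ?_⟩, ?_, huni,
    fun k t ht => sum_range hf' hp hcon k t ht, fun k t => sum_pos hf hf' k t,
    fun k => sum_cd hf k⟩
  · intro k s hs t ht
    have hD : ∀ x ∈ Icc a (p + δ), HasDerivWithinAt (fun t => Real.log (deriv (f^[k]) t))
        (∑ i ∈ Finset.range k, deriv (fun t => Real.log (deriv f t)) (f^[i] x) * deriv (f^[i]) x)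
        (Icc a (p + δ)) x := by
      intro x _
      have h1 : (fun t => Real.log (deriv (f^[k]) t)) =
          fun t => ∑ i ∈ Finset.range k, Real.log (deriv f (f^[i] t)) := by
        funext t; exact sum_log hf hf' k t
      rw [h1]
      refine HasDerivAt.hasDerivWithinAt ?_
      refine HasDerivAt.fun_sum fun i _ => ?_
      exact HasDerivAt.comp x (hdiff (f^[i] x)).hasDerivAt (sum_diff hf i x).hasDerivAt
    have hbd : ∀ x ∈ Icc a (p + δ),
        ‖∑ i ∈ Finset.range k, deriv (fun t => Real.log (deriv f t)) (f^[i] x) * deriv (f^[i]) x‖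
          ≤ C0 * (Real.exp (C0 * δ) / μ * δ) := by
      intro x hx
      rw [Real.norm_eq_abs]
      refine (Finset.abs_sum_le_sum_abs _ _).trans ?_
      calc ∑ i ∈ Finset.range k, |deriv (fun t => Real.log (deriv f t)) (f^[i] x) * deriv (f^[i]) x|
          ≤ ∑ i ∈ Finset.range k, C0 * (Real.exp (C0 * δ) / μ * (f^[i] x - f^[i+1] x)) := by
            refine Finset.sum_le_sum fun i _ => ?_
            rw [abs_mul, abs_of_pos (sum_pos hf hf' i x)]
            have hr := sum_range hf' hp hcon i x (hsubset hx)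
            exact mul_le_mul (hder _ ⟨hr.1.le, hr.2.trans hx.2⟩) (hb i x hx)
              (sum_pos hf hf' i x).le hC0
        _ = C0 * (Real.exp (C0 * δ) / μ * (x - f^[k] x)) := by
            rw [← Finset.mul_sum, ← Finset.mul_sum, sum_telesc]
        _ ≤ C0 * (Real.exp (C0 * δ) / μ * δ) := by
            refine mul_le_mul_of_nonneg_left ?_ hC0
            refine mul_le_mul_of_nonneg_left ?_ (by positivity)
            have := (sum_range hf' hp hcon k x (hsubset hx)).1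
            linarith [hx.2]
    have := Convex.norm_image_sub_le_of_norm_hasDerivWithin_le hD hbd (convex_Icc a (p + δ)) ht hs
    simpa [Real.norm_eq_abs] using this
  · intro ε hε
    obtain ⟨K, hK⟩ := huni (ε * μ / Real.exp (C0 * δ)) (by positivity)
    refine ⟨K, fun k hk t ht => ?_⟩
    have h1 := hK k hk t (hsubset ht)
    have h2 := (sum_range hf' hp hcon (k+1) t (hsubset ht)).1
    calc deriv (f^[k]) t ≤ Real.exp (C0 * δ) / μ * (f^[k] t - f^[k+1] t) := hb k t ht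
      _ < Real.exp (C0 * δ) / μ * (ε * μ / Real.exp (C0 * δ)) := by
          refine mul_lt_mul_of_pos_left ?_ (by positivity)
          linarith
      _ = ε := by field_simp

end Pool.Agent.H50.GS
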