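/-
helper50, project GS, job GS-RENHYP: renormalisation of near-identity maps at a hyperbolic fixed point.

SETTING. f, e inverse C² diffeos of ℝ, positive derivatives, f p = p, f'(p) < 1. U n: C² on (p-r, p+r),
U n → id and (U n)' → 1 uniformly there, |(U n)''| ≤ M there, and p < U n p for all n.
CLAIM: there are p < α < β < p + r, N and k : ℕ → ℕ such that F n := e^[k n] ∘ U (N+n) ∘ f^[k n] is near-identity on
(α, β).

PROOF. Choose δ ∈ (0, r) with f' ≤ λ < 1 on [p, p+δ] for some λ (continuity of f' at p); then f t < t and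
f t - p ≤ λ (t - p) on (p, p+δ]. Also f' ≥ λ0 > 0 on [p, p+δ]. c := p+δ, c_j := f^[j] c, α := c_2, β := c_1. Use
`iter_facts` (file Sum) with a := c_2: constant C1 for L_k := log (f^[k])' on I := [c_2, c]; by (S) below also
  (S) for all k and u ∈ I: s_k/K0 ≤ (f^[k])'(u) ≤ K0 s_k, s_k := f^[k] c - p, with K0 independent of k:
      f^[k] c - f^[k] c_1 = (f^[k])'(ξ)(c - c_1) for some ξ ∈ I, log (f^[k])' has oscillation ≤ C1 δ on I, and
      (1-λ) s_k ≤ f^[k] c - f^[k+1] c ≤ s_k.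
Put d n := U n p - p > 0 and choose ε n > 0, ε n → 0, ε n ≤ 1/4, with |(U n)' - 1| ≤ ε n on (p-r,p+r) and
d n ≤ ε n ... (only d n → 0 is used) [n ≥ N]. Let k = k n be the least k ≥ 0 with √(ε n)·s_k ≤ d n (exists since s_k → 0).
D(t) := U n t - t satisfies |D'| ≤ ε n, so for t ∈ (p, p + s_k]:
   D(t) ≥ d n - ε n s_k ≥ d n (1 - √(ε n)) > 0,   D(t) ≤ d n + ε n s_k.
If k ≥ 1, minimality gives d n < √(ε n) s_{k-1} ≤ √(ε n) s_k/λ0, so D(t) ≤ (√(ε n)/λ0 + ε n) s_k; if k = 0, D(t) ≤ d n +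
ε n δ = (d n/δ + ε n) s_0. In both cases D(t) ≤ θ n·s_k on (p, p+s_k] with θ n → 0 (θ n := √(ε n)/λ0 + ε n + d n/δ).
Let u ∈ (α, β) = (c_2, c_1), y := f^[k] u ∈ (p, p+s_k]. y < U n y ≤ y + θ n s_k. By (S) the interval
[f^[k] c_1, f^[k] c] has length ≥ (c - c_1) s_k/K0, so for n large U n y ≤ f^[k] c_1 + θ n s_k ≤ f^[k] c, hence
F u := e^[k] (U n y) ∈ [u, c], F u > u, and F u - u ≤ (U n y - y)·K0/s_k ≤ K0 θ n → 0 (mean value theorem for f^[k] on
[u, F u] ⊂ I). This is uniform convergence to the identity on (α, β).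
Chain rule: log F'(u) = log (U n)'(f^[k] u) + L_k(u) - L_k(F u). So |log F'| is bounded by a constant on (α,β) and log F'
is Lipschitz with constant ≤ sup |(log (U n)')'|·sup (f^[k])' + C1 + C1 sup F' ≤ 2M·K0 δ + C1 + C1 exp(1 + C1 δ)
((U n)' ≥ 1/2, |(U n)''| ≤ M).
-/
import Pool.Agent.H50.GS.Sum
import Pool.Agent.H50.GS.RenAux

set_option autoImplicit false
open Set Filter Topology MeasureTheory

namespace Pool.Agent.H50.GS

/-- Diagonal choice of the error. -/
theorem exists_diag {P : ℝ → ℕ → Prop} (h : ∀ ε > 0, ∃ N, ∀ n ≥ N, P ε n) :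
    ∃ ε : ℕ → ℝ, (∀ n, 0 < ε n) ∧ (∀ η > 0, ∃ N, ∀ n ≥ N, ε n < η) ∧ ∃ N, ∀ n ≥ N, P (ε n) n := by
  classical
  have h' : ∀ j : ℕ, ∃ N, ∀ n ≥ N, P (1 / ((j : ℝ) + 1)) n := fun j => h _ (by positivity)
  choose N hN using h'
  set J : ℕ → ℕ := fun n => Nat.findGreatest (fun j => P (1 / ((j : ℝ) + 1)) n) n with hJ
  refine ⟨fun n => 1 / ((J n : ℝ) + 1), fun n => by positivity, fun η hη => ?_, N 0, fun n hn => ?_⟩
  · obtain ⟨j, hj⟩ := exists_nat_one_div_lt hη
    refine ⟨max j (N j), fun n hn => ?_⟩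
    have h1 : j ≤ J n := Nat.le_findGreatest ((le_max_left _ _).trans hn)
      (hN j n ((le_max_right _ _).trans hn))
    refine lt_of_le_of_lt ?_ hj
    have h2 : (j : ℝ) ≤ (J n : ℝ) := by exact_mod_cast h1
    exact one_div_le_one_div_of_le (by positivity) (by linarith)
  · exact Nat.findGreatest_spec (P := fun j => P (1 / ((j : ℝ) + 1)) n) (Nat.zero_le n) (hN 0 n hn)

/-- The choice of the renormalisation time. -/
theorem time_choice {p δ l0 ε : ℝ} (hδ : 0 < δ) (hl0 : 0 < l0) {s : ℕ → ℝ} (hs0 : s 0 = δ)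
    (hspos : ∀ k, 0 < s k) (hsle : ∀ k, s k ≤ δ) (hsl : ∀ k, l0 * s k ≤ s (k + 1))
    (hst : ∀ η > 0, ∃ k, s k < η) {V : ℝ → ℝ} (hε : 0 < ε) (hε4 : ε ≤ 1 / 4)
    (hVd : ∀ t ∈ Icc p (p + δ), DifferentiableAt ℝ V t)
    (hV : ∀ t ∈ Icc p (p + δ), |deriv V t - 1| ≤ ε) (hd : p < V p) (hd' : V p - p ≤ ε) :
    ∃ k : ℕ, ∀ t ∈ Ioc p (p + s k), t < V t ∧
      V t - t ≤ (Real.sqrt ε / l0 + ε + ε / δ) * s k := by
  classical
  set d := V p - p with hdd
  have hd0 : 0 < d := sub_pos.2 hd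
  have hsq : 0 < Real.sqrt ε := Real.sqrt_pos.2 hε
  have hsq2 : Real.sqrt ε * Real.sqrt ε = ε := Real.mul_self_sqrt hε.le
  have hsqh : Real.sqrt ε ≤ 1 / 2 := by
    rw [show (1 / 2 : ℝ) = Real.sqrt (1 / 4) by
      rw [show (1 / 4 : ℝ) = (1 / 2) ^ 2 by norm_num, Real.sqrt_sq (by norm_num)]]
    exact Real.sqrt_le_sqrt hε4
  have hex : ∃ k, Real.sqrt ε * s k ≤ d := by
    obtain ⟨k, hk⟩ := hst (d / Real.sqrt ε) (div_pos hd0 hsq)
    refine ⟨k, ?_⟩
    rw [lt_div_iff₀ hsq] at hk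
    linarith
  set k := Nat.find hex with hkdef
  have hk : Real.sqrt ε * s k ≤ d := Nat.find_spec hex
  have hεs : ε * s k ≤ d / 2 := by
    calc ε * s k = Real.sqrt ε * (Real.sqrt ε * s k) := by rw [← mul_assoc, hsq2]
      _ ≤ 1 / 2 * d := mul_le_mul hsqh hk (mul_pos hsq (hspos k)).le (by norm_num)
      _ = d / 2 := by ring
  have hdk : d ≤ (Real.sqrt ε / l0 + ε / δ) * s k := by
    rcases Nat.eq_zero_or_pos k with h0 | h0
    · rw [h0, hs0]
      have : ε / δ * δ = ε := div_mul_cancel₀ _ hδ.ne'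
      have h2 : 0 ≤ Real.sqrt ε / l0 * δ := by positivity
      rw [add_mul, this]
      linarith
    · obtain ⟨j, hj⟩ : ∃ j, k = j + 1 := ⟨k - 1, by omega⟩
      have h1 : ¬ (Real.sqrt ε * s j ≤ d) := Nat.find_min hex (by omega)
      have h2 := hsl j
      rw [← hj] at h2
      have h3 : s j ≤ s k / l0 := by rw [le_div_iff₀ hl0]; linarith
      have h4 : Real.sqrt ε * s j ≤ Real.sqrt ε * (s k / l0) := mul_le_mul_of_nonneg_left h3 hsq.le
      have h5 : Real.sqrt ε * (s k / l0) = Real.sqrt ε / l0 * s k := by ring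
      have h6 : 0 ≤ ε / δ * s k := by have := hspos k; positivity
      push Not at h1
      rw [add_mul]
      linarith
  refine ⟨k, fun t ht => ?_⟩
  have htI : t ∈ Icc p (p + δ) := ⟨ht.1.le, ht.2.trans (by linarith [hsle k])⟩
  have hpI : p ∈ Icc p (p + δ) := ⟨le_rfl, by linarith⟩
  have h1 := (convex_Icc p (p + δ)).norm_image_sub_le_of_norm_deriv_le
    (f := fun t => V t - t) (C := ε)
    (fun x hx => (hVd x hx).sub differentiableAt_id)
    (fun x hx => by
      have : deriv (fun t => V t - t) x = deriv V x - 1 := by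
        exact (((hVd x hx).hasDerivAt).sub (hasDerivAt_id x)).deriv
      rw [this, Real.norm_eq_abs]
      exact hV x hx) hpI htI
  rw [Real.norm_eq_abs, Real.norm_eq_abs, abs_of_pos (sub_pos.2 ht.1)] at h1
  have h2 : ε * (t - p) ≤ ε * s k := mul_le_mul_of_nonneg_left (by linarith [ht.2]) hε.le
  have h3 := abs_le.1 (h1.trans h2)
  constructor
  · have := h3.1
    linarith
  · have h4 : (Real.sqrt ε / l0 + ε + ε / δ) * s k =
        (Real.sqrt ε / l0 + ε / δ) * s k + ε * s k := by ring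
    rw [h4]
    have := h3.2
    linarith

theorem renormHyp {p r : ℝ} (hr : 0 < r) {f e : ℝ → ℝ} (hf : ContDiff ℝ 2 f) (he : ContDiff ℝ 2 e)
    (hf' : ∀ t, 0 < deriv f t) (he' : ∀ t, 0 < deriv e t) (hfe : ∀ t, f (e t) = t)
    (hef : ∀ t, e (f t) = t) (hp : f p = p) (hlam : deriv f p < 1)
    {U : ℕ → ℝ → ℝ} (hU2 : ∀ n, ContDiffOn ℝ 2 (U n) (Ioo (p - r) (p + r)))
    (h0 : ∀ ε > 0, ∃ N, ∀ n ≥ N, ∀ t ∈ Ioo (p - r) (p + r), |U n t - t| < ε)
    (h1 : ∀ ε > 0, ∃ N, ∀ n ≥ N, ∀ t ∈ Ioo (p - r) (p + r), |deriv (U n) t - 1| < ε)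
    {M : ℝ} (h2 : ∀ n, ∀ t ∈ Ioo (p - r) (p + r), |deriv (deriv (U n)) t| ≤ M)
    (hpos : ∀ n, p < U n p) :
    ∃ α β : ℝ, p < α ∧ α < β ∧ β < p + r ∧ ∃ (N : ℕ) (k : ℕ → ℕ),
      NearId α β (fun n t => e^[k n] (U (N + n) (f^[k n] t))) := by
  have hfm : StrictMono f := strictMono_of_deriv_pos hf'
  have hem : StrictMono e := strictMono_of_deriv_pos he'
  have hfdiff : ∀ t, DifferentiableAt ℝ f t := fun t => hf.differentiable (by norm_num) t
  have hfc' : Continuous (deriv f) := hf.continuous_deriv (by norm_num)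
  -- choice of δ and λ
  set lam : ℝ := (1 + deriv f p) / 2 with hlamd
  have hlam1 : lam < 1 := by linarith
  have hlam0 : 0 < lam := by linarith [hf' p]
  have hlt : deriv f p < lam := by linarith
  obtain ⟨δ0, hδ0, hδf⟩ : ∃ δ0 > 0, ∀ t, |t - p| < δ0 → deriv f t < lam := by
    have := (hfc'.tendsto p).eventually_lt_const hlt
    rw [Metric.eventually_nhds_iff] at this
    obtain ⟨ε, hε, h⟩ := this
    exact ⟨ε, hε, fun t ht => h (by simpa [Real.dist_eq] using ht)⟩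
  set δ : ℝ := min (δ0 / 2) (r / 2) with hδd
  have hδ : 0 < δ := lt_min (by linarith) (by linarith)
  have hδr : δ < r := (min_le_right _ _).trans_lt (by linarith)
  have hδδ0 : δ < δ0 := (min_le_left _ _).trans_lt (by linarith)
  have hflam : ∀ t ∈ Icc p (p + δ), deriv f t ≤ lam := by
    intro t ht
    refine (hδf t ?_).le
    rw [abs_of_nonneg (sub_nonneg.2 ht.1)]
    linarith [ht.2]
  set c := p + δ with hc
  have hpc : p < c := by linarith
  have hpI : p ∈ Icc p c := ⟨le_rfl, hpc.le⟩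
  obtain ⟨x0, hx0, hx0m⟩ := (isCompact_Icc (a := p) (b := c)).exists_isMinOn
    ⟨p, hpI⟩ hfc'.continuousOn
  set l0 : ℝ := deriv f x0 with hl0d
  have hl0 : 0 < l0 := hf' x0
  have hl0m : ∀ t ∈ Icc p c, l0 ≤ deriv f t := fun t ht => hx0m ht
  -- f contracts
  have hfup : ∀ x ∈ Icc p c, ∀ y ∈ Icc p c, x ≤ y → f y - f x ≤ lam * (y - x) := by
    intro x hx y hy hxy
    exact (convex_Icc p c).image_sub_le_mul_sub_of_deriv_le hf.continuous.continuousOn
      (fun t _ => (hfdiff t).differentiableWithinAt)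
      (fun t ht => hflam t (interior_subset ht)) x hx y hy hxy
  have hflow : ∀ x ∈ Icc p c, ∀ y ∈ Icc p c, x ≤ y → l0 * (y - x) ≤ f y - f x := by
    intro x hx y hy hxy
    exact (convex_Icc p c).mul_sub_le_image_sub_of_le_deriv hf.continuous.continuousOn
      (fun t _ => (hfdiff t).differentiableWithinAt)
      (fun t ht => hl0m t (interior_subset ht)) x hx y hy hxy
  have hcon : ∀ t ∈ Ioc p (p + δ), f t < t := by
    intro t ht
    have h := hfup p hpI t ⟨ht.1.le, ht.2⟩ ht.1.le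
    rw [hp] at h
    have h' : 0 < t - p := sub_pos.2 ht.1
    nlinarith
  set c1 := f c with hc1
  set c2 := f c1 with hc2
  have h1c : c1 < c := hcon c ⟨hpc, le_rfl⟩
  have hp1 : p < c1 := by have := hfm hpc; rwa [hp] at this
  have h21 : c2 < c1 := hcon c1 ⟨hp1, h1c.le⟩
  have hp2 : p < c2 := by have := hfm hp1; rwa [hp] at this
  have ha : c2 ∈ Ioo p (p + δ) := ⟨hp2, h21.trans h1c⟩
  obtain ⟨⟨C1, hC1, hL⟩, -, hI3, hI4, hI5, hI6⟩ := iter_facts hδ hf hf' hp hcon ha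
  -- the sequence s
  set s : ℕ → ℝ := fun k => f^[k] c - p with hs
  have hs0 : s 0 = δ := by simp [hs, hc]
  have hcc : c ∈ Ioc p (p + δ) := ⟨hpc, le_rfl⟩
  have hspos : ∀ k, 0 < s k := fun k => sub_pos.2 (hI4 k c hcc).1
  have hsle : ∀ k, s k ≤ δ := fun k => by
    have := (hI4 k c hcc).2
    simp only [hs]; linarith
  have hsI : ∀ k, f^[k] c ∈ Icc p c := fun k => ⟨(hI4 k c hcc).1.le, (hI4 k c hcc).2⟩
  have hsl : ∀ k, l0 * s k ≤ s (k + 1) := by
    intro k
    have h := hflow p hpI _ (hsI k) (hsI k).1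
    rw [hp] at h
    simp only [hs, Function.iterate_succ_apply']
    exact h
  have hsu : ∀ k, s (k + 1) ≤ lam * s k := by
    intro k
    have h := hfup p hpI _ (hsI k) (hsI k).1
    rw [hp] at h
    simp only [hs, Function.iterate_succ_apply']
    exact h
  have hst : ∀ η > 0, ∃ k, s k < η := by
    intro η hη
    obtain ⟨K, hK⟩ := hI3 η hη
    refine ⟨K, ?_⟩
    have := hK K le_rfl c hcc
    simp only [hs]; linarith
  -- monotone facts for f^[k]
  have hfkm : ∀ k, StrictMono (f^[k]) := fun k => hfm.iterate k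
  have hekm : ∀ k, StrictMono (e^[k]) := fun k => hem.iterate k
  have hfc1 : ∀ k, f^[k] c1 = p + s (k + 1) := by
    intro k
    simp only [hs, hc1, Function.iterate_succ_apply]
    ring
  have hfcc : ∀ k, f^[k] c = p + s k := fun k => by simp only [hs]; ring
  -- lower bound for the derivative of f^[k]
  have hw : 0 < c - c1 := sub_pos.2 h1c
  set Kl : ℝ := (1 - lam) / (Real.exp (C1 * δ) * (c - c1)) with hKl
  have hKl0 : 0 < Kl := div_pos (by linarith) (mul_pos (Real.exp_pos _) hw)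
  have hlow : ∀ k, ∀ u ∈ Icc c2 c, Kl * s k ≤ deriv (f^[k]) u := by
    intro k u hu
    obtain ⟨ξ, hξ, hξe⟩ := exists_deriv_eq_slope (f^[k]) h1c ((hI6 k).continuous.continuousOn)
      (fun t _ => ((hI6 k).differentiable (by norm_num) t).differentiableWithinAt)
    have h3 : (1 - lam) * s k ≤ f^[k] c - f^[k] c1 := by
      rw [hfc1, hfcc]
      have := hsu k
      linarith
    have h4 : (1 - lam) * s k / (c - c1) ≤ deriv (f^[k]) ξ := by
      rw [hξe]
      exact div_le_div_of_nonneg_right h3 hw.le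
    have hξI : ξ ∈ Icc c2 (p + δ) := ⟨(h21.trans hξ.1).le, hξ.2.le⟩
    have h5 := hL k ξ hξI u hu
    have h6 : |ξ - u| ≤ δ := by
      rw [abs_le]
      have := hu.1; have := hu.2; have := hξI.1; have := hξI.2
      constructor <;> linarith
    have h7 : Real.log (deriv (f^[k]) ξ) - Real.log (deriv (f^[k]) u) ≤ C1 * δ :=
      (le_abs_self _).trans (h5.trans (mul_le_mul_of_nonneg_left h6 hC1))
    have h8 : deriv (f^[k]) ξ ≤ Real.exp (C1 * δ) * deriv (f^[k]) u := by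
      rw [← Real.exp_log (hI5 k ξ), ← Real.exp_log (hI5 k u), ← Real.exp_add]
      exact Real.exp_le_exp.2 (by rw [← sub_le_iff_le_add]; exact h7)
    have h9 := h4.trans h8
    rw [hKl]
    have hE := Real.exp_pos (C1 * δ)
    rw [div_mul_eq_mul_div, div_le_iff₀ (mul_pos hE hw)]
    rw [div_le_iff₀ hw] at h9
    linarith
  -- f^[k] is 1-Lipschitz on [p, c]
  have hfself : ∀ x ∈ Icc p c, f x ∈ Icc p c := by
    intro x hx
    refine ⟨?_, ?_⟩
    · have := hfm.monotone hx.1; rwa [hp] at this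
    · rcases hx.1.eq_or_lt with h | h
      · rw [← h, hp]; exact hpc.le
      · exact ((hcon x ⟨h, hx.2⟩).le).trans hx.2
  have hlip1 : ∀ x ∈ Icc p c, ∀ y ∈ Icc p c, |f x - f y| ≤ |x - y| := by
    intro x hx y hy
    rcases le_total x y with h | h
    · have h3 := hfup x hx y hy h
      have h4 := hfm.monotone h
      rw [abs_sub_comm, abs_sub_comm x y, abs_of_nonneg (sub_nonneg.2 h4),
        abs_of_nonneg (sub_nonneg.2 h)]
      nlinarith [sub_nonneg.2 h]
    · have h3 := hfup y hy x hx h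
      have h4 := hfm.monotone h
      rw [abs_of_nonneg (sub_nonneg.2 h4), abs_of_nonneg (sub_nonneg.2 h)]
      nlinarith [sub_nonneg.2 h]
  have hlipk : ∀ k : ℕ, ∀ x ∈ Icc p c, ∀ y ∈ Icc p c, |f^[k] x - f^[k] y| ≤ |x - y| := by
    intro k
    induction k with
    | zero => intro x _ y _; simp
    | succ k ih =>
      intro x hx y hy
      rw [Function.iterate_succ_apply, Function.iterate_succ_apply]
      exact (ih _ (hfself x hx) _ (hfself y hy)).trans (hlip1 x hx y hy)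
  -- the error sequence
  obtain ⟨ε, hε0, hεt, N1, hN1⟩ := exists_diag
    (P := fun ε n => (∀ t ∈ Ioo (p - r) (p + r), |U n t - t| < ε) ∧
      (∀ t ∈ Ioo (p - r) (p + r), |deriv (U n) t - 1| < ε)) (by
    intro ε hε
    obtain ⟨N, hN⟩ := h0 ε hε
    obtain ⟨N', hN'⟩ := h1 ε hε
    exact ⟨max N N', fun n hn => ⟨hN n ((le_max_left _ _).trans hn),
      hN' n ((le_max_right _ _).trans hn)⟩⟩)
  set θ : ℕ → ℝ := fun n => Real.sqrt (ε n) / l0 + ε n + ε n / δ with hθ
  have hθt : ∀ η > 0, ∃ N, ∀ n ≥ N, θ n < η := by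
    intro η hη
    -- θ n ≤ √(ε n) (1/l0 + 1 + 1/δ) when ε n ≤ 1
    set Q : ℝ := 1 / l0 + 1 + 1 / δ with hQ
    have hQ0 : 0 < Q := by positivity
    obtain ⟨Na, hNa⟩ := hεt 1 one_pos
    obtain ⟨Nb, hNb⟩ := hεt ((η / Q) ^ 2) (by positivity)
    refine ⟨max Na Nb, fun n hn => ?_⟩
    have ha := hNa n ((le_max_left _ _).trans hn)
    have hb := hNb n ((le_max_right _ _).trans hn)
    have h3 : Real.sqrt (ε n) < η / Q := by
      rw [Real.sqrt_lt' (by positivity)]; exact hb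
    have h4 : ε n ≤ Real.sqrt (ε n) := by
      have h5 : Real.sqrt (ε n) * Real.sqrt (ε n) = ε n := Real.mul_self_sqrt (hε0 n).le
      have h6 : Real.sqrt (ε n) ≤ 1 := Real.sqrt_le_one.2 ha.le
      nlinarith [Real.sqrt_nonneg (ε n)]
    have h5 : θ n ≤ Real.sqrt (ε n) * Q := by
      simp only [hθ, hQ]
      have h6 : ε n / δ ≤ Real.sqrt (ε n) / δ := div_le_div_of_nonneg_right h4 hδ.le
      calc Real.sqrt (ε n) / l0 + ε n + ε n / δ
          ≤ Real.sqrt (ε n) / l0 + Real.sqrt (ε n) + Real.sqrt (ε n) / δ := by linarith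
        _ = Real.sqrt (ε n) * (1 / l0 + 1 + 1 / δ) := by ring
    rw [lt_div_iff₀ hQ0] at h3
    exact h5.trans_lt h3
  obtain ⟨N2, hN2⟩ := hθt (1 - lam) (by linarith)
  obtain ⟨N3, hN3⟩ := hεt (1 / 4) (by norm_num)
  set N : ℕ := max N1 (max N2 N3) with hNd
  have hIsub : ∀ t ∈ Icc p c, t ∈ Ioo (p - r) (p + r) := fun t ht =>
    ⟨by linarith [ht.1], by linarith [ht.2]⟩
  have hopen : IsOpen (Ioo (p - r) (p + r)) := isOpen_Ioo
  have hUd : ∀ n, ∀ t ∈ Icc p c, DifferentiableAt ℝ (U n) t := fun n t ht =>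
    ((hU2 n).differentiableOn (by norm_num)).differentiableAt (hopen.mem_nhds (hIsub t ht))
  have hUd2 : ∀ n, ∀ t ∈ Ioo (p - r) (p + r), DifferentiableAt ℝ (deriv (U n)) t := by
    intro n t ht
    have h : ContDiffOn ℝ (1 + 1) (U n) (Ioo (p - r) (p + r)) := by norm_num; exact hU2 n
    have h3 := ((contDiffOn_succ_iff_deriv_of_isOpen hopen).1 h).2.2
    exact (h3.differentiableOn (by norm_num)).differentiableAt (hopen.mem_nhds ht)
  have htime : ∀ n, ∃ k : ℕ, ∀ t ∈ Ioc p (p + s k), t < U (N + n) t ∧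
      U (N + n) t - t ≤ θ (N + n) * s k := by
    intro n
    have hn1 : N1 ≤ N + n := (le_max_left _ _).trans (Nat.le_add_right _ _)
    have hn3 : N3 ≤ N + n :=
      ((le_max_right N2 N3).trans (le_max_right N1 _)).trans (Nat.le_add_right _ _)
    have hP := hN1 (N + n) hn1
    refine time_choice hδ hl0 hs0 hspos hsle hsl hst (hε0 (N + n)) (hN3 _ hn3).le
      (fun t ht => hUd _ t ht) (fun t ht => (hP.2 t (hIsub t ht)).le) (hpos _) ?_
    exact (le_abs_self _).trans (hP.1 p (hIsub p hpI)).le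
  choose k hk using htime
  set F : ℕ → ℝ → ℝ := fun n t => e^[k n] (U (N + n) (f^[k n] t)) with hF
  have hsubI : ∀ u ∈ Icc c2 c, u ∈ Icc p c := fun u hu => ⟨hp2.le.trans hu.1, hu.2⟩
  have hy : ∀ n, ∀ u ∈ Icc c2 c, f^[k n] u ∈ Ioc p (p + s (k n)) := by
    intro n u hu
    have hu' : u ∈ Ioc p (p + δ) := ⟨hp2.trans_le hu.1, hu.2⟩
    refine ⟨(hI4 _ u hu').1, ?_⟩
    rw [← hfcc]
    exact (hfkm _).monotone hu.2
  have hyI : ∀ n, ∀ u ∈ Icc c2 c, f^[k n] u ∈ Icc p c := by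
    intro n u hu
    have h3 := hy n u hu
    exact ⟨h3.1.le, h3.2.trans (by linarith [hsle (k n)])⟩
  have hsub1 : ∀ u ∈ Icc c2 c1, u ∈ Icc c2 c := fun u hu => ⟨hu.1, hu.2.trans h1c.le⟩
  have hF1 : ∀ n, ∀ u ∈ Icc c2 c, u < F n u := by
    intro n u hu
    have h3 := (hk n _ (hy n u hu)).1
    have h4 := hekm (k n) h3
    rwa [iter_inv hef] at h4
  have hfF : ∀ n u, f^[k n] (F n u) = U (N + n) (f^[k n] u) := fun n u => iter_inv hfe _ _
  have hF2 : ∀ n, ∀ u ∈ Icc c2 c1, F n u ∈ Icc c2 c := by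
    intro n u hu
    refine ⟨hu.1.trans (hF1 n u (hsub1 u hu)).le, ?_⟩
    have h3 := (hk n _ (hy n u (hsub1 u hu))).2
    have h4 : f^[k n] u ≤ p + s (k n + 1) := by
      rw [← hfc1]; exact (hfkm _).monotone hu.2
    have hn2 : N2 ≤ N + n :=
      ((le_max_left N2 N3).trans (le_max_right N1 _)).trans (Nat.le_add_right _ _)
    have h5 := hN2 _ hn2
    have h6 : θ (N + n) * s (k n) ≤ (1 - lam) * s (k n) :=
      mul_le_mul_of_nonneg_right h5.le (hspos _).le
    have h7 := hsu (k n)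
    have h8 : U (N + n) (f^[k n] u) ≤ f^[k n] c := by rw [hfcc]; linarith
    rw [← hfF] at h8
    exact (hfkm _).le_iff_le.1 h8
  have hF3 : ∀ n, ∀ u ∈ Icc c2 c1, F n u - u ≤ θ (N + n) / Kl := by
    intro n u hu
    have h3 := (hk n _ (hy n u (hsub1 u hu))).2
    rw [← hfF] at h3
    have h4 := (convex_Icc c2 c).mul_sub_le_image_sub_of_le_deriv (f := f^[k n])
      (C := Kl * s (k n)) (hI6 _).continuous.continuousOn
      (fun t _ => ((hI6 _).differentiable (by norm_num) t).differentiableWithinAt)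
      (fun t ht => hlow _ t (interior_subset ht)) u (hsub1 u hu) _ (hF2 n u hu)
      (hF1 n u (hsub1 u hu)).le
    rw [le_div_iff₀ hKl0]
    have h5 : Kl * s (k n) * (F n u - u) ≤ θ (N + n) * s (k n) := h4.trans h3
    have h6 : ((F n u - u) * Kl) * s (k n) ≤ θ (N + n) * s (k n) := by linarith
    exact le_of_mul_le_mul_right h6 (hspos _)
  -- derivatives
  have hUpos : ∀ n, ∀ t ∈ Ioo (p - r) (p + r), |deriv (U (N + n)) t - 1| < 1 / 4 := by
    intro n t ht
    have hn1 : N1 ≤ N + n := (le_max_left _ _).trans (Nat.le_add_right _ _)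
    have hn3 : N3 ≤ N + n :=
      ((le_max_right N2 N3).trans (le_max_right N1 _)).trans (Nat.le_add_right _ _)
    exact ((hN1 (N + n) hn1).2 t ht).trans (hN3 _ hn3)
  have hU34 : ∀ n, ∀ t ∈ Ioo (p - r) (p + r), 3 / 4 < deriv (U (N + n)) t ∧
      deriv (U (N + n)) t < 5 / 4 := by
    intro n t ht
    have := abs_lt.1 (hUpos n t ht)
    constructor <;> linarith
  have hU0 : ∀ n, ∀ t ∈ Ioo (p - r) (p + r), 0 < deriv (U (N + n)) t := fun n t ht => by
    linarith [(hU34 n t ht).1]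
  have hFd : ∀ n, ∀ u ∈ Icc c2 c, HasDerivAt (F n)
      (deriv (U (N + n)) (f^[k n] u) * deriv (f^[k n]) u / deriv (f^[k n]) (F n u)) u := by
    intro n u hu
    exact conj_hasDerivAt hf he hI5 hfe (hUd _ _ (hyI n u hu))
  have hFd0 : ∀ n, ∀ u ∈ Icc c2 c, 0 < deriv (F n) u := by
    intro n u hu
    rw [(hFd n u hu).deriv]
    exact div_pos (mul_pos (hU0 n _ (hIsub _ (hyI n u hu))) (hI5 _ _)) (hI5 _ _)
  have hlog : ∀ n, ∀ u ∈ Icc c2 c,
      Real.log (deriv (F n) u) = Real.log (deriv (U (N + n)) (f^[k n] u)) +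
      (Real.log (deriv (f^[k n]) u) - Real.log (deriv (f^[k n]) (F n u))) := by
    intro n u hu
    have hu0 := hU0 n _ (hIsub _ (hyI n u hu))
    rw [(hFd n u hu).deriv, Real.log_div (mul_pos hu0 (hI5 _ _)).ne' (hI5 _ _).ne',
      Real.log_mul hu0.ne' (hI5 _ _).ne']
    ring
  have hlogX : ∀ n, ∀ u ∈ Icc c2 c1, Real.log (deriv (F n) u) ≤ 1 + C1 * δ := by
    intro n u hu
    rw [hlog n u (hsub1 u hu)]
    have h3 := hU34 n _ (hIsub _ (hyI n u (hsub1 u hu)))
    have h4 : Real.log (deriv (U (N + n)) (f^[k n] u)) ≤ 1 := by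
      have h5 := Real.log_le_sub_one_of_pos (hU0 n _ (hIsub _ (hyI n u (hsub1 u hu))))
      linarith [h3.2]
    have h5 := hL (k n) u (hsub1 u hu) (F n u) (hF2 n u hu)
    have h6 : |u - F n u| ≤ δ := by
      rw [abs_sub_comm, abs_of_pos (sub_pos.2 (hF1 n u (hsub1 u hu)))]
      have := (hF2 n u hu).2
      have := hu.1
      linarith
    have h7 := (le_abs_self _).trans (h5.trans (mul_le_mul_of_nonneg_left h6 hC1))
    linarith
  -- Lipschitz constant of log U'
  have hM0 : 0 ≤ M := (abs_nonneg _).trans (h2 0 p (hIsub p hpI))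
  have hlogU : ∀ n, ∀ x ∈ Icc p c, ∀ y ∈ Icc p c,
      |Real.log (deriv (U (N + n)) x) - Real.log (deriv (U (N + n)) y)| ≤ 2 * M * |x - y| := by
    intro n x hx y hy
    have hd : ∀ t ∈ Icc p c, HasDerivAt (fun t => Real.log (deriv (U (N + n)) t))
        (deriv (deriv (U (N + n))) t / deriv (U (N + n)) t) t := fun t ht =>
      (hUd2 _ t (hIsub t ht)).hasDerivAt.log (hU0 n t (hIsub t ht)).ne'
    have := (convex_Icc p c).norm_image_sub_le_of_norm_deriv_le
      (f := fun t => Real.log (deriv (U (N + n)) t)) (C := 2 * M)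
      (fun t ht => (hd t ht).differentiableAt)
      (fun t ht => by
        rw [(hd t ht).deriv, Real.norm_eq_abs, abs_div, abs_of_pos (hU0 n t (hIsub t ht)),
          div_le_iff₀ (hU0 n t (hIsub t ht))]
        have h3 := h2 (N + n) t (hIsub t ht)
        have h4 := (hU34 n t (hIsub t ht)).1
        nlinarith) hy hx
    simpa [Real.norm_eq_abs] using this
  have hsubo : ∀ u ∈ Ioo c2 c1, u ∈ Icc c2 c1 := fun u hu => ⟨hu.1.le, hu.2.le⟩
  refine ⟨c2, c1, hp2, h21, by linarith, N, k, ?_, ?_, ?_, ?_, ?_⟩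
  · intro n t ht
    exact hF1 n t (hsub1 t (hsubo t ht))
  · intro n t ht
    exact (hFd n t (hsub1 t (hsubo t ht))).differentiableAt
  · intro n t ht
    exact hFd0 n t (hsub1 t (hsubo t ht))
  · intro η hη
    obtain ⟨N4, hN4⟩ := hθt (η * Kl) (mul_pos hη hKl0)
    refine ⟨N4, fun n hn t ht => ?_⟩
    show |F n t - t| < η
    rw [abs_of_pos (sub_pos.2 (hF1 n t (hsub1 t (hsubo t ht))))]
    refine (hF3 n t (hsubo t ht)).trans_lt ?_
    rw [div_lt_iff₀ hKl0]
    exact hN4 _ (hn.trans (Nat.le_add_left _ _))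
  · refine ⟨2 * M + C1 + C1 * Real.exp (1 + C1 * δ), fun n u hu v hv => ?_⟩
    have hu1 := hsubo u hu
    have hv1 := hsubo v hv
    have hu2 := hsub1 u hu1
    have hv2 := hsub1 v hv1
    show |Real.log (deriv (F n) u) - Real.log (deriv (F n) v)| ≤ _
    rw [hlog n u hu2, hlog n v hv2]
    have h3 := hlogU n _ (hyI n u hu2) _ (hyI n v hv2)
    have h4 := hlipk (k n) u (hsubI u hu2) v (hsubI v hv2)
    have h5 : 2 * M * |f^[k n] u - f^[k n] v| ≤ 2 * M * |u - v| :=
      mul_le_mul_of_nonneg_left h4 (by positivity)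
    have h6 := hL (k n) u hu2 v hv2
    have h7 := hL (k n) (F n u) (hF2 n u hu1) (F n v) (hF2 n v hv1)
    have h8 : |F n u - F n v| ≤ Real.exp (1 + C1 * δ) * |u - v| := by
      have := (convex_Icc c2 c1).norm_image_sub_le_of_norm_deriv_le (f := F n)
        (C := Real.exp (1 + C1 * δ)) (fun t ht => (hFd n t (hsub1 t ht)).differentiableAt)
        (fun t ht => by
          rw [Real.norm_eq_abs, abs_of_pos (hFd0 n t (hsub1 t ht)),
            ← Real.exp_log (hFd0 n t (hsub1 t ht))]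
          exact Real.exp_le_exp.2 (hlogX n t ht)) hv1 hu1
      simpa [Real.norm_eq_abs] using this
    have h9 : C1 * |F n u - F n v| ≤ C1 * (Real.exp (1 + C1 * δ) * |u - v|) :=
      mul_le_mul_of_nonneg_left h8 hC1
    have h10 : ∀ a b c a' b' c' : ℝ, |a + (b - c) - (a' + (b' - c'))| ≤
        |a - a'| + |b - b'| + |c - c'| := by
      intro a b c a' b' c'
      have : a + (b - c) - (a' + (b' - c')) = (a - a') + (b - b') + -(c - c') := by ring
      rw [this]
      have h1 := abs_add_le ((a - a') + (b - b')) (-(c - c'))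
      have h2 := abs_add_le (a - a') (b - b')
      rw [abs_neg] at h1
      linarith
    refine (h10 _ _ _ _ _ _).trans ?_
    nlinarith

end Pool.Agent.H50.GS
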