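/-
helper50, project GS, job GS-DENS: density lemma for near-identity maps.

STATEMENT. F n are maps on (α, β) as in `NearId` (move points to the right, tend uniformly to the
identity, log of the derivative is C-Lipschitz with C independent of n).  If E is measurable and
invariant under all F n on (α, β), then E or its complement is null in (α, β).

PROOF.
(1) One step. Fix n, F := F n, S := E or S := Eᶜ, s < t both in (α, β). F is strictly increasing on
(α, β) and F '' [s, t) = [F s, F t).  With c := F'(s) > 0 we have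
c·exp(-C(t-s)) ≤ F'(r) ≤ c·exp(C(t-s)) for r ∈ [s, t].  Hence F t - F s ≥ c·exp(-C(t-s))·(t-s) (mean
value theorem) and volume (S ∩ [F s, F t)) = volume (F '' (S ∩ [s, t))) ≤ c·exp(C(t-s))·volume (S ∩ [s, t))
(invariance: F r ∈ S ↔ r ∈ S; area formula `lintegral_image_eq_lintegral_abs_deriv_mul`, or Lipschitz).
So with ρ(s,t) := volume (S ∩ [s,t)) / (t-s):   ρ(F s, F t) ≤ exp(2C(t-s)) ρ(s,t).
(2) Iteration. Let x ∈ (α, β), x_i := F^i x, and suppose x_0 < x_1 < ... < x_{j+1} all lie in (α, β).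
Then ρ(x_j, x_{j+1}) ≤ exp(2C(x_j - x_0)) ρ(x_0, x_1) ≤ exp(2C(β-α)) ρ(x_0,x_1) (induction on j).
(3) Suppose volume ((α,β) ∩ E) > 0 and volume ((α,β) \ E) > 0. By the Lebesgue density theorem
(`Besicovitch.ae_tendsto_measure_inter_div` or `IsUnifLocDoublingMeasure...`) pick x ∈ (α,β) ∩ E with
volume (Eᶜ ∩ closedBall x r) / r → 0 (r → 0+) and y ∈ (α,β) \ E with volume (E ∩ closedBall y r) / r → 0.
x ≠ y. Case x < y. Take n large (all steps |F n t - t| < small on (α,β), smaller than β - y). Put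
x_i = F^i x. For fixed n the continuous function F t - t has a positive minimum on [x, y], so there is j
with x_j ≤ y < x_{j+1}, and x_{j+1} < β. With S = Eᶜ: ρ(x_0,x_1) ≤ volume (Eᶜ ∩ closedBall x (x_1-x_0))/(x_1-x_0)
is small (n large), so ρ_{Eᶜ}(x_j,x_{j+1}) is small. But y ∈ [x_j, x_{j+1}), hence
ρ_E(x_j,x_{j+1}) ≤ volume (E ∩ closedBall y (x_{j+1}-x_j))/(x_{j+1}-x_j) is small too; the sum of the two
is 1, a contradiction. Case y < x: the same with E and Eᶜ exchanged.
-/
import Pool.Agent.H50.GS.Defs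

set_option autoImplicit false
open Set Filter Topology MeasureTheory

namespace Pool.Agent.H50.GS

/-- the measure of `S` between `a` and `b` -/
noncomputable def mS (S : Set ℝ) (a b : ℝ) : ℝ := (volume (S ∩ Ico a b)).toReal

lemma mS_ne_top (S : Set ℝ) (a b : ℝ) : volume (S ∩ Ico a b) ≠ ⊤ :=
  ((measure_mono inter_subset_right).trans_lt (by simp [Real.volume_Ico])).ne

lemma mS_nonneg (S : Set ℝ) (a b : ℝ) : 0 ≤ mS S a b := ENNReal.toReal_nonneg

lemma mS_add {S : Set ℝ} (hS : MeasurableSet S) {a b : ℝ} (hab : a ≤ b) :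
    mS S a b + mS Sᶜ a b = b - a := by
  unfold mS
  rw [← ENNReal.toReal_add (mS_ne_top _ _ _) (mS_ne_top _ _ _)]
  have h : volume (S ∩ Ico a b) + volume (Sᶜ ∩ Ico a b) = volume (Ico a b) := by
    rw [inter_comm S, inter_comm Sᶜ, ← sdiff_eq]
    exact measure_inter_add_sdiff _ hS
  rw [h, Real.volume_Ico, ENNReal.toReal_ofReal (by linarith)]

/-- one step -/
lemma dens_step {α β C : ℝ} {G : ℝ → ℝ} (hC : 0 ≤ C)
    (hd : ∀ t ∈ Ioo α β, DifferentiableAt ℝ G t) (hpos : ∀ t ∈ Ioo α β, 0 < deriv G t)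
    (hlog : ∀ s ∈ Ioo α β, ∀ t ∈ Ioo α β,
      |Real.log (deriv G s) - Real.log (deriv G t)| ≤ C * |s - t|)
    {S : Set ℝ} (hS : MeasurableSet S) (hinv : ∀ t ∈ Ioo α β, (G t ∈ S ↔ t ∈ S))
    {s t : ℝ} (hs : s ∈ Ioo α β) (ht : t ∈ Ioo α β) (hst : s < t) :
    mS S (G s) (G t) * (t - s) ≤ Real.exp (2 * C * (t - s)) * mS S s t * (G t - G s) := by
  have hsub : Icc s t ⊆ Ioo α β := fun r hr => ⟨hs.1.trans_le hr.1, hr.2.trans_lt ht.2⟩
  have hcont : ContinuousOn G (Icc s t) := fun r hr =>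
    (hd r (hsub hr)).continuousAt.continuousWithinAt
  have hmono : StrictMonoOn G (Icc s t) := by
    apply strictMonoOn_of_deriv_pos (convex_Icc s t) hcont
    intro r hr
    rw [interior_Icc] at hr
    exact hpos r (hsub (Ioo_subset_Icc_self hr))
  set c := deriv G s with hc
  have hcpos : 0 < c := hpos s hs
  have hbound : ∀ r ∈ Icc s t, c * Real.exp (-(C * (t - s))) ≤ deriv G r ∧
      deriv G r ≤ c * Real.exp (C * (t - s)) := by
    intro r hr
    have h1 := hlog r (hsub hr) s hs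
    have h2 : |r - s| ≤ t - s := by
      rw [abs_of_nonneg (by linarith [hr.1])]
      linarith [hr.2]
    have h3 : |Real.log (deriv G r) - Real.log c| ≤ C * (t - s) :=
      h1.trans (mul_le_mul_of_nonneg_left h2 hC)
    rw [abs_le] at h3
    have hrpos := hpos r (hsub hr)
    have e1 : Real.exp (Real.log (deriv G r)) = deriv G r := Real.exp_log hrpos
    have e2 : Real.exp (Real.log c) = c := Real.exp_log hcpos
    constructor
    · have h4 : Real.exp (Real.log c + -(C * (t - s))) ≤ Real.exp (Real.log (deriv G r)) :=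
        Real.exp_le_exp.2 (by linarith [h3.1])
      rwa [Real.exp_add, e1, e2] at h4
    · have h4 : Real.exp (Real.log (deriv G r)) ≤ Real.exp (Real.log c + C * (t - s)) :=
        Real.exp_le_exp.2 (by linarith [h3.2])
      rwa [Real.exp_add, e1, e2] at h4
  -- lower bound for the length of the image
  obtain ⟨ξ, hξ, hξe⟩ := exists_deriv_eq_slope G hst hcont
    (fun r hr => (hd r (hsub (Ioo_subset_Icc_self hr))).differentiableWithinAt)
  have hlow : c * Real.exp (-(C * (t - s))) * (t - s) ≤ G t - G s := by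
    have h1 := (hbound ξ (Ioo_subset_Icc_self hξ)).1
    rw [hξe, le_div_iff₀ (by linarith)] at h1
    exact h1
  -- the image
  have himg : G '' (S ∩ Ico s t) = S ∩ Ico (G s) (G t) := by
    ext y
    constructor
    · rintro ⟨r, ⟨hrS, hr⟩, rfl⟩
      have hr' : r ∈ Icc s t := Ico_subset_Icc_self hr
      refine ⟨(hinv r (hsub hr')).2 hrS, ?_, ?_⟩
      · exact hmono.monotoneOn (left_mem_Icc.2 hst.le) hr' hr.1
      · exact hmono hr' (right_mem_Icc.2 hst.le) hr.2
    · rintro ⟨hyS, hy⟩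
      obtain ⟨r, hr, rfl⟩ := intermediate_value_Icc hst.le hcont ⟨hy.1, hy.2.le⟩
      have hrt : r ≠ t := by
        rintro rfl
        exact lt_irrefl _ hy.2
      exact ⟨r, ⟨(hinv r (hsub hr)).1 hyS, hr.1, lt_of_le_of_ne hr.2 hrt⟩, rfl⟩
  have hvol : volume (S ∩ Ico (G s) (G t)) ≤
      ENNReal.ofReal (c * Real.exp (C * (t - s))) * volume (S ∩ Ico s t) := by
    rw [← himg]
    have hmeas : MeasurableSet (S ∩ Ico s t) := hS.inter measurableSet_Ico
    have hsub' : S ∩ Ico s t ⊆ Icc s t := inter_subset_right.trans Ico_subset_Icc_self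
    have h1 := lintegral_image_eq_lintegral_abs_deriv_mul (f := G) (f' := deriv G) hmeas
      (fun r hr => (hd r (hsub (hsub' hr))).hasDerivAt.hasDerivWithinAt)
      (hmono.injOn.mono hsub') (fun _ => 1)
    simp only [lintegral_const, MeasurableSet.univ, Measure.restrict_apply, univ_inter, one_mul,
      mul_one] at h1
    rw [h1]
    calc ∫⁻ r in S ∩ Ico s t, ENNReal.ofReal |deriv G r|
        ≤ ∫⁻ _r in S ∩ Ico s t, ENNReal.ofReal (c * Real.exp (C * (t - s))) := by
          apply setLIntegral_mono measurable_const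
          intro r hr
          have hrI := hsub' hr
          rw [abs_of_pos (hpos r (hsub hrI))]
          exact ENNReal.ofReal_le_ofReal (hbound r hrI).2
      _ = _ := by
        rw [lintegral_const, Measure.restrict_apply MeasurableSet.univ, univ_inter]
  have hvol' : mS S (G s) (G t) ≤ c * Real.exp (C * (t - s)) * mS S s t := by
    unfold mS
    have h2 := ENNReal.toReal_mono (ENNReal.mul_ne_top ENNReal.ofReal_ne_top (mS_ne_top S s t)) hvol
    rw [ENNReal.toReal_mul, ENNReal.toReal_ofReal (by positivity)] at h2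
    exact h2
  have hts : 0 < t - s := by linarith
  have e3 : Real.exp (C * (t - s)) = Real.exp (2 * C * (t - s)) * Real.exp (-(C * (t - s))) := by
    rw [← Real.exp_add]
    congr 1
    ring
  calc mS S (G s) (G t) * (t - s) ≤ c * Real.exp (C * (t - s)) * mS S s t * (t - s) :=
        mul_le_mul_of_nonneg_right hvol' hts.le
    _ = Real.exp (2 * C * (t - s)) * mS S s t * (c * Real.exp (-(C * (t - s))) * (t - s)) := by
        rw [e3]; ring
    _ ≤ Real.exp (2 * C * (t - s)) * mS S s t * (G t - G s) := by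
        apply mul_le_mul_of_nonneg_left hlow
        exact mul_nonneg (Real.exp_pos _).le (mS_nonneg _ _ _)

/-- iteration -/
lemma dens_iter {α β C : ℝ} {G : ℝ → ℝ} (hC : 0 ≤ C) (hlt : ∀ t ∈ Ioo α β, t < G t)
    (hd : ∀ t ∈ Ioo α β, DifferentiableAt ℝ G t) (hpos : ∀ t ∈ Ioo α β, 0 < deriv G t)
    (hlog : ∀ s ∈ Ioo α β, ∀ t ∈ Ioo α β,
      |Real.log (deriv G s) - Real.log (deriv G t)| ≤ C * |s - t|)
    {S : Set ℝ} (hS : MeasurableSet S) (hinv : ∀ t ∈ Ioo α β, (G t ∈ S ↔ t ∈ S))
    (x : ℕ → ℝ) (hx : ∀ i, x (i + 1) = G (x i)) (j : ℕ) (hj : ∀ i ≤ j + 1, x i ∈ Ioo α β) :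
    mS S (x j) (x (j + 1)) * (x 1 - x 0) ≤
      Real.exp (2 * C * (x j - x 0)) * mS S (x 0) (x 1) * (x (j + 1) - x j) := by
  induction j with
  | zero =>
    rw [sub_self, mul_zero, Real.exp_zero, one_mul]
  | succ j ih =>
    have ih' := ih fun i hi => hj i (by omega)
    have h0 := hj 0 (by omega)
    have h1 := hj j (by omega)
    have h2 := hj (j + 1) (by omega)
    have hstep : ∀ i ≤ j + 1, x i < x (i + 1) := fun i hi => by
      rw [hx i]
      exact hlt _ (hj i (by omega))
    have h3 := dens_step hC hd hpos hlog hS hinv h1 h2 (hstep j (by omega))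
    rw [← hx j, ← hx (j + 1)] at h3
    have d0 : 0 < x 1 - x 0 := by linarith [hstep 0 (by omega)]
    have d1 : 0 < x (j + 1) - x j := by linarith [hstep j (by omega)]
    have d2 : 0 < x (j + 1 + 1) - x (j + 1) := by linarith [hstep (j + 1) le_rfl]
    have e1 : Real.exp (2 * C * (x (j + 1) - x 0)) =
        Real.exp (2 * C * (x (j + 1) - x j)) * Real.exp (2 * C * (x j - x 0)) := by
      rw [← Real.exp_add]
      congr 1
      ring
    have key : (mS S (x (j + 1)) (x (j + 1 + 1)) * (x 1 - x 0)) * (x (j + 1) - x j) ≤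
        (Real.exp (2 * C * (x (j + 1) - x 0)) * mS S (x 0) (x 1) *
          (x (j + 1 + 1) - x (j + 1))) * (x (j + 1) - x j) := by
      calc (mS S (x (j + 1)) (x (j + 1 + 1)) * (x 1 - x 0)) * (x (j + 1) - x j)
          = (mS S (x (j + 1)) (x (j + 1 + 1)) * (x (j + 1) - x j)) * (x 1 - x 0) := by ring
        _ ≤ (Real.exp (2 * C * (x (j + 1) - x j)) * mS S (x j) (x (j + 1)) *
            (x (j + 1 + 1) - x (j + 1))) * (x 1 - x 0) := mul_le_mul_of_nonneg_right h3 d0.le
        _ = (Real.exp (2 * C * (x (j + 1) - x j)) * (x (j + 1 + 1) - x (j + 1))) *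
            (mS S (x j) (x (j + 1)) * (x 1 - x 0)) := by ring
        _ ≤ (Real.exp (2 * C * (x (j + 1) - x j)) * (x (j + 1 + 1) - x (j + 1))) *
            (Real.exp (2 * C * (x j - x 0)) * mS S (x 0) (x 1) * (x (j + 1) - x j)) := by
              apply mul_le_mul_of_nonneg_left ih'
              positivity
        _ = _ := by rw [e1]; ring
    exact le_of_mul_le_mul_right key d1

/-- a density point of `Sᶜ` to the left of a density point of `S` is impossible -/
lemma dens_false {α β : ℝ} {F : ℕ → ℝ → ℝ} (hF : NearId α β F)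
    {S : Set ℝ} (hS : MeasurableSet S) (hinv : ∀ n, ∀ t ∈ Ioo α β, (F n t ∈ S ↔ t ∈ S))
    {x y : ℝ} (hx : x ∈ Ioo α β) (hy : y ∈ Ioo α β) (hxy : x < y)
    (h1 : Tendsto (fun r => volume (S ∩ Metric.closedBall x r) / volume (Metric.closedBall x r))
      (𝓝[>] 0) (𝓝 0))
    (h2 : Tendsto (fun r => volume (Sᶜ ∩ Metric.closedBall y r) / volume (Metric.closedBall y r))
      (𝓝[>] 0) (𝓝 0)) : False := by
  obtain ⟨hlt, hd, hpos, hunif, C0, hlog0⟩ := hF
  set C := max C0 0 with hCdef
  have hC : 0 ≤ C := le_max_right _ _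
  have hlog : ∀ n, ∀ s ∈ Ioo α β, ∀ t ∈ Ioo α β,
      |Real.log (deriv (F n) s) - Real.log (deriv (F n) t)| ≤ C * |s - t| := fun n s hs t ht =>
    (hlog0 n s hs t ht).trans (mul_le_mul_of_nonneg_right (le_max_left _ _) (abs_nonneg _))
  set K := Real.exp (2 * C * (β - α)) with hK
  have hKpos : 0 < K := Real.exp_pos _
  set ε := 1 / (4 * (K + 1)) with hε
  have hεpos : 0 < ε := by positivity
  -- small balls
  have small : ∀ (A : Set ℝ) (z : ℝ), Tendsto (fun r => volume (A ∩ Metric.closedBall z r) /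
      volume (Metric.closedBall z r)) (𝓝[>] 0) (𝓝 0) →
      ∃ δ > 0, ∀ r, 0 < r → r < δ → ∀ a b, Ico a b ⊆ Metric.closedBall z r →
        mS A a b ≤ ε * (2 * r) := by
    intro A z hA
    have hev : ∀ᶠ r in 𝓝[>] (0 : ℝ), volume (A ∩ Metric.closedBall z r) /
        volume (Metric.closedBall z r) < ENNReal.ofReal ε :=
      hA.eventually (Iio_mem_nhds (ENNReal.ofReal_pos.2 hεpos))
    rw [eventually_nhdsWithin_iff, Metric.eventually_nhds_iff] at hev
    obtain ⟨δ, hδ, hev⟩ := hev
    refine ⟨δ, hδ, fun r hr hrδ a b hab => ?_⟩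
    have h3 := hev (y := r) (by rw [Real.dist_eq, sub_zero, abs_of_pos hr]; exact hrδ) hr
    rw [Real.volume_closedBall, ENNReal.div_lt_iff
      (Or.inl (by simp [hr])) (Or.inl ENNReal.ofReal_ne_top),
      ← ENNReal.ofReal_mul hεpos.le] at h3
    have h4 : volume (A ∩ Ico a b) ≤ ENNReal.ofReal (ε * (2 * r)) :=
      (measure_mono (inter_subset_inter_right _ hab)).trans h3.le
    unfold mS
    exact ENNReal.toReal_le_of_le_ofReal (by positivity) h4
  obtain ⟨δ1, hδ1, hs1⟩ := small S x h1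
  obtain ⟨δ2, hδ2, hs2⟩ := small Sᶜ y h2
  set η := min (min δ1 δ2) (β - y) with hη
  have hηpos : 0 < η := lt_min (lt_min hδ1 hδ2) (by linarith [hy.2])
  obtain ⟨n, hn⟩ := hunif η hηpos
  have hn' := hn n le_rfl
  set G := F n with hG
  set z : ℕ → ℝ := fun i => G^[i] x with hz
  have hz0 : z 0 = x := rfl
  have hzs : ∀ i, z (i + 1) = G (z i) := fun i => Function.iterate_succ_apply' G i x
  -- the orbit leaves `[x, y]`
  have hsubI : Icc x y ⊆ Ioo α β := fun r hr => ⟨hx.1.trans_le hr.1, hr.2.trans_lt hy.2⟩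
  have hcont : ContinuousOn (fun t => G t - t) (Icc x y) := fun r hr =>
    ((hd n r (hsubI hr)).continuousAt.sub continuousAt_id).continuousWithinAt
  obtain ⟨r0, hr0, hmin⟩ := isCompact_Icc.exists_isMinOn (nonempty_Icc.2 hxy.le) hcont
  set μ := G r0 - r0 with hμ
  have hμpos : 0 < μ := by
    have := hlt n r0 (hsubI hr0)
    rw [hμ]
    linarith
  have hμle : ∀ t ∈ Icc x y, μ ≤ G t - t := fun t ht => hmin ht
  have hex : ∃ i, y < z i := by
    by_contra hcon
    push Not at hcon
    have hlow : ∀ i : ℕ, x + i * μ ≤ z i := by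
      intro i
      induction i with
      | zero => simp [hz0]
      | succ i ih =>
        have h5 : z i ∈ Icc x y := ⟨le_trans (by nlinarith [Nat.cast_nonneg (α := ℝ) i]) ih, hcon i⟩
        have h6 := hμle _ h5
        rw [hzs i]
        push_cast
        linarith
    obtain ⟨i, hi⟩ := exists_nat_gt ((y - x) / μ)
    rw [div_lt_iff₀ hμpos] at hi
    have := hlow i
    have := hcon i
    linarith
  classical
  set J := Nat.find hex with hJ
  have hJ1 : y < z J := Nat.find_spec hex
  have hJ0 : J ≠ 0 := by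
    intro h0
    rw [h0, hz0] at hJ1
    linarith
  obtain ⟨j, hj⟩ := Nat.exists_eq_succ_of_ne_zero hJ0
  have hle : ∀ i ≤ j, z i ≤ y := fun i hi => by
    have := Nat.find_min hex (m := i) (by rw [← hJ, hj]; omega)
    exact not_lt.1 this
  have hge : ∀ i ≤ j, x ≤ z i := by
    intro i
    induction i with
    | zero => intro _; exact le_rfl
    | succ i ih =>
      intro hi
      have h5 := ih (by omega)
      have h6 := hlt n (z i) (hsubI ⟨h5, hle i (by omega)⟩)
      rw [hzs i]
      linarith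
  have hmemI : ∀ i ≤ j, z i ∈ Ioo α β := fun i hi => hsubI ⟨hge i hi, hle i hi⟩
  have hstep : ∀ i ≤ j, 0 < z (i + 1) - z i ∧ z (i + 1) - z i < η := by
    intro i hi
    have h5 : z i < G (z i) := hlt n (z i) (hmemI i hi)
    have h6 := hn' (z i) (hmemI i hi)
    rw [← hzs i] at h5 h6
    rw [abs_of_pos (by linarith)] at h6
    exact ⟨by linarith, h6⟩
  have hjlast : z (j + 1) < β := by
    have := (hstep j le_rfl).2
    have := hle j le_rfl
    have : η ≤ β - y := min_le_right _ _
    linarith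
  rw [hj] at hJ1
  have hmem' : ∀ i ≤ j + 1, z i ∈ Ioo α β := by
    intro i hi
    rcases Nat.lt_or_ge i (j + 1) with h5 | h5
    · exact hmemI i (by omega)
    · have : i = j + 1 := by omega
      subst this
      exact ⟨by linarith [hy.1], hjlast⟩
  have hiter := dens_iter hC (hlt n) (hd n) (hpos n) (hlog n) hS (hinv n) z hzs j hmem'
  have hd0 := hstep 0 (by omega)
  have hdj := hstep j le_rfl
  have hη1 : η ≤ δ1 := (min_le_left _ _).trans (min_le_left _ _)
  have hη2 : η ≤ δ2 := (min_le_left _ _).trans (min_le_right _ _)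
  rw [zero_add] at hd0
  have b1 : mS S (z 0) (z 1) ≤ ε * (2 * (z 1 - z 0)) := by
    apply hs1 _ hd0.1 (lt_of_lt_of_le hd0.2 hη1)
    intro r hr
    rw [Metric.mem_closedBall, Real.dist_eq, abs_of_nonneg (by rw [hz0] at hr; linarith [hr.1])]
    rw [hz0] at hr ⊢
    linarith [hr.2]
  have b2 : mS Sᶜ (z j) (z (j + 1)) ≤ ε * (2 * (z (j + 1) - z j)) := by
    apply hs2 _ hdj.1 (lt_of_lt_of_le hdj.2 hη2)
    intro r hr
    have := hle j le_rfl
    rw [Metric.mem_closedBall, Real.dist_eq, abs_le]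
    constructor <;> linarith [hr.1, hr.2]
  have hKle : Real.exp (2 * C * (z j - z 0)) ≤ K := by
    rw [hK]
    apply Real.exp_le_exp.2
    have h5 : z j - z 0 ≤ β - α := by linarith [(hmemI j le_rfl).2, hx.1]
    exact mul_le_mul_of_nonneg_left h5 (by positivity)
  have b3 : mS S (z j) (z (j + 1)) ≤ K * (ε * 2) * (z (j + 1) - z j) := by
    have h5 : mS S (z j) (z (j + 1)) * (z 1 - z 0) ≤
        (K * (ε * 2) * (z (j + 1) - z j)) * (z 1 - z 0) := by
      calc mS S (z j) (z (j + 1)) * (z 1 - z 0)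
          ≤ Real.exp (2 * C * (z j - z 0)) * mS S (z 0) (z 1) * (z (j + 1) - z j) := hiter
        _ ≤ K * (ε * (2 * (z 1 - z 0))) * (z (j + 1) - z j) := by
            apply mul_le_mul_of_nonneg_right _ hdj.1.le
            exact mul_le_mul hKle b1 (mS_nonneg _ _ _) hKpos.le
        _ = _ := by ring
    exact le_of_mul_le_mul_right h5 hd0.1
  have b4 := mS_add hS (a := z j) (b := z (j + 1)) (by linarith [hdj.1])
  have b5 : (z (j + 1) - z j) ≤ (2 * ε * (K + 1)) * (z (j + 1) - z j) := by nlinarith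
  have b6 : 2 * ε * (K + 1) = 1 / 2 := by
    rw [hε]
    field_simp
    norm_num
  rw [b6] at b5
  linarith [hdj.1]

theorem nearId_density {α β : ℝ} {F : ℕ → ℝ → ℝ} (hF : NearId α β F)
    {E : Set ℝ} (hE : MeasurableSet E) (hinv : ∀ n, ∀ t ∈ Ioo α β, (F n t ∈ E ↔ t ∈ E)) :
    volume (Ioo α β ∩ E) = 0 ∨ volume (Ioo α β \ E) = 0 := by
  by_contra hcon
  push Not at hcon
  obtain ⟨c1, c2⟩ := hcon
  have a1 := Besicovitch.ae_tendsto_measure_inter_div_of_measurableSet (volume : Measure ℝ) hE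
  have a2 := Besicovitch.ae_tendsto_measure_inter_div_of_measurableSet (volume : Measure ℝ) hE.compl
  have pick : ∀ A : Set ℝ, volume A ≠ 0 → ∃ x ∈ A,
      Tendsto (fun r => volume (E ∩ Metric.closedBall x r) / volume (Metric.closedBall x r))
        (𝓝[>] 0) (𝓝 (E.indicator 1 x)) ∧
      Tendsto (fun r => volume (Eᶜ ∩ Metric.closedBall x r) / volume (Metric.closedBall x r))
        (𝓝[>] 0) (𝓝 (Eᶜ.indicator 1 x)) := by
    intro A hA
    by_contra hno
    push Not at hno
    apply hA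
    refine measure_mono_null ?_ (ae_iff.1 (a1.and a2))
    intro x hx
    rw [mem_ofPred_eq]
    rintro ⟨h1, h2⟩
    exact hno x hx h1 h2
  obtain ⟨x, hx, hx1, hx2⟩ := pick _ c1
  obtain ⟨y, hy, hy1, hy2⟩ := pick _ c2
  have hxE : x ∈ E := hx.2
  have hyE : y ∉ E := hy.2
  rw [indicator_of_notMem (by simpa using hxE)] at hx2
  rw [indicator_of_notMem hyE] at hy1
  have hinvc : ∀ n, ∀ t ∈ Ioo α β, (F n t ∈ Eᶜ ↔ t ∈ Eᶜ) := fun n t ht => by
    rw [mem_compl_iff, mem_compl_iff, hinv n t ht]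
  rcases lt_trichotomy x y with h | h | h
  · refine dens_false hF hE.compl hinvc hx.1 hy.1 h hx2 ?_
    rw [compl_compl]
    exact hy1
  · exact hyE (h ▸ hxE)
  · exact dens_false hF hE hinv hy.1 hx.1 h hy1 hx2

end Pool.Agent.H50.GS
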