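/-
helper50, project GS, job GS-TRANS: a locally null invariant set of a minimal group is null.

PROOF. Let W be the set of z : Circle such that there are a < b and t ∈ (a,b) with exp t = z and
volume (Ioo a b ∩ exp⁻¹' A) = 0.  W is open (Circle.exp is an open map / local homeomorphism: the image of
Ioo a b is a neighbourhood of z).  W is invariant: let g ∈ G, u a lift (`IsLift g u`), z = exp t ∈ W as above.
u is continuous with nowhere zero derivative, so strictly monotone or strictly antitone, and u '' Ioo a b is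
the open interval with end points u a, u b; and (u '' Ioo a b) ∩ exp⁻¹' A = u '' (Ioo a b ∩ exp⁻¹' A) because
exp (u r) = g (exp r) and g⁻¹' A = A; this is a null set because u is C¹ (image of a null set under a
differentiable map, `MeasureTheory.addHaar_image_eq_zero_of_differentiableOn_of_addHaar_eq_zero`).  So
g z ∈ W. Since this holds for all g ∈ G (a group), g⁻¹' W = W.  Hence C := Wᶜ is closed and invariant;
C ≠ univ because W is nonempty (contains exp of the midpoint of (α,β)); so C = ∅, W = univ.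
Therefore every real t has a neighbourhood V with volume (V ∩ exp⁻¹' A) = 0 (translate by a multiple of 2π:
exp t = exp t', t - t' ∈ 2πℤ, translations preserve exp⁻¹' A and volume).  By
`MeasureTheory.measure_null_of_locally_null` the set exp⁻¹' A is null.
-/
import Pool.Agent.H50.GS.Defs

set_option autoImplicit false
open Set Filter Topology MeasureTheory

namespace Pool.Agent.H50.GS

theorem trans_W_inv {G : Subgroup (Circle ≃ₜ Circle)} (hC : C2Group G)
    {A : Set Circle} (hinv : ∀ g ∈ G, ⇑g ⁻¹' A = A) {g : Circle ≃ₜ Circle} (hg : g ∈ G) {t : ℝ}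
    {U : Set ℝ} (hU : U ∈ 𝓝 t) (h0 : volume (U ∩ ⇑Circle.exp ⁻¹' A) = 0) :
    ∃ s : ℝ, Circle.exp s = g (Circle.exp t) ∧
      ∃ V ∈ 𝓝 s, volume (V ∩ ⇑Circle.exp ⁻¹' A) = 0 := by
  obtain ⟨u, hu1, hu2, hu3⟩ := hC g hg
  refine ⟨u t, hu3 t, u '' U, ?_, ?_⟩
  · have h1 : HasStrictDerivAt u (deriv u t) t := by
      apply ContDiffAt.hasStrictDerivAt (n := 2) hu1.contDiffAt (by norm_num)
    rw [← h1.map_nhds_eq (hu2 t)]
    exact image_mem_map hU
  · have hsub : u '' U ∩ ⇑Circle.exp ⁻¹' A ⊆ u '' (U ∩ ⇑Circle.exp ⁻¹' A) := by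
      rintro _ ⟨⟨s, hs, rfl⟩, hsA⟩
      refine ⟨s, ⟨hs, ?_⟩, rfl⟩
      have h1 : g (Circle.exp s) ∈ A := by rw [← hu3 s]; exact hsA
      have h2 : Circle.exp s ∈ ⇑g ⁻¹' A := h1
      rwa [hinv g hg] at h2
    refine measure_mono_null hsub ?_
    exact addHaar_image_eq_zero_of_differentiableOn_of_addHaar_eq_zero volume
      ((hu1.differentiable (by norm_num)).differentiableOn) h0

theorem null_of_null_on {G : Subgroup (Circle ≃ₜ Circle)} (hC : C2Group G) (hm : Minimal G)
    {A : Set Circle} (hinv : ∀ g ∈ G, ⇑g ⁻¹' A = A) {α β : ℝ} (hαβ : α < β)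
    (h0 : volume (Ioo α β ∩ ⇑Circle.exp ⁻¹' A) = 0) : volume (⇑Circle.exp ⁻¹' A) = 0 := by
  set W : Set Circle := {z | ∃ t : ℝ, Circle.exp t = z ∧
    ∃ U ∈ 𝓝 t, volume (U ∩ ⇑Circle.exp ⁻¹' A) = 0} with hW
  have hWopen : IsOpen W := by
    rw [isOpen_iff_mem_nhds]
    rintro z ⟨t, rfl, U, hU, hU0⟩
    obtain ⟨V, hVU, hVo, htV⟩ := mem_nhds_iff.1 hU
    have h1 : ⇑Circle.exp '' V ∈ 𝓝 (Circle.exp t) :=
      (isLocalHomeomorph_circleExp.isOpenMap V hVo).mem_nhds ⟨t, htV, rfl⟩
    refine mem_of_superset h1 ?_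
    rintro _ ⟨s, hs, rfl⟩
    exact ⟨s, rfl, V, hVo.mem_nhds hs, measure_mono_null (inter_subset_inter_left _ hVU) hU0⟩
  have hWfwd : ∀ g ∈ G, ∀ z ∈ W, g z ∈ W := by
    rintro g hg z ⟨t, rfl, U, hU, hU0⟩
    exact trans_W_inv hC hinv hg hU hU0
  have hWinv : ∀ g ∈ G, ⇑g ⁻¹' Wᶜ = Wᶜ := by
    intro g hg
    ext z
    simp only [mem_preimage, mem_compl_iff, not_iff_not]
    constructor
    · intro h
      have h1 := hWfwd g⁻¹ (G.inv_mem hg) _ h
      have h2 : g⁻¹ (g z) = z := by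
        show (g⁻¹ * g) z = z
        rw [inv_mul_cancel]
        rfl
      rwa [h2] at h1
    · exact hWfwd g hg z
  have hWne : W.Nonempty :=
    ⟨Circle.exp ((α + β) / 2), (α + β) / 2, rfl, Ioo α β,
      Ioo_mem_nhds (by linarith) (by linarith), h0⟩
  have hall : W = univ := by
    rcases hm Wᶜ hWopen.isClosed_compl hWinv with h | h
    · rwa [compl_empty_iff] at h
    · rw [compl_univ_iff] at h
      rw [h] at hWne
      exact absurd hWne not_nonempty_empty
  apply measure_null_of_locally_null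
  intro t _
  have ht : Circle.exp t ∈ W := by rw [hall]; exact mem_univ _
  obtain ⟨t', ht', U, hU, hU0⟩ := ht
  obtain ⟨m, hm'⟩ := Circle.exp_eq_exp.1 ht'
  have htend : Tendsto (fun x : ℝ => x + (m * (2 * Real.pi))) (𝓝 t) (𝓝 t') := by
    rw [hm']
    exact tendsto_id.add_const _
  refine ⟨(fun x : ℝ => x + (m * (2 * Real.pi))) ⁻¹' U ∩ ⇑Circle.exp ⁻¹' A,
    ?_, ?_⟩
  · rw [inter_comm]
    exact inter_mem_nhdsWithin _ (htend hU)
  · have h1 : (fun x : ℝ => x + (m * (2 * Real.pi))) ⁻¹' U ∩ ⇑Circle.exp ⁻¹' A =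
        (fun x : ℝ => x + (m * (2 * Real.pi))) ⁻¹' (U ∩ ⇑Circle.exp ⁻¹' A) := by
      ext x
      have h2 : Circle.exp (x + m * (2 * Real.pi)) = Circle.exp x :=
        Circle.exp_eq_exp.2 ⟨m, rfl⟩
      simp only [mem_inter_iff, mem_preimage, h2]
    rw [h1, measure_preimage_add_right]
    exact hU0

/-- orbits of a minimal group are dense: some element of `G` maps `exp p` into `exp '' (α, β)`. -/
theorem exists_lift_mem {G : Subgroup (Circle ≃ₜ Circle)} (hC : C2Group G) (hm : Minimal G)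
    (p : ℝ) {α β : ℝ} (hαβ : α < β) : ∃ g ∈ G, ∃ v, IsLift g v ∧ v p ∈ Ioo α β := by
  -- C := closure of the orbit {g (exp p) : g ∈ G} is closed, invariant, nonempty, so = univ; the open set
  -- exp '' Ioo α β meets the orbit: g (exp p) = exp s with s ∈ Ioo α β; take a lift v of g,
  -- exp (v p) = exp s, v p = s + 2π k, and replace v by v - 2π k.
  set O : Set Circle := {z | ∃ g ∈ G, g (Circle.exp p) = z} with hO
  have hOinv : ∀ g ∈ G, ⇑g ⁻¹' O = O := by
    intro g hg
    ext z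
    constructor
    · rintro ⟨h, hh, hz⟩
      refine ⟨g⁻¹ * h, G.mul_mem (G.inv_mem hg) hh, ?_⟩
      show g⁻¹ (h (Circle.exp p)) = z
      rw [hz]
      show (g⁻¹ * g) z = z
      rw [inv_mul_cancel]
      rfl
    · rintro ⟨h, hh, rfl⟩
      exact ⟨g * h, G.mul_mem hg hh, rfl⟩
  have hcl : closure O = univ := by
    rcases hm (closure O) isClosed_closure (fun g hg => by
      rw [Homeomorph.preimage_closure, hOinv g hg]) with h | h
    · have : O.Nonempty := ⟨Circle.exp p, 1, G.one_mem, rfl⟩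
      rw [closure_empty_iff] at h
      rw [h] at this
      exact absurd this not_nonempty_empty
    · exact h
  have hop : IsOpen (⇑Circle.exp '' Ioo α β) := isLocalHomeomorph_circleExp.isOpenMap _ isOpen_Ioo
  have hne : (⇑Circle.exp '' Ioo α β).Nonempty := (nonempty_Ioo.2 hαβ).image _
  obtain ⟨z, hzo, hzO⟩ := (dense_iff_closure_eq.2 hcl).inter_open_nonempty _ hop hne
  obtain ⟨s, hs, hsz⟩ := hzo
  obtain ⟨g, hg, hgz⟩ := hzO
  obtain ⟨v, hv1, hv2, hv3⟩ := hC g hg
  have h1 : Circle.exp (v p) = Circle.exp s := by rw [hv3, hgz, hsz]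
  obtain ⟨m, hm'⟩ := Circle.exp_eq_exp.1 h1
  refine ⟨g, hg, fun t => v t - m * (2 * Real.pi), ⟨hv1.sub contDiff_const, ?_, ?_⟩, ?_⟩
  · intro t
    rw [deriv_sub_const]
    exact hv2 t
  · intro t
    rw [← hv3 t]
    exact Circle.exp_eq_exp.2 ⟨-m, by push_cast; ring⟩
  · show v p - m * (2 * Real.pi) ∈ Ioo α β
    rw [hm']
    simpa using hs

end Pool.Agent.H50.GS
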