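/-
helper50, project GS, job GS-GLOBB: near-identity local lifts of elements of G force ergodicity
(right-moving and left-moving version).

PROOF. Let A be invariant with exp⁻¹' A measurable, E := exp⁻¹' A. For t ∈ (α,β), n: F n t ∈ E ↔
exp (F n t) ∈ A ↔ g (exp t) ∈ A ↔ exp t ∈ A (g⁻¹' A = A) ↔ t ∈ E. So `nearId_density` gives
volume (Ioo α β ∩ E) = 0 or volume (Ioo α β \ E) = 0, and `null_of_null_on` applied to A or to Aᶜ
(exp⁻¹' Aᶜ = Eᶜ, Aᶜ invariant) gives volume E = 0 or volume (exp⁻¹' Aᶜ) = 0.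
LEFT VERSION: hypothesis NearId (-β) (-α) (fun n t => - F n (-t)), i.e. the reflected maps move to the right.
Apply `nearId_density` to the reflected maps and E' := {t | -t ∈ E} (measurable; volume is invariant under
t ↦ -t, `Measure.measurePreserving_neg` / `measure_preimage_neg`).
-/
import Pool.Agent.H50.GS.Dens
import Pool.Agent.H50.GS.Trans

set_option autoImplicit false
open Set Filter Topology MeasureTheory

namespace Pool.Agent.H50.GS

theorem GlobB_fin {G : Subgroup (Circle ≃ₜ Circle)} (hC : C2Group G) (hm : Minimal G)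
    {α β : ℝ} (hαβ : α < β) {A : Set Circle} (hinv : ∀ g ∈ G, ⇑g ⁻¹' A = A)
    (h : volume (Ioo α β ∩ ⇑Circle.exp ⁻¹' A) = 0 ∨ volume (Ioo α β \ ⇑Circle.exp ⁻¹' A) = 0) :
    volume (⇑Circle.exp ⁻¹' A) = 0 ∨ volume (⇑Circle.exp ⁻¹' Aᶜ) = 0 := by
  rcases h with h | h
  · exact Or.inl (null_of_null_on hC hm hinv hαβ h)
  · refine Or.inr (null_of_null_on hC hm (fun g hg => ?_) hαβ ?_)
    · rw [preimage_compl, hinv g hg]
    · rw [preimage_compl]
      exact h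

theorem GlobB_inv {G : Subgroup (Circle ≃ₜ Circle)} {α β : ℝ} {F : ℕ → ℝ → ℝ}
    (hG : ∀ n, ∃ g ∈ G, ∀ t ∈ Ioo α β, Circle.exp (F n t) = g (Circle.exp t))
    {A : Set Circle} (hinv : ∀ g ∈ G, ⇑g ⁻¹' A = A) (n : ℕ) (t : ℝ) (ht : t ∈ Ioo α β) :
    F n t ∈ ⇑Circle.exp ⁻¹' A ↔ t ∈ ⇑Circle.exp ⁻¹' A := by
  obtain ⟨g, hg, h⟩ := hG n
  have h1 := hinv g hg
  have h2 : g (Circle.exp t) ∈ A ↔ Circle.exp t ∈ A := by
    constructor
    · intro h3
      rw [← h1]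
      exact h3
    · intro h3
      rw [← h1] at h3
      exact h3
  rw [mem_preimage, mem_preimage, h t ht, h2]

theorem globB {G : Subgroup (Circle ≃ₜ Circle)} (hC : C2Group G) (hm : Minimal G)
    {α β : ℝ} (hαβ : α < β) {F : ℕ → ℝ → ℝ} (hF : NearId α β F)
    (hG : ∀ n, ∃ g ∈ G, ∀ t ∈ Ioo α β, Circle.exp (F n t) = g (Circle.exp t)) : LebErgodic G := by
  intro A hA hinv
  exact GlobB_fin hC hm hαβ hinv (nearId_density hF hA fun n t ht => GlobB_inv hG hinv n t ht)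

theorem globB_left {G : Subgroup (Circle ≃ₜ Circle)} (hC : C2Group G) (hm : Minimal G)
    {α β : ℝ} (hαβ : α < β) {F : ℕ → ℝ → ℝ} (hF : NearId (-β) (-α) (fun n t => - F n (-t)))
    (hG : ∀ n, ∃ g ∈ G, ∀ t ∈ Ioo α β, Circle.exp (F n t) = g (Circle.exp t)) : LebErgodic G := by
  intro A hA hinv
  have hE' : MeasurableSet {t : ℝ | -t ∈ ⇑Circle.exp ⁻¹' A} := measurable_neg hA
  have h1 := nearId_density hF hE' (fun n t ht => by
    have ht' : -t ∈ Ioo α β := ⟨by linarith [ht.2], by linarith [ht.1]⟩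
    have h2 := GlobB_inv hG hinv n (-t) ht'
    change - - F n (-t) ∈ ⇑Circle.exp ⁻¹' A ↔ -t ∈ ⇑Circle.exp ⁻¹' A
    rw [neg_neg]
    exact h2)
  refine GlobB_fin hC hm hαβ hinv ?_
  have h3 : Ioo (-β) (-α) ∩ {t : ℝ | -t ∈ ⇑Circle.exp ⁻¹' A}
      = Neg.neg ⁻¹' (Ioo α β ∩ ⇑Circle.exp ⁻¹' A) := by
    ext t
    simp only [mem_inter_iff, mem_Ioo, mem_preimage]
    constructor
    · rintro ⟨⟨a, b⟩, c⟩
      exact ⟨⟨by linarith, by linarith⟩, c⟩
    · rintro ⟨⟨a, b⟩, c⟩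
      exact ⟨⟨by linarith, by linarith⟩, c⟩
  have h4 : Ioo (-β) (-α) \ {t : ℝ | -t ∈ ⇑Circle.exp ⁻¹' A}
      = Neg.neg ⁻¹' (Ioo α β \ ⇑Circle.exp ⁻¹' A) := by
    ext t
    simp only [Set.mem_sdiff, mem_Ioo, mem_preimage]
    constructor
    · rintro ⟨⟨a, b⟩, c⟩
      exact ⟨⟨by linarith, by linarith⟩, c⟩
    · rintro ⟨⟨a, b⟩, c⟩
      exact ⟨⟨by linarith, by linarith⟩, c⟩
  rw [h3, h4, Measure.measure_preimage_neg, Measure.measure_preimage_neg] at h1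
  exact h1

end Pool.Agent.H50.GS
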