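/-
helper50, project GS, job GS-LIFTS: elementary facts on lifts fixing p.

exists_fixLift: take u with IsLift g u, u' > 0. exp (u p) = g (exp p) = exp p, so u p = p + 2π k
(`Circle.exp_eq_exp`), and u - 2π k works.
unique: w := u - v is continuous and exp (u t) = exp (v t), so w t ∈ 2πℤ for all t; a continuous function
with values in the discrete set 2πℤ is constant (e.g. w/(2π) continuous with integer values:
`IsPreconnected.constant` or intermediate value theorem); w p = 0.
comp: exp (u (v t)) = g (exp (v t)) = g (h (exp t)); derivative by the chain rule.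
inv: let e0 be the fixing lift of g⁻¹ (exists_fixLift; g⁻¹ fixes exp p too). u ∘ e0 and e0 ∘ u are fixing
lifts of 1, so both equal id by uniqueness.
pos_mul, pos_inv: IsPos is closed under products; if g has a lift u with u' > 0 and g⁻¹ has any C² lift v, then
v has positive derivative: exp (u (v t)) = exp t so u (v t) - t is constant, u'(v t) v'(t) = 1.
-/
import Pool.Agent.H50.GS.Defs

set_option autoImplicit false
open Set Filter Topology MeasureTheory

namespace Pool.Agent.H50.GS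

/-- two continuous real functions with the same image on the circle differ by a constant -/
theorem lifts_diff {u v : ℝ → ℝ} (hu : Continuous u) (hv : Continuous v)
    (h : ∀ t, Circle.exp (u t) = Circle.exp (v t)) :
    ∃ m : ℤ, ∀ t, u t = v t + m * (2 * Real.pi) := by
  have h1 : ∀ t, ∃ m : ℤ, u t = v t + m * (2 * Real.pi) := fun t => Circle.exp_eq_exp.1 (h t)
  choose m hm using h1
  have hpi : (2 * Real.pi) ≠ 0 := by positivity
  have h2 : (fun t => ((m t : ℤ) : ℝ)) = fun t => (u t - v t) / (2 * Real.pi) := by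
    funext t
    rw [hm t]
    field_simp
    ring
  have h3 : Continuous m := by
    rw [Int.isClosedEmbedding_coe_real.isEmbedding.continuous_iff]
    change Continuous (fun t => ((m t : ℤ) : ℝ))
    rw [h2]
    exact (hu.sub hv).div_const _
  refine ⟨m 0, fun t => ?_⟩
  rw [hm t, PreconnectedSpace.constant (by infer_instance) h3 (x := t) (y := 0)]

theorem lifts_shift {g : Circle ≃ₜ Circle} {u : ℝ → ℝ} (hu : IsLift g u)
    (hpos : ∀ t, 0 < deriv u t) (m : ℤ) :
    IsLift g (fun t => u t - m * (2 * Real.pi)) ∧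
      ∀ t, 0 < deriv (fun t => u t - m * (2 * Real.pi)) t := by
  have hd : ∀ t, deriv (fun t => u t - m * (2 * Real.pi)) t = deriv u t := fun t => by
    rw [deriv_sub_const]
  refine ⟨⟨hu.1.sub contDiff_const, fun t => ?_, fun t => ?_⟩, fun t => ?_⟩
  · rw [hd]; exact hu.2.1 t
  · rw [← hu.2.2 t, Circle.exp_eq_exp]
    exact ⟨-m, by push_cast; ring⟩
  · rw [hd]; exact hpos t

theorem lifts_comp {g h : Circle ≃ₜ Circle} {u v : ℝ → ℝ} (hu : IsLift g u) (hv : IsLift h v) :
    IsLift (g * h) (u ∘ v) ∧ ∀ t, deriv (u ∘ v) t = deriv u (v t) * deriv v t := by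
  have hd : ∀ t, deriv (u ∘ v) t = deriv u (v t) * deriv v t := fun t =>
    deriv_comp t (hu.1.differentiable (by norm_num) _) (hv.1.differentiable (by norm_num) _)
  refine ⟨⟨hu.1.comp hv.1, fun t => ?_, fun t => ?_⟩, hd⟩
  · rw [hd]
    exact mul_ne_zero (hu.2.1 _) (hv.2.1 _)
  · change Circle.exp (u (v t)) = g (h (Circle.exp t))
    rw [hu.2.2, hv.2.2]

theorem exists_fixLift {p : ℝ} {g : Circle ≃ₜ Circle} (hg : IsPos g)
    (hp : g (Circle.exp p) = Circle.exp p) : ∃ u, FixLift p g u := by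
  obtain ⟨u, hu, hpos⟩ := hg
  have h1 : Circle.exp (u p) = Circle.exp p := by rw [hu.2.2, hp]
  obtain ⟨m, hm⟩ := Circle.exp_eq_exp.1 h1
  obtain ⟨h2, h3⟩ := lifts_shift hu hpos m
  exact ⟨_, h2, h3, by simp only [hm]; ring⟩

theorem fixLift_unique {p : ℝ} {g : Circle ≃ₜ Circle} {u v : ℝ → ℝ} (hu : FixLift p g u)
    (hv : FixLift p g v) : u = v := by
  obtain ⟨m, hm⟩ := lifts_diff hu.1.1.continuous hv.1.1.continuous
    (fun t => by rw [hu.1.2.2, hv.1.2.2])
  have h1 := hm p
  rw [hu.2.2, hv.2.2] at h1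
  funext t
  rw [hm t]
  linarith

theorem fixLift_one (p : ℝ) : FixLift p 1 id := by
  refine ⟨⟨contDiff_id, fun t => ?_, fun t => rfl⟩, fun t => ?_, rfl⟩
  · rw [deriv_id]; exact one_ne_zero
  · rw [deriv_id]; exact one_pos

theorem fixLift_comp {p : ℝ} {g h : Circle ≃ₜ Circle} {u v : ℝ → ℝ} (hu : FixLift p g u)
    (hv : FixLift p h v) : FixLift p (g * h) (u ∘ v) := by
  obtain ⟨h1, h2⟩ := lifts_comp hu.1 hv.1
  refine ⟨h1, fun t => ?_, ?_⟩
  · rw [h2]
    exact mul_pos (hu.2.1 _) (hv.2.1 _)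
  · rw [Function.comp_apply, hv.2.2, hu.2.2]

theorem isPos_mul {g h : Circle ≃ₜ Circle} (hg : IsPos g) (hh : IsPos h) : IsPos (g * h) := by
  obtain ⟨u, hu, hupos⟩ := hg
  obtain ⟨v, hv, hvpos⟩ := hh
  obtain ⟨h1, h2⟩ := lifts_comp hu hv
  exact ⟨_, h1, fun t => by rw [h2]; exact mul_pos (hupos _) (hvpos _)⟩

theorem isPos_inv {g : Circle ≃ₜ Circle} {v : ℝ → ℝ} (hg : IsPos g) (hv : IsLift g⁻¹ v) :
    IsPos g⁻¹ := by
  obtain ⟨u, hu, hupos⟩ := hg
  refine ⟨v, hv, fun t => ?_⟩
  obtain ⟨h1, h2⟩ := lifts_comp hu hv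
  obtain ⟨m, hm⟩ := lifts_diff h1.1.continuous continuous_id (fun t => by
    rw [h1.2.2, mul_inv_cancel]
    rfl)
  have h3 : u ∘ v = fun t => t + m * (2 * Real.pi) := by
    funext t
    exact hm t
  have h4 := h2 t
  rw [h3, deriv_add_const, deriv_id''] at h4
  have h5 := hupos (v t)
  by_contra hneg
  push Not at hneg
  nlinarith

theorem fixLift_inv {p : ℝ} {g : Circle ≃ₜ Circle} {u : ℝ → ℝ} (hu : FixLift p g u)
    (hg : IsPos g⁻¹) : ∃ e, FixLift p g⁻¹ e ∧ (∀ t, u (e t) = t) ∧ ∀ t, e (u t) = t := by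
  have h1 : g (Circle.exp p) = Circle.exp p := by rw [← hu.1.2.2, hu.2.2]
  have h2 : g⁻¹ (Circle.exp p) = Circle.exp p := by
    conv_lhs => rw [← h1]
    exact g.symm_apply_apply _
  obtain ⟨e, he⟩ := exists_fixLift hg h2
  refine ⟨e, he, fun t => ?_, fun t => ?_⟩
  · have h3 := fixLift_comp hu he
    rw [mul_inv_cancel] at h3
    exact congrFun (fixLift_unique h3 (fixLift_one p)) t
  · have h3 := fixLift_comp he hu
    rw [inv_mul_cancel] at h3
    exact congrFun (fixLift_unique h3 (fixLift_one p)) t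

theorem fixLift_iter {p : ℝ} {g : Circle ≃ₜ Circle} {u : ℝ → ℝ} (hu : FixLift p g u) (n : ℕ) :
    FixLift p (g ^ n) (u^[n]) := by
  induction n with
  | zero => exact fixLift_one p
  | succ n ih =>
    rw [pow_succ, Function.iterate_succ]
    exact fixLift_comp ih hu

/-- two lifts which fix `p` of commuting maps commute -/
theorem fixLift_commute {p : ℝ} {g h : Circle ≃ₜ Circle} {u v : ℝ → ℝ} (hu : FixLift p g u)
    (hv : FixLift p h v) (hgh : g * h = h * g) : ∀ t, u (v t) = v (u t) := by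
  intro t
  have h1 := fixLift_comp hu hv
  have h2 := fixLift_comp hv hu
  rw [← hgh] at h2
  exact congrFun (fixLift_unique h1 h2) t

end Pool.Agent.H50.GS
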