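/-
helper50, project GS, job GS-ORD: bi-ordered groups without least element have small elements.

P is the positive cone of a bi-ordered group H (a ≺ b :⇔ P (a⁻¹ * b), equivalently P (b * a⁻¹)).
PROOF. Assume the second alternative fails: (*) for every φ with P φ there is n with P (g^n * φ⁻¹) for all
positive g. If no element is positive, H is trivial (trichotomy): take g0 = 1. Otherwise fix φ positive.
(a) There is a least positive element. Otherwise for every positive g there is a positive g' with g' ≺ g,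
i.e. P (g'⁻¹ * g); let h be the smaller of g' and g'⁻¹ * g (trichotomy of g'⁻¹ * (g'⁻¹ * g)); then h is positive
and h² ≼ g, i.e. ¬ P (h^2 * g⁻¹) [order compatible with multiplication on both sides by hmul and hconj].
Iterating from φ gives positive h_m with h_m^(2^m) ≼ φ, hence h_m^n ≼ h_m^(2^m) ≼ φ when n ≤ 2^m, so
¬ P (h_m^n * φ⁻¹), against (*) for φ.
(b) Let g0 be the least positive element. For h positive, (*) with φ = h gives n with h ≺ g0^n; take the
largest m with g0^m ≼ h; then 1 ≼ g0^(-m) * h ≺ g0, so g0^(-m) * h = 1 by minimality. For h⁻¹ positive use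
inverses, h = 1 trivial.  So every h is a power of g0.
(It may be convenient to define the relation le a b := a = b ∨ P (a⁻¹ * b) and to prove that it is a linear order
compatible with left and right multiplication.)
-/
import Mathlib

set_option autoImplicit false

namespace Pool.Agent.H50.GS

section OrdAux

variable {H : Type*} [Group H] {P : H → Prop}

theorem ord_not_inv (h1 : ¬ P 1) (hmul : ∀ a b, P a → P b → P (a * b)) {a : H} (ha : P a) :
    ¬ P a⁻¹ := by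
  intro h
  apply h1
  have := hmul _ _ ha h
  rwa [mul_inv_cancel] at this

/-- `¬ P (a * b⁻¹)`, that is `a ≤ b`. -/
theorem ord_le_iff (h1 : ¬ P 1) (hmul : ∀ a b, P a → P b → P (a * b))
    (htri : ∀ a, a = 1 ∨ P a ∨ P a⁻¹) (a b : H) : ¬ P (a * b⁻¹) ↔ a = b ∨ P (b * a⁻¹) := by
  have hinv : (a * b⁻¹)⁻¹ = b * a⁻¹ := by group
  constructor
  · intro h
    rcases htri (a * b⁻¹) with h2 | h2 | h2
    · left
      exact mul_inv_eq_one.1 h2
    · exact (h h2).elim
    · right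
      rwa [hinv] at h2
  · rintro (rfl | h) h2
    · rw [mul_inv_cancel] at h2
      exact h1 h2
    · rw [← hinv] at h
      exact ord_not_inv h1 hmul h2 h

theorem ord_le_mul (h1 : ¬ P 1) (hmul : ∀ a b, P a → P b → P (a * b))
    (hconj : ∀ a b, P a → P (b * a * b⁻¹)) (htri : ∀ a, a = 1 ∨ P a ∨ P a⁻¹) {a b c d : H}
    (hab : ¬ P (a * b⁻¹)) (hcd : ¬ P (c * d⁻¹)) : ¬ P ((a * c) * (b * d)⁻¹) := by
  rw [ord_le_iff h1 hmul htri] at hab hcd ⊢
  rcases hab with rfl | hab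
  · rcases hcd with rfl | hcd
    · exact Or.inl rfl
    · right
      have := hconj _ a hcd
      have e : a * (d * c⁻¹) * a⁻¹ = a * d * (a * c)⁻¹ := by group
      rwa [e] at this
  · right
    rcases hcd with rfl | hcd
    · have e : b * c * (a * c)⁻¹ = b * a⁻¹ := by group
      rwa [e]
    · have := hmul _ _ (hconj _ b hcd) hab
      have e : b * (d * c⁻¹) * b⁻¹ * (b * a⁻¹) = b * d * (a * c)⁻¹ := by group
      rwa [e] at this

theorem ord_le_trans (h1 : ¬ P 1) (hmul : ∀ a b, P a → P b → P (a * b))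
    (htri : ∀ a, a = 1 ∨ P a ∨ P a⁻¹) {a b c : H}
    (hab : ¬ P (a * b⁻¹)) (hbc : ¬ P (b * c⁻¹)) : ¬ P (a * c⁻¹) := by
  rw [ord_le_iff h1 hmul htri] at hab hbc ⊢
  rcases hab with rfl | hab
  · exact hbc
  · right
    rcases hbc with rfl | hbc
    · exact hab
    · have := hmul _ _ hbc hab
      have e : c * b⁻¹ * (b * a⁻¹) = c * a⁻¹ := by group
      rwa [e] at this

theorem ord_le_pow (h1 : ¬ P 1) (hmul : ∀ a b, P a → P b → P (a * b))
    (hconj : ∀ a b, P a → P (b * a * b⁻¹)) (htri : ∀ a, a = 1 ∨ P a ∨ P a⁻¹) {a b : H}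
    (hab : ¬ P (a * b⁻¹)) (n : ℕ) : ¬ P (a ^ n * (b ^ n)⁻¹) := by
  induction n with
  | zero => simpa using h1
  | succ n ih =>
    rw [pow_succ, pow_succ]
    exact ord_le_mul h1 hmul hconj htri ih hab

theorem ord_pow_pos (h1 : ¬ P 1) (hmul : ∀ a b, P a → P b → P (a * b)) {a : H} (ha : P a) (n : ℕ) :
    P (a ^ (n + 1)) := by
  induction n with
  | zero => simpa using ha
  | succ n ih =>
    rw [pow_succ]
    exact hmul _ _ ih ha

theorem ord_pow_le_pow (h1 : ¬ P 1) (hmul : ∀ a b, P a → P b → P (a * b))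
    (htri : ∀ a, a = 1 ∨ P a ∨ P a⁻¹) {a : H} (ha : P a) {m n : ℕ} (hmn : m ≤ n) :
    ¬ P (a ^ m * (a ^ n)⁻¹) := by
  rw [ord_le_iff h1 hmul htri]
  obtain ⟨k, rfl⟩ := Nat.exists_eq_add_of_le hmn
  cases k with
  | zero => exact Or.inl rfl
  | succ k =>
    right
    have e : a ^ (m + (k + 1)) * (a ^ m)⁻¹ = a ^ (k + 1) := by
      rw [add_comm m, pow_add, mul_inv_cancel_right]
    rw [e]
    exact ord_pow_pos h1 hmul ha k

theorem ord_half (h1 : ¬ P 1) (hmul : ∀ a b, P a → P b → P (a * b))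
    (hconj : ∀ a b, P a → P (b * a * b⁻¹)) (htri : ∀ a, a = 1 ∨ P a ∨ P a⁻¹) {g g' : H}
    (hg' : P g') (hlt : P (g'⁻¹ * g)) : ∃ h, P h ∧ ¬ P (h ^ 2 * g⁻¹) := by
  rcases htri (g'⁻¹ * (g'⁻¹ * g)) with h2 | h2 | h2
  · refine ⟨g', hg', ?_⟩
    have e : g' ^ 2 * g⁻¹ = g' ^ 2 * (g'⁻¹ * (g'⁻¹ * g))⁻¹ * (g' ^ 2)⁻¹ := by group
    rw [e, h2, inv_one, mul_one, mul_inv_cancel]
    exact h1
  · refine ⟨g', hg', ?_⟩
    have e : g' ^ 2 * g⁻¹ = (g' ^ 2 * (g'⁻¹ * (g'⁻¹ * g)) * (g' ^ 2)⁻¹)⁻¹ := by group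
    rw [e]
    exact ord_not_inv h1 hmul (hconj _ _ h2)
  · refine ⟨g'⁻¹ * g, hlt, ?_⟩
    have e : (g'⁻¹ * g) ^ 2 * g⁻¹ =
        ((g'⁻¹ * g) * (g'⁻¹ * (g'⁻¹ * g))⁻¹ * (g'⁻¹ * g)⁻¹)⁻¹ := by
      rw [pow_two]
      group
    rw [e]
    exact ord_not_inv h1 hmul (hconj _ _ h2)

end OrdAux

theorem ord_lemma {H : Type*} [Group H] (P : H → Prop) (h1 : ¬ P 1)
    (hmul : ∀ a b, P a → P b → P (a * b)) (hconj : ∀ a b, P a → P (b * a * b⁻¹))
    (htri : ∀ a, a = 1 ∨ P a ∨ P a⁻¹) :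
    (∃ g0 : H, ∀ h : H, ∃ k : ℤ, h = g0 ^ k) ∨
      ∃ φ, P φ ∧ ∀ n : ℕ, ∃ g, P g ∧ ¬ P (g ^ n * φ⁻¹) := by
  by_cases hcase : ∃ φ, P φ ∧ ∀ n : ℕ, ∃ g, P g ∧ ¬ P (g ^ n * φ⁻¹)
  · exact Or.inr hcase
  left
  push Not at hcase
  by_cases hpos : ∃ φ, P φ
  swap
  · push Not at hpos
    refine ⟨1, fun h => ⟨0, ?_⟩⟩
    rcases htri h with h2 | h2 | h2
    · simpa using h2
    · exact (hpos _ h2).elim
    · exact (hpos _ h2).elim
  obtain ⟨φ, hφ⟩ := hpos
  -- a least positive element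
  have hleast : ∃ g0, P g0 ∧ ∀ g', P g' → ¬ P (g'⁻¹ * g0) := by
    by_contra hno
    push Not at hno
    have hiter : ∀ m : ℕ, ∃ h, P h ∧ ¬ P (h ^ (2 ^ m) * φ⁻¹) := by
      intro m
      induction m with
      | zero => exact ⟨φ, hφ, by simpa using h1⟩
      | succ m ih =>
        obtain ⟨h, hh, hle⟩ := ih
        obtain ⟨g', hg', hlt⟩ := hno h hh
        obtain ⟨k, hk, hkle⟩ := ord_half h1 hmul hconj htri hg' hlt
        refine ⟨k, hk, ?_⟩
        have h3 := ord_le_pow h1 hmul hconj htri hkle (2 ^ m)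
        have e : (k ^ 2) ^ (2 ^ m) = k ^ (2 ^ (m + 1)) := by
          rw [← pow_mul, pow_succ, mul_comm]
        rw [e] at h3
        exact ord_le_trans h1 hmul htri h3 hle
    obtain ⟨n, hn⟩ := hcase φ hφ
    obtain ⟨h, hh, hle⟩ := hiter n
    exact ord_le_trans h1 hmul htri
      (ord_pow_le_pow h1 hmul htri hh (Nat.lt_two_pow_self (n := n)).le) hle (hn h hh)
  obtain ⟨g0, hg0, hmin⟩ := hleast
  have hmain : ∀ h, P h → ∃ m : ℕ, h = g0 ^ m := by
    intro h hh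
    have hex : ∃ n : ℕ, P (g0 ^ n * h⁻¹) := by
      obtain ⟨n, hn⟩ := hcase h hh
      exact ⟨n, hn g0 hg0⟩
    classical
    have hspec := Nat.find_spec hex
    have hmin' := fun m => Nat.find_min (m := m) hex
    rcases hN : Nat.find hex with _ | m
    · rw [hN, pow_zero, one_mul] at hspec
      exact (ord_not_inv h1 hmul hh hspec).elim
    · rw [hN] at hspec
      have hm : ¬ P (g0 ^ m * h⁻¹) := hmin' m (by omega)
      rw [ord_le_iff h1 hmul htri] at hm
      rcases hm with hm | hm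
      · exact ⟨m, hm.symm⟩
      · exfalso
        apply hmin _ hm
        have := hconj _ g0⁻¹ hspec
        have e : g0⁻¹ * (g0 ^ (m + 1) * h⁻¹) * g0⁻¹⁻¹ = (h * (g0 ^ m)⁻¹)⁻¹ * g0 := by
          rw [pow_succ']
          group
        rwa [e] at this
  refine ⟨g0, fun h => ?_⟩
  rcases htri h with h2 | h2 | h2
  · exact ⟨0, by simpa using h2⟩
  · obtain ⟨m, hm⟩ := hmain h h2
    exact ⟨m, by simpa using hm⟩
  · obtain ⟨m, hm⟩ := hmain h⁻¹ h2
    refine ⟨-m, ?_⟩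
    rw [zpow_neg, zpow_natCast, ← hm, inv_inv]

end Pool.Agent.H50.GS
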