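/-
helper50, project GS, job GS-RENORM: renormalisation of infinitesimally small germs.

SETTING. f, e inverse C² diffeos of ℝ with positive derivative, f p = p, f t < t on (p, p+δ] (a contraction
to p from the right). g n (n ∈ ℕ): C² with positive derivative, g n p = p, g n t > t for t > p near p, and
(g n)^[n] (f t) ≤ t for t > p near p (n iterates of g n do not even compensate one f).
CLAIM. On some interval (α, β) ⊂ (p, p+δ) the maps F n := e^[k n] ∘ g (n+1) ∘ f^[k n], k n large, are near-identity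
in the sense of `NearId`.

PROOF. c := p+δ, c_j := f^[j] c, so p < c_3 < c_2 < c_1 < c. Take α := c_3, β := c_2, I := [c_3, c],
and use `iter_facts` (file Sum) with a := c_3; let C1 be its Lipschitz constant for L_k := log (f^[k])' on I.
Write m := n+1, G := g m, F := e^[k] ∘ G ∘ f^[k].
(a) log G'(p): G p = p and G t > t near p+ give G'(p) ≥ 1; G^[m] (f t) ≤ t near p+ (with equality at p) gives
(G'(p))^m f'(p) ≤ 1. So 0 ≤ log G'(p) ≤ (1/m) log(1/f'(p)). (f'(p) ≤ 1 as well.)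
(b) There is ε_m > 0 with, for t ∈ (p, p+ε_m): t < G t, G^[m] (f t) ≤ t, |log G'(t) - log G'(p)| ≤ 1/m, and
|(log G')'(t)| ≤ B_m for some B_m.  Choose k = k(n) ≥ 1 so large that f^[k-1] u < p + ε_m for all u ∈ I and
B_m·(f^[k])'(u) ≤ 1 for u ∈ I (iter_facts).
(c) For u ∈ [c_3, c_1] put y = f^[k] u. Since f y' = y with y' = f^[k-1] u: G^[m] y ≤ f^[k-1] u < p + ε_m, and
G is increasing with t < G t near p, so y < G y < G² y < ... < G^[m] y ≤ f^[k-1] u (all these points lie in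
(p, p+ε_m)). Apply e^[k] (increasing, e^[k] (f^[k-1] u) = e u, e^[k](f^[k] u) = u), F^[j] u = e^[k] (G^[j] y):
      u < F u < F² u < ... < F^[m] u ≤ e u ≤ c,   in particular F u ∈ (c_3, c] ⊂ I.
(d) Chain rule: (f^[k])'(F u) F'(u) = G'(f^[k] u) (f^[k])'(u), i.e.
      log F'(u) = log G'(f^[k] u) + L_k(u) - L_k(F u)    for u ∈ [c_3, c_1].
Hence with D(u) := F u - u > 0 and a_m := (1/m)(1 + log(1/f'(p))):  |log F'(u)| ≤ a_m + C1 D(u). D ≤ c - c_3 on
[c_3,c_1], so |D'(u)| = |F'(u) - 1| ≤ C2 (a_m + D(u)) with a constant C2 independent of n (|exp x - 1| ≤ |x| e^|x|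
and |x| ≤ a_1' + C1 δ bounded, a_m ≤ a_1).
(e) Gronwall: (D + a_m) satisfies |(D+a_m)'| ≤ C2 (D + a_m), so D(u) + a_m ≤ K (D(v) + a_m) for u, v ∈ [c_3, c_1],
K := exp(C2 (c_1 - c_3)) (log(D + a_m) is C2-Lipschitz; a_m > 0).
(f) Uniform smallness. Let u0 ∈ [c_3, c_2], d := D(u0), and suppose d ≥ 2 K a_m. Then D(v) ≥ d/K - a_m ≥ d/(2K) for all
v ∈ [c_3, c_1]. Start at c_3: by (c) F^[j] c_3 ≤ e c_3 = c_2 for j ≤ m, so c_2 - c_3 ≥ Σ_{j<m} D(F^[j] c_3) ≥ m d/(2K).
So d ≤ max (2 K a_m) (2 K δ/m) → 0. This is the uniform convergence F n → id on (α, β).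
(g) log F' is uniformly Lipschitz on (c_3, c_2): from (d), for u, v there:
|log G'(f^[k] u) - log G'(f^[k] v)| ≤ B_m sup (f^[k])' |u - v| ≤ |u - v| and
|L_k(F u) - L_k(F v)| ≤ C1 |F u - F v| ≤ C1 sup F' |u - v|, sup F' ≤ exp(a_1 + C1 δ).
-/
import Pool.Agent.H50.GS.Sum
import Pool.Agent.H50.GS.RenAux

set_option autoImplicit false
open Set Filter Topology MeasureTheory

namespace Pool.Agent.H50.GS

theorem abs_exp_sub_one_le_mul (x : ℝ) : |Real.exp x - 1| ≤ |x| * Real.exp |x| := by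
  rcases le_total 0 x with hx | hx
  · have h1 : 1 ≤ Real.exp x := Real.one_le_exp hx
    rw [abs_of_nonneg hx, abs_of_nonneg (by linarith)]
    have h2 : 1 - x ≤ Real.exp (-x) := by
      have := Real.add_one_le_exp (-x)
      linarith
    have h3 : Real.exp x * (1 - x) ≤ Real.exp x * Real.exp (-x) :=
      mul_le_mul_of_nonneg_left h2 (Real.exp_pos x).le
    rw [← Real.exp_add, add_neg_cancel, Real.exp_zero] at h3
    linarith
  · have h1 : Real.exp x ≤ 1 := Real.exp_le_one_iff.2 hx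
    rw [abs_of_nonpos hx, abs_of_nonpos (by linarith)]
    have h2 := Real.add_one_le_exp x
    have h3 : 1 ≤ Real.exp (-x) := Real.one_le_exp (by linarith)
    nlinarith

/-- The data of one renormalised map. -/
theorem renorm_step {p δ : ℝ} (hδ : 0 < δ) {f e : ℝ → ℝ} (hf : ContDiff ℝ 2 f)
    (hf' : ∀ t, 0 < deriv f t) (he' : ∀ t, 0 < deriv e t) (hfe : ∀ t, f (e t) = t)
    (hef : ∀ t, e (f t) = t) (hp : f p = p) (hcon : ∀ t ∈ Ioc p (p + δ), f t < t)
    {a : ℝ} (ha : a ∈ Ioo p (p + δ))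
    {G : ℝ → ℝ} {m : ℕ} (hm : 1 ≤ m) (hG : ContDiff ℝ 2 G) (hG' : ∀ t, 0 < deriv G t)
    (hGp : G p = p) (hpos : ∀ᶠ t in 𝓝[>] p, t < G t)
    (hsmall : ∀ᶠ t in 𝓝[>] p, G^[m] (f t) ≤ t) :
    ∃ k : ℕ,
      StrictMono (fun t => e^[k] (G (f^[k] t))) ∧
      (∀ u ∈ Icc a (p + δ), u < e^[k] (G (f^[k] u))) ∧
      (∀ u ∈ Icc a (p + δ), (fun t => e^[k] (G (f^[k] t)))^[m] u ≤ e u) ∧
      (∀ u ∈ Icc a (p + δ), |Real.log (deriv G (f^[k] u))| ≤ (1 - Real.log (deriv f p)) / m) ∧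
      (∀ u ∈ Icc a (p + δ), ∀ v ∈ Icc a (p + δ),
        |Real.log (deriv G (f^[k] u)) - Real.log (deriv G (f^[k] v))| ≤ |u - v|) := by
  obtain ⟨-, hI2, hI3, hI4, hI5, hI6⟩ := iter_facts hδ hf hf' hp hcon ha
  have hm0 : (0 : ℝ) < m := by exact_mod_cast hm
  -- the derivative of `G` at `p`
  have hGd : HasDerivAt G (deriv G p) p := (hG.differentiable (by norm_num) p).hasDerivAt
  have h1 : 1 ≤ deriv G p := one_le_of_fix hGd hGp (hpos.mono (fun t ht => ht.le))
  have hfd : HasDerivAt f (deriv f p) p := (hf.differentiable (by norm_num) p).hasDerivAt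
  have hGm : HasDerivAt (G^[m]) (deriv G p ^ m) (f p) := by
    rw [hp]; exact HasDerivAt.iterate p hGd hGp m
  have h2 : deriv G p ^ m * deriv f p ≤ 1 := by
    refine le_one_of_fix (G := G^[m] ∘ f) (hGm.comp p hfd) ?_ hsmall
    simp only [Function.comp_apply, hp]
    exact Function.iterate_fixed hGp m
  have h3 : (m : ℝ) * Real.log (deriv G p) + Real.log (deriv f p) ≤ 0 := by
    have := Real.log_le_log (mul_pos (pow_pos (hG' p) m) (hf' p)) h2
    rwa [Real.log_one, Real.log_mul (pow_pos (hG' p) m).ne' (hf' p).ne', Real.log_pow] at this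
  have h4 : 0 ≤ Real.log (deriv G p) := Real.log_nonneg h1
  have h5 : Real.log (deriv G p) ≤ - Real.log (deriv f p) / m := by
    rw [le_div_iff₀ hm0]; linarith
  -- the neighbourhood of `p`
  have hlogc : Continuous (fun t => Real.log (deriv G t)) := by
    have h1 : ContDiff ℝ 1 (deriv G) := by
      have : ContDiff ℝ (1 + 1) G := by norm_num; exact hG
      exact ((contDiff_succ_iff_deriv).1 this).2.2
    exact h1.continuous.log (fun t => (hG' t).ne')
  have hnear : ∀ᶠ t in 𝓝[>] p, |Real.log (deriv G t) - Real.log (deriv G p)| < 1 / m := by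
    have : ∀ᶠ t in 𝓝 p, |Real.log (deriv G t) - Real.log (deriv G p)| < 1 / m := by
      have hh := (Metric.tendsto_nhds.1 (hlogc.tendsto p)) (1 / m) (by positivity)
      simpa [Real.dist_eq] using hh
    exact nhdsWithin_le_nhds this
  obtain ⟨q, hq, hqs⟩ := mem_nhdsGT_iff_exists_Ioo_subset.1 (hpos.and (hsmall.and hnear))
  have hqp : 0 < q - p := sub_pos.2 hq
  obtain ⟨B, hB0, hB⟩ := lip_log_deriv hG hG' p (p + δ)
  obtain ⟨K1, hK1⟩ := hI2 (1 / (B + 1)) (by positivity)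
  obtain ⟨K2, hK2⟩ := hI3 (q - p) hqp
  set k0 := max K1 K2 with hk0
  -- facts on the points
  have hz : ∀ u ∈ Icc a (p + δ), f^[k0] u ∈ Ioo p q ∧ f^[k0] u ≤ p + δ := by
    intro u hu
    have hu' : u ∈ Ioc p (p + δ) := ⟨lt_of_lt_of_le ha.1 hu.1, hu.2⟩
    have h := hI4 k0 u hu'
    have h' := hK2 k0 (le_max_right _ _) u hu'
    exact ⟨⟨h.1, by linarith⟩, h.2.trans hu.2⟩
  have hyz : ∀ u, f^[k0 + 1] u = f (f^[k0] u) := fun u => Function.iterate_succ_apply' f k0 u
  have hy : ∀ u ∈ Icc a (p + δ), f^[k0 + 1] u ∈ Ioo p q ∧ f^[k0 + 1] u ≤ p + δ ∧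
      f^[k0 + 1] u < f^[k0] u := by
    intro u hu
    have hu' : u ∈ Ioc p (p + δ) := ⟨lt_of_lt_of_le ha.1 hu.1, hu.2⟩
    have h := hI4 (k0 + 1) u hu'
    have h2 := hz u hu
    have h3 : f^[k0 + 1] u < f^[k0] u := by
      rw [hyz]; exact hcon _ ⟨h2.1.1, h2.2⟩
    exact ⟨⟨h.1, h3.trans h2.1.2⟩, h.2.trans hu.2, h3⟩
  have hfm : StrictMono f := strictMono_of_deriv_pos hf'
  have hem : StrictMono e := strictMono_of_deriv_pos he'
  have hGm' : StrictMono G := strictMono_of_deriv_pos hG'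
  have hekm : StrictMono (e^[k0 + 1]) := hem.iterate _
  have hfkm : StrictMono (f^[k0 + 1]) := hfm.iterate _
  have hFit : ∀ j : ℕ, ∀ u, (fun t => e^[k0 + 1] (G (f^[k0 + 1] t)))^[j] u =
      e^[k0 + 1] (G^[j] (f^[k0 + 1] u)) := by
    intro j u
    induction j with
    | zero => simpa using (iter_inv hef (k0 + 1) u).symm
    | succ j ih =>
      rw [Function.iterate_succ_apply' (fun t => e^[k0 + 1] (G (f^[k0 + 1] t))) j u, ih,
        Function.iterate_succ_apply' G j]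
      simp only [iter_inv hfe (k0 + 1)]
  refine ⟨k0 + 1, ?_, ?_, ?_, ?_, ?_⟩
  · intro s t hst
    exact hekm (hGm' (hfkm hst))
  · intro u hu
    have h := hy u hu
    have h1 := (hqs h.1).1
    have h2 := hekm h1
    rwa [iter_inv hef] at h2
  · intro u hu
    rw [hFit m u, hyz u]
    have h1 := (hqs (hz u hu).1).2.1
    have h2 := hekm.monotone h1
    refine h2.trans (le_of_eq ?_)
    rw [Function.iterate_succ_apply', iter_inv hef]
  · intro u hu
    have h1 := (hqs (hy u hu).1).2.2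
    have h2 := abs_sub_abs_le_abs_sub (Real.log (deriv G (f^[k0 + 1] u))) (Real.log (deriv G p))
    rw [abs_of_nonneg h4] at h2
    have h3 : (1 - Real.log (deriv f p)) / m = 1 / m + - Real.log (deriv f p) / m := by ring
    rw [h3]
    linarith
  · intro u hu v hv
    have hyu := hy u hu
    have hyv := hy v hv
    have h1 := hB _ ⟨hyu.1.1.le, hyu.2.1⟩ _ ⟨hyv.1.1.le, hyv.2.1⟩
    have h2 : |f^[k0 + 1] u - f^[k0 + 1] v| ≤ 1 / (B + 1) * |u - v| := by
      have := (convex_Icc a (p + δ)).norm_image_sub_le_of_norm_deriv_le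
        (f := f^[k0 + 1]) (C := 1 / (B + 1))
        (fun x _ => (hI6 (k0 + 1)).differentiable (by norm_num) x)
        (fun x hx => by
          rw [Real.norm_eq_abs, abs_of_pos (hI5 (k0 + 1) x)]
          exact (hK1 (k0 + 1) ((le_max_left _ _).trans (Nat.le_succ _)) x hx).le) hv hu
      simpa [Real.norm_eq_abs] using this
    refine h1.trans ?_
    have h3 : B * |f^[k0 + 1] u - f^[k0 + 1] v| ≤ B * (1 / (B + 1) * |u - v|) :=
      mul_le_mul_of_nonneg_left h2 hB0
    refine h3.trans ?_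
    have h4 : B * (1 / (B + 1)) ≤ 1 := by
      rw [mul_one_div, div_le_one (by positivity)]; linarith
    calc B * (1 / (B + 1) * |u - v|) = (B * (1 / (B + 1))) * |u - v| := by ring
      _ ≤ 1 * |u - v| := mul_le_mul_of_nonneg_right h4 (abs_nonneg _)
      _ = |u - v| := one_mul _

theorem renorm {p δ : ℝ} (hδ : 0 < δ) {f e : ℝ → ℝ} (hf : ContDiff ℝ 2 f) (he : ContDiff ℝ 2 e)
    (hf' : ∀ t, 0 < deriv f t) (he' : ∀ t, 0 < deriv e t) (hfe : ∀ t, f (e t) = t)
    (hef : ∀ t, e (f t) = t) (hp : f p = p) (hcon : ∀ t ∈ Ioc p (p + δ), f t < t)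
    {g : ℕ → ℝ → ℝ} (hg : ∀ n, ContDiff ℝ 2 (g n)) (hg' : ∀ n t, 0 < deriv (g n) t)
    (hgp : ∀ n, g n p = p) (hpos : ∀ n, ∀ᶠ t in 𝓝[>] p, t < g n t)
    (hsmall : ∀ n, ∀ᶠ t in 𝓝[>] p, (g n)^[n] (f t) ≤ t) :
    ∃ α β : ℝ, p < α ∧ α < β ∧ β < p + δ ∧ ∃ k : ℕ → ℕ,
      NearId α β (fun n t => e^[k n] (g (n + 1) (f^[k n] t))) := by
  have hfm : StrictMono f := strictMono_of_deriv_pos hf'
  have hem : StrictMono e := strictMono_of_deriv_pos he'
  set c := p + δ with hc
  have hpc : p < c := by linarith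
  set c1 := f c with hc1
  set c2 := f c1 with hc2
  set c3 := f c2 with hc3
  have h1c : c1 < c := hcon c ⟨hpc, le_rfl⟩
  have hp1 : p < c1 := by have := hfm hpc; rwa [hp] at this
  have h21 : c2 < c1 := hcon c1 ⟨hp1, h1c.le⟩
  have hp2 : p < c2 := by have := hfm hp1; rwa [hp] at this
  have h32 : c3 < c2 := hcon c2 ⟨hp2, (h21.trans h1c).le⟩
  have hp3 : p < c3 := by have := hfm hp2; rwa [hp] at this
  have ha : c3 ∈ Ioo p (p + δ) := ⟨hp3, h32.trans (h21.trans h1c)⟩
  obtain ⟨⟨C1, hC1, hL⟩, -, -, -, hI5, hI6⟩ := iter_facts hδ hf hf' hp hcon ha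
  have hfd : HasDerivAt f (deriv f p) p := (hf.differentiable (by norm_num) p).hasDerivAt
  have hfp1 : deriv f p ≤ 1 := by
    refine le_one_of_fix hfd hp ?_
    filter_upwards [Ioo_mem_nhdsGT hpc] with t ht
    exact (hcon t ⟨ht.1, ht.2.le⟩).le
  set A : ℝ := 1 - Real.log (deriv f p) with hA
  have hA1 : 1 ≤ A := by
    have := Real.log_nonpos (hf' p).le hfp1
    linarith
  have hstep := fun n : ℕ => renorm_step hδ hf hf' he' hfe hef hp hcon ha (m := n + 1)
    (Nat.le_add_left 1 n) (hg (n + 1)) (hg' (n + 1)) (hgp (n + 1)) (hpos (n + 1)) (hsmall (n + 1))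
  choose k hk using hstep
  set F : ℕ → ℝ → ℝ := fun n t => e^[k n] (g (n + 1) (f^[k n] t)) with hF
  have hFm : ∀ n, StrictMono (F n) := fun n => (hk n).1
  have hF1 : ∀ n, ∀ u ∈ Icc c3 c, u < F n u := fun n => (hk n).2.1
  have hF2 : ∀ n, ∀ u ∈ Icc c3 c, (F n)^[n + 1] u ≤ e u := fun n => (hk n).2.2.1
  have hF3 : ∀ n, ∀ u ∈ Icc c3 c, |Real.log (deriv (g (n + 1)) (f^[k n] u))| ≤ A / (n + 1 : ℕ) :=
    fun n => (hk n).2.2.2.1
  have hF4 : ∀ n, ∀ u ∈ Icc c3 c, ∀ v ∈ Icc c3 c,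
      |Real.log (deriv (g (n + 1)) (f^[k n] u)) - Real.log (deriv (g (n + 1)) (f^[k n] v))|
        ≤ |u - v| := fun n => (hk n).2.2.2.2
  have hsub : ∀ u ∈ Icc c3 c1, u ∈ Icc c3 c := fun u hu => ⟨hu.1, hu.2.trans h1c.le⟩
  -- monotone iterates
  have hFit : ∀ n, ∀ u ∈ Icc c3 c, StrictMono (fun j => (F n)^[j] u) := fun n u hu =>
    (hFm n).strictMono_iterate_of_lt_map (hF1 n u hu)
  have hFle : ∀ n, ∀ u ∈ Icc c3 c1, F n u ∈ Icc c3 c := by
    intro n u hu
    have hu' := hsub u hu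
    refine ⟨hu.1.trans (hF1 n u hu').le, ?_⟩
    have h1 : F n u ≤ (F n)^[n + 1] u := by
      have := (hFit n u hu').monotone (Nat.le_add_left 1 n)
      simpa using this
    have h2 := hF2 n u hu'
    have h3 : e u ≤ c := by
      have := hem.monotone hu.2
      rwa [hc1, hef] at this
    exact h1.trans (h2.trans h3)
  -- the derivative
  have hFd : ∀ n u, HasDerivAt (F n)
      (deriv (g (n + 1)) (f^[k n] u) * deriv (f^[k n]) u / deriv (f^[k n]) (F n u)) u := by
    intro n u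
    exact conj_hasDerivAt hf he hI5 hfe ((hg (n + 1)).differentiable (by norm_num) _)
  have hFd0 : ∀ n u, 0 < deriv (F n) u := by
    intro n u
    rw [(hFd n u).deriv]
    exact div_pos (mul_pos (hg' _ _) (hI5 _ _)) (hI5 _ _)
  have hlog : ∀ n u, Real.log (deriv (F n) u) = Real.log (deriv (g (n + 1)) (f^[k n] u)) +
      (Real.log (deriv (f^[k n]) u) - Real.log (deriv (f^[k n]) (F n u))) := by
    intro n u
    rw [(hFd n u).deriv, Real.log_div (mul_pos (hg' _ _) (hI5 _ _)).ne' (hI5 _ _).ne',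
      Real.log_mul (hg' _ _).ne' (hI5 _ _).ne']
    ring
  have hlogb : ∀ n, ∀ u ∈ Icc c3 c1,
      |Real.log (deriv (F n) u)| ≤ A / (n + 1 : ℕ) + C1 * (F n u - u) := by
    intro n u hu
    rw [hlog n u]
    have h1 := hF3 n u (hsub u hu)
    have h2 := hL (k n) u (hsub u hu) (F n u) (hFle n u hu)
    have h3 : |u - F n u| = F n u - u := by
      rw [abs_sub_comm, abs_of_pos (sub_pos.2 (hF1 n u (hsub u hu)))]
    rw [h3] at h2
    exact (abs_add_le _ _).trans (add_le_add h1 h2)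
  have hDδ : ∀ n, ∀ u ∈ Icc c3 c1, F n u - u ≤ δ := by
    intro n u hu
    have h1 := (hFle n u hu).2
    have h2 := hu.1
    linarith
  have hD0 : ∀ n, ∀ u ∈ Icc c3 c1, 0 < F n u - u := fun n u hu =>
    sub_pos.2 (hF1 n u (hsub u hu))
  have han : ∀ n : ℕ, 0 < A / (n + 1 : ℕ) := fun n => by positivity
  have hanA : ∀ n : ℕ, A / (n + 1 : ℕ) ≤ A := by
    intro n
    rw [div_le_iff₀ (by positivity)]
    have : (1 : ℝ) ≤ ((n + 1 : ℕ) : ℝ) := by exact_mod_cast Nat.le_add_left 1 n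
    nlinarith
  set X : ℝ := A + C1 * δ with hX
  have hlogX : ∀ n, ∀ u ∈ Icc c3 c1, |Real.log (deriv (F n) u)| ≤ X := by
    intro n u hu
    refine (hlogb n u hu).trans (add_le_add (hanA n) ?_)
    exact mul_le_mul_of_nonneg_left (hDδ n u hu) hC1
  set C2 : ℝ := (1 + C1) * Real.exp X with hC2
  have hC20 : 0 < C2 := by positivity
  have hder : ∀ n, ∀ u ∈ Icc c3 c1,
      |deriv (F n) u - 1| ≤ C2 * ((F n u - u) + A / (n + 1 : ℕ)) := by
    intro n u hu
    have h1 := abs_exp_sub_one_le_mul (Real.log (deriv (F n) u))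
    rw [Real.exp_log (hFd0 n u)] at h1
    have h2 := hlogb n u hu
    have h3 : Real.exp |Real.log (deriv (F n) u)| ≤ Real.exp X :=
      Real.exp_le_exp.2 (hlogX n u hu)
    have h4 : A / (n + 1 : ℕ) + C1 * (F n u - u) ≤ (1 + C1) * ((F n u - u) + A / (n + 1 : ℕ)) := by
      have := hD0 n u hu
      have := han n
      nlinarith
    calc |deriv (F n) u - 1| ≤ |Real.log (deriv (F n) u)| * Real.exp |Real.log (deriv (F n) u)| := h1
      _ ≤ ((1 + C1) * ((F n u - u) + A / (n + 1 : ℕ))) * Real.exp X :=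
        mul_le_mul (h2.trans h4) h3 (Real.exp_pos _).le (by
          have := hD0 n u hu
          have := han n
          positivity)
      _ = C2 * ((F n u - u) + A / (n + 1 : ℕ)) := by rw [hC2]; ring
  -- Gronwall
  set K : ℝ := Real.exp (C2 * δ) with hK
  have hgron : ∀ n, ∀ u ∈ Icc c3 c1, ∀ v ∈ Icc c3 c1,
      (F n u - u) + A / (n + 1 : ℕ) ≤ K * ((F n v - v) + A / (n + 1 : ℕ)) := by
    intro n u hu v hv
    set φ : ℝ → ℝ := fun t => Real.log ((F n t - t) + A / (n + 1 : ℕ)) with hφ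
    have hpos' : ∀ t ∈ Icc c3 c1, 0 < (F n t - t) + A / (n + 1 : ℕ) := fun t ht =>
      add_pos (hD0 n t ht) (han n)
    have hφd : ∀ t ∈ Icc c3 c1, HasDerivAt φ
        ((deriv (F n) t - 1) / ((F n t - t) + A / (n + 1 : ℕ))) t := by
      intro t ht
      have h1 : HasDerivAt (fun t => (F n t - t) + A / (n + 1 : ℕ)) (deriv (F n) t - 1) t :=
        (((hFd n t).differentiableAt.hasDerivAt).sub (hasDerivAt_id t)).add_const _
      exact h1.log (hpos' t ht).ne'
    have h1 := (convex_Icc c3 c1).norm_image_sub_le_of_norm_deriv_le (f := φ) (C := C2)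
      (fun t ht => (hφd t ht).differentiableAt)
      (fun t ht => by
        rw [(hφd t ht).deriv, Real.norm_eq_abs, abs_div, abs_of_pos (hpos' t ht),
          div_le_iff₀ (hpos' t ht)]
        exact hder n t ht) hv hu
    rw [Real.norm_eq_abs, Real.norm_eq_abs] at h1
    have h2 : |u - v| ≤ δ := by
      rw [abs_le]
      constructor <;> linarith [hu.1, hu.2, hv.1, hv.2]
    have h3 : φ u - φ v ≤ C2 * δ :=
      (le_abs_self _).trans (h1.trans (mul_le_mul_of_nonneg_left h2 hC20.le))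
    have h4 : Real.exp (φ u) ≤ Real.exp (C2 * δ + φ v) := Real.exp_le_exp.2 (by linarith)
    rw [Real.exp_add, hφ] at h4
    simp only at h4
    rwa [Real.exp_log (hpos' u hu), Real.exp_log (hpos' v hv)] at h4
  have hK0 : 0 < K := Real.exp_pos _
  -- uniform smallness
  have hsm : ∀ n, ∀ u ∈ Icc c3 c1, F n u - u ≤ K * (δ + A) / (n + 1 : ℕ) := by
    intro n u hu
    have hc3m : c3 ∈ Icc c3 c := ⟨le_rfl, (h32.trans (h21.trans h1c)).le⟩
    have hv : ∀ j ≤ n + 1, (F n)^[j] c3 ∈ Icc c3 c2 := by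
      intro j hj
      constructor
      · have := (hFit n c3 hc3m).monotone (Nat.zero_le j)
        simpa using this
      · have h1 := (hFit n c3 hc3m).monotone hj
        have h2 := hF2 n c3 hc3m
        have h3 : e c3 = c2 := by rw [hc3, hef]
        rw [h3] at h2
        exact h1.trans h2
    have hsum : ∑ j ∈ Finset.range (n + 1), ((F n)^[j + 1] c3 - (F n)^[j] c3) =
        (F n)^[n + 1] c3 - (F n)^[0] c3 := Finset.sum_range_sub (fun j => (F n)^[j] c3) (n + 1)
    have hsum2 : ∑ j ∈ Finset.range (n + 1), ((F n u - u) + A / (n + 1 : ℕ)) ≤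
        ∑ j ∈ Finset.range (n + 1), K * (((F n)^[j + 1] c3 - (F n)^[j] c3) + A / (n + 1 : ℕ)) := by
      refine Finset.sum_le_sum (fun j hj => ?_)
      have hj' : j ≤ n + 1 := (Finset.mem_range.1 hj).le
      have h1 := hv j hj'
      have h2 := hgron n u hu ((F n)^[j] c3) ⟨h1.1, h1.2.trans h21.le⟩
      rwa [← Function.iterate_succ_apply' (F n) j c3] at h2
    rw [Finset.sum_const, Finset.card_range, ← Finset.mul_sum, Finset.sum_add_distrib, hsum,
      Finset.sum_const, Finset.card_range, nsmul_eq_mul, nsmul_eq_mul] at hsum2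
    have hn0 : (0 : ℝ) < ((n + 1 : ℕ) : ℝ) := by positivity
    have h5 : ((n + 1 : ℕ) : ℝ) * (A / (n + 1 : ℕ)) = A := by field_simp
    rw [mul_add, h5] at hsum2
    have h6 : (F n)^[n + 1] c3 - (F n)^[0] c3 ≤ δ := by
      have := (hv (n + 1) le_rfl).2
      simp only [Function.iterate_zero, id]
      linarith
    rw [le_div_iff₀ hn0]
    have h7 : K * ((F n)^[n + 1] c3 - (F n)^[0] c3 + A) ≤ K * (δ + A) :=
      mul_le_mul_of_nonneg_left (by linarith) hK0.le
    nlinarith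
  have hsub2 : ∀ u ∈ Ioo c3 c2, u ∈ Icc c3 c1 := fun u hu => ⟨hu.1.le, (hu.2.trans h21).le⟩
  refine ⟨c3, c2, hp3, h32, h21.trans h1c, k, ?_, ?_, ?_, ?_, ?_⟩
  · intro n t ht
    exact hF1 n t (hsub t (hsub2 t ht))
  · intro n t ht
    exact (hFd n t).differentiableAt
  · intro n t ht
    exact hFd0 n t
  · intro ε hε
    obtain ⟨N, hN⟩ := exists_nat_gt (K * (δ + A) / ε)
    refine ⟨N, fun n hn t ht => ?_⟩
    have h1 := hsm n t (hsub2 t ht)
    have h2 := hD0 n t (hsub2 t ht)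
    show |F n t - t| < ε
    rw [abs_of_pos h2]
    refine h1.trans_lt ?_
    rw [div_lt_iff₀ (by positivity)]
    rw [div_lt_iff₀ hε] at hN
    have h3 : (N : ℝ) ≤ ((n + 1 : ℕ) : ℝ) := by exact_mod_cast hn.trans (Nat.le_succ n)
    calc K * (δ + A) < N * ε := hN
      _ ≤ ((n + 1 : ℕ) : ℝ) * ε := mul_le_mul_of_nonneg_right h3 hε.le
      _ = ε * ((n + 1 : ℕ) : ℝ) := mul_comm _ _
  · refine ⟨1 + C1 + C1 * Real.exp X, fun n s hs t ht => ?_⟩
    have hs1 := hsub2 s hs
    have ht1 := hsub2 t ht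
    show |Real.log (deriv (F n) s) - Real.log (deriv (F n) t)| ≤ _
    rw [hlog n s, hlog n t]
    have h1 := hF4 n s (hsub s hs1) t (hsub t ht1)
    have h2 := hL (k n) s (hsub s hs1) t (hsub t ht1)
    have h3 := hL (k n) (F n s) (hFle n s hs1) (F n t) (hFle n t ht1)
    have h4 : |F n s - F n t| ≤ Real.exp X * |s - t| := by
      have := (convex_Icc c3 c1).norm_image_sub_le_of_norm_deriv_le (f := F n)
        (C := Real.exp X) (fun t _ => (hFd n t).differentiableAt)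
        (fun t ht => by
          rw [Real.norm_eq_abs, abs_of_pos (hFd0 n t), ← Real.exp_log (hFd0 n t)]
          exact Real.exp_le_exp.2 ((le_abs_self _).trans (hlogX n t ht))) ht1 hs1
      simpa [Real.norm_eq_abs] using this
    have h5 : C1 * |F n s - F n t| ≤ C1 * (Real.exp X * |s - t|) :=
      mul_le_mul_of_nonneg_left h4 hC1
    have h6 : ∀ a b c a' b' c' : ℝ, |a + (b - c) - (a' + (b' - c'))| ≤
        |a - a'| + |b - b'| + |c - c'| := by
      intro a b c a' b' c'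
      have : a + (b - c) - (a' + (b' - c')) = (a - a') + (b - b') + -(c - c') := by ring
      rw [this]
      have h1 := abs_add_le ((a - a') + (b - b')) (-(c - c'))
      have h2 := abs_add_le (a - a') (b - b')
      rw [abs_neg] at h1
      linarith
    refine (h6 _ _ _ _ _ _).trans ?_
    nlinarith

end Pool.Agent.H50.GS
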