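/-
helper50, project GS, job GS-STAB: a group H of elements of G fixing exp p (orientation preserving, nontrivial
elements have no fixed points in a punctured right neighbourhood of p) is cyclic, or G is ergodic.

PROOF. For h ∈ H let u_h be the unique lift with FixLift p h u_h (exists_fixLift). Define on ↥H
  P h := ∃ u, FixLift p h u ∧ ∀ᶠ t in 𝓝[>] p, t < u t.
 * ¬ P 1: the fixing lift of 1 is id (uniqueness), and t < t is false; 𝓝[>] p is not ⊥.
 * P a → P b → P (a*b): fixLift_comp; v t > t near p+ and v t → p+ (v continuous, increasing, v p = p), so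
   u (v t) > v t > t near p+.
 * P a → P (b*a*b⁻¹): lift w ∘ u ∘ e with e the inverse of w (fixLift_inv); for t near p+, s := e t is near p+,
   u s > s, so w (u s) > w s = t.
 * trichotomy: if h ≠ 1, then h (exp t) ≠ exp t for t ∈ (p, p+ε), so u_h t ≠ t on (p,p+ε), so u_h t - t has
   constant sign there (connectedness); if it is positive, P h; if negative, then for the inverse lift e: with
   s near p+, e s =: t near p+, u t < t, i.e. s < e s: P h⁻¹ (lift e of h⁻¹).
Apply `ord_lemma` (file Ord) to ↥H. First alternative: H cyclic (translate to the statement). Second alternative: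
φ ∈ H with P φ, and for every n some g_n ∈ H with P g_n and ¬ P (g_n^n * φ⁻¹). Let e := u_φ (e t > t near p+),
f := u_{φ⁻¹} its inverse; then f t < t near p+; choose δ > 0 with f t < t on (p, p+δ]. Let g n := u_{g_n}.
(g n)^[n] ∘ f is the fixing lift of g_n^n * φ⁻¹ (fixLift_iter, fixLift_comp); by trichotomy for
x := g_n^n * φ⁻¹: x = 1, then (g n)^[n] ∘ f = id; or P x⁻¹, then the lift w of x satisfies w t < t near p+ (as
e' t > t near p+ for the inverse e' of w: t = w (e' t), put s = e' t: w s < s). In both cases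
(g n)^[n] (f t) ≤ t eventually. Apply `renorm` (file Renorm) and `globB` (file GlobB): F n is a lift of
φ^(k n) * g_{n+1} * (φ⁻¹)^(k n) ∈ H ≤ G.
-/
import Pool.Agent.H50.GS.Lifts
import Pool.Agent.H50.GS.Ord
import Pool.Agent.H50.GS.Renorm
import Pool.Agent.H50.GS.GlobB

set_option autoImplicit false
open Set Filter Topology MeasureTheory

namespace Pool.Agent.H50.GS

theorem stab_mono {p : ℝ} {g : Circle ≃ₜ Circle} {u : ℝ → ℝ} (hu : FixLift p g u) :
    StrictMono u := strictMono_of_deriv_pos hu.2.1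

theorem stab_tendsto {p : ℝ} {g : Circle ≃ₜ Circle} {u : ℝ → ℝ} (hu : FixLift p g u) :
    Tendsto u (𝓝[>] p) (𝓝[>] p) := by
  apply tendsto_nhdsWithin_of_tendsto_nhds_of_eventually_within
  · have h1 : ContinuousAt u p := hu.1.1.continuous.continuousAt
    have h2 : Tendsto u (𝓝 p) (𝓝 p) := by
      have h3 := h1.tendsto
      rw [hu.2.2] at h3
      exact h3
    exact h2.mono_left nhdsWithin_le_nhds
  · filter_upwards [self_mem_nhdsWithin] with t ht
    have h3 : u p < u t := stab_mono hu ht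
    rw [hu.2.2] at h3
    exact h3

/-- the positive cone -/
def stabP (p : ℝ) (g : Circle ≃ₜ Circle) : Prop :=
  ∃ u, FixLift p g u ∧ ∀ᶠ t in 𝓝[>] p, t < u t

theorem stabP_one (p : ℝ) : ¬ stabP p 1 := by
  rintro ⟨u, hu, h⟩
  have h1 : u = id := fixLift_unique hu (fixLift_one p)
  obtain ⟨t, ht⟩ := h.exists
  rw [h1] at ht
  exact lt_irrefl _ ht

theorem stabP_mul {p : ℝ} {a b : Circle ≃ₜ Circle} (ha : stabP p a) (hb : stabP p b) :
    stabP p (a * b) := by
  obtain ⟨u, hu, hu'⟩ := ha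
  obtain ⟨v, hv, hv'⟩ := hb
  refine ⟨u ∘ v, fixLift_comp hu hv, ?_⟩
  filter_upwards [hv', (stab_tendsto hv).eventually hu'] with t h1 h2
  exact h1.trans h2

theorem stabP_conj {p : ℝ} {a b : Circle ≃ₜ Circle} (ha : stabP p a) (hb : IsPos b)
    (hbp : b (Circle.exp p) = Circle.exp p) (hb' : IsPos b⁻¹) : stabP p (b * a * b⁻¹) := by
  obtain ⟨u, hu, hu'⟩ := ha
  obtain ⟨w, hw⟩ := exists_fixLift hb hbp
  obtain ⟨e, he, hwe, hew⟩ := fixLift_inv hw hb'
  refine ⟨(w ∘ u) ∘ e, fixLift_comp (fixLift_comp hw hu) he, ?_⟩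
  filter_upwards [(stab_tendsto he).eventually hu'] with t h1
  have h2 : w (e t) < w (u (e t)) := stab_mono hw h1
  rw [hwe] at h2
  exact h2

theorem stabP_inv {p : ℝ} {a : Circle ≃ₜ Circle} {u e : ℝ → ℝ}
    (he : FixLift p a⁻¹ e) (hue : ∀ t, u (e t) = t)
    (h : ∀ᶠ t in 𝓝[>] p, u t < t) : stabP p a⁻¹ := by
  refine ⟨e, he, ?_⟩
  filter_upwards [(stab_tendsto he).eventually h] with t h1
  rw [hue] at h1
  exact h1

theorem stab_sign {p : ℝ} {u : ℝ → ℝ} (hu : Continuous u) (h : ∀ᶠ t in 𝓝[>] p, u t ≠ t) :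
    (∀ᶠ t in 𝓝[>] p, t < u t) ∨ ∀ᶠ t in 𝓝[>] p, u t < t := by
  obtain ⟨c, hc, hsub⟩ := mem_nhdsGT_iff_exists_Ioo_subset.1 h
  have hmem : Ioo p c ∈ 𝓝[>] p := Ioo_mem_nhdsGT hc
  by_cases h1 : ∃ t1 ∈ Ioo p c, t1 < u t1
  · obtain ⟨t1, ht1, h1⟩ := h1
    left
    filter_upwards [hmem] with t ht
    by_contra hcon
    push Not at hcon
    obtain ⟨x, hx, hx'⟩ := isPreconnected_Ioo.intermediate_value₂ ht ht1 hu.continuousOn
      continuousOn_id hcon h1.le
    exact hsub hx hx'
  · push Not at h1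
    right
    filter_upwards [hmem] with t ht
    exact lt_of_le_of_ne (h1 t ht) (hsub ht)

theorem stabP_tri {p : ℝ} {a : Circle ≃ₜ Circle} (ha : IsPos a)
    (hap : a (Circle.exp p) = Circle.exp p) (ha' : IsPos a⁻¹)
    (hiso : a ≠ 1 → ∀ᶠ t in 𝓝[>] p, a (Circle.exp t) ≠ Circle.exp t) :
    a = 1 ∨ stabP p a ∨ stabP p a⁻¹ := by
  by_cases h1 : a = 1
  · exact Or.inl h1
  right
  obtain ⟨u, hu⟩ := exists_fixLift ha hap
  obtain ⟨e, he, hue, heu⟩ := fixLift_inv hu ha'
  have hne : ∀ᶠ t in 𝓝[>] p, u t ≠ t := by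
    filter_upwards [hiso h1] with t ht hut
    apply ht
    rw [← hu.1.2.2 t, hut]
  rcases stab_sign hu.1.1.continuous hne with h2 | h2
  · exact Or.inl ⟨u, hu, h2⟩
  · exact Or.inr (stabP_inv he hue h2)

theorem stab {G : Subgroup (Circle ≃ₜ Circle)} (hC : C2Group G) (hm : Minimal G) (p : ℝ)
    (H : Subgroup (Circle ≃ₜ Circle)) (hHG : H ≤ G)
    (hfix : ∀ h ∈ H, h (Circle.exp p) = Circle.exp p) (hpos : ∀ h ∈ H, IsPos h)
    (hiso : ∀ h ∈ H, h ≠ 1 → ∀ᶠ t in 𝓝[>] p, h (Circle.exp t) ≠ Circle.exp t) :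
    LebErgodic G ∨ ∃ h0 ∈ H, ∀ h ∈ H, ∃ k : ℤ, h = h0 ^ k := by
  have htri : ∀ a ∈ H, a = 1 ∨ stabP p a ∨ stabP p a⁻¹ := fun a ha =>
    stabP_tri (hpos a ha) (hfix a ha) (hpos _ (H.inv_mem ha)) (hiso a ha)
  rcases ord_lemma (H := H) (fun h => stabP p (h : Circle ≃ₜ Circle))
    (by exact stabP_one p)
    (by intro a b ha hb; exact stabP_mul ha hb)
    (by
      intro a b ha
      exact stabP_conj ha (hpos b b.2) (hfix b b.2) (hpos _ (H.inv_mem b.2)))
    (by
      intro a
      rcases htri a a.2 with h | h | h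
      · exact Or.inl (Subtype.ext h)
      · exact Or.inr (Or.inl h)
      · exact Or.inr (Or.inr h)) with h | h
  · right
    obtain ⟨g0, hg0⟩ := h
    refine ⟨g0, g0.2, fun h hh => ?_⟩
    obtain ⟨k, hk⟩ := hg0 ⟨h, hh⟩
    exact ⟨k, by have := congrArg Subtype.val hk; simpa using this⟩
  · left
    obtain ⟨φ, hφ, hn⟩ := h
    choose g hg hgn using hn
    obtain ⟨e, he, he'⟩ := hφ
    obtain ⟨f, hf, hef, hfe⟩ := fixLift_inv he (hpos _ (H.inv_mem φ.2))
    have hflt : ∀ᶠ t in 𝓝[>] p, f t < t := by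
      filter_upwards [(stab_tendsto hf).eventually he'] with t h1
      rw [hef] at h1
      exact h1
    obtain ⟨c, hc, hsub⟩ := mem_nhdsGT_iff_exists_Ioc_subset.1 hflt
    choose u hu hu' using hg
    have hδ : 0 < c - p := sub_pos.2 hc
    obtain ⟨α, β, h1, h2, h3, k, hk⟩ := renorm (p := p) (δ := c - p) hδ (f := f) (e := e)
      hf.1.1 he.1.1 hf.2.1 he.2.1 hfe hef hf.2.2
      (by
        intro t ht
        rw [add_sub_cancel] at ht
        exact hsub ht)
      (g := u) (fun n => (hu n).1.1) (fun n => (hu n).2.1) (fun n => (hu n).2.2) hu'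
      (by
        intro n
        have hv := fixLift_comp (fixLift_iter (hu n) n) hf
        have hxH : ((g n : Circle ≃ₜ Circle)) ^ n * (φ : Circle ≃ₜ Circle)⁻¹ ∈ H :=
          H.mul_mem (H.pow_mem (g n).2 n) (H.inv_mem φ.2)
        rcases htri _ hxH with h | h | h
        · rw [h] at hv
          have h4 := fixLift_unique hv (fixLift_one p)
          filter_upwards with t
          have h5 := congrFun h4 t
          exact h5.le
        · exact absurd h (hgn n)
        · obtain ⟨e', he1, he2⟩ := h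
          obtain ⟨e'', he3, he4, he5⟩ := fixLift_inv hv (hpos _ (H.inv_mem hxH))
          have h6 := fixLift_unique he1 he3
          filter_upwards [(stab_tendsto hv).eventually he2] with t h7
          rw [h6, he5] at h7
          exact h7.le)
    refine globB hC hm h2 hk (fun n => ⟨(φ : Circle ≃ₜ Circle) ^ k n * g (n + 1) *
      (φ : Circle ≃ₜ Circle)⁻¹ ^ k n, hHG ?_, fun t _ => ?_⟩)
    · exact H.mul_mem (H.mul_mem (H.pow_mem φ.2 _) (g (n + 1)).2) (H.pow_mem (H.inv_mem φ.2) _)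
    · exact (fixLift_comp (fixLift_comp (fixLift_iter he (k n)) (hu (n + 1)))
        (fixLift_iter hf (k n))).1.2.2 t

end Pool.Agent.H50.GS
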