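/-
helper50, project GS, job GS-DISC: local discreteness. G minimal, C²; p is a hyperbolic fixed point of some element
of G and the nontrivial orientation preserving elements of G fixing exp p have no other fixed points close to p on the
right. If there are nontrivial elements of G with local lifts U n on (α,β) tending to the identity in C¹ with bounded
second derivatives, then G is ergodic.

PROOF. Let u be the fixing lift of f at p, u'(p) ≠ 1; replacing f by f⁻¹ (inverse lift, derivative 1/u'(p)) we may assume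
u'(p) < 1; let e be the inverse lift.
(1) By `exists_lift_mem` there are h ∈ G and a lift v of h with v p ∈ (α, β). Let w be the inverse of v (a lift of h⁻¹:
take any lift w0 of h⁻¹, v ∘ w0 is a lift of 1, so v (w0 t) = t + 2πk for a constant k ∈ ℤ, put w t := w0 (t - 2πk);
then v (w t) = t; v is injective since v' ≠ 0 so w (v t) = t). By `conjSeq` the maps V n := w ∘ U (N+n) ∘ v satisfy on
(p-r, p+r) the hypotheses of `renormHyp` (except the sign), and they are local lifts there of h⁻¹ g_{N+n} h ∈ G, ≠ 1.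
(2) Case A: V n p > p for infinitely many n. Pass to the subsequence (n_j strictly increasing) and apply `renormHyp`
(f := u, e := e): F n := e^[k] ∘ V ∘ u^[k] is NearId on some (α', β') ⊂ (p, p+r); F n is on (α', β') a local lift of
f^{-k} (h⁻¹ g h) f^k ∈ G. `globB` gives ergodicity. [for t ∈ (α',β'), u^[k] t ∈ (p, p+r): u t < t near p; if needed
shrink r first so that 0 < u' < 1 on (p - r, p + r), so u maps (p, p+r) into itself]
(3) Case B: V n p < p for infinitely many n. Reflect: V'(t) := 2p - V(2p - t), u'(t) := 2p - u(2p - t), e' likewise,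
satisfy the hypotheses of `renormHyp`; we get NearId on (α', β') ⊂ (p, p+r) for the reflected maps
F'(t) = 2p - F(2p - t), F := e^[k] ∘ V ∘ u^[k]. Then F on (2p - β', 2p - α') moves to the left; with
α'' := 2p - β', β'' := 2p - α' the hypothesis of `globB_left` holds up to a translation by 2p (NearId is invariant
under conjugation by a translation): - F (-t) on (-β'', -α''), from F'(t) = 2p - F(2p - t) with t ↦ t + 2p.
(4) Case C: V n p = p for all large n. Let H be the subgroup of G of orientation preserving elements fixing exp p (it is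
a subgroup by isPos_mul, isPos_inv). By `stab` (hypothesis hiso) either G is ergodic or H = ⟨h0⟩. f ∈ H, f = h0^k with
k ≠ 0 because u'(p) ≠ 1. The element x n := h⁻¹ g_{N+n} h has the local lift V n near p with V n p = p and
(V n)'(p) → 1, so > 0: x n fixes exp p and is orientation preserving [a C² lift of x n coincides near p with V n up to a
constant 2πm, so its derivative at p is positive; the derivative of a lift has constant sign], x n ≠ 1. So x n = h0^{m_n}
with m_n ≠ 0. Let q := u_{h0}'(p) > 0 (fixing lift): q^k = u'(p) ≠ 1, so q ≠ 1, and (V n)'(p) = q^{m_n},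
|log (V n)'(p)| = |m_n| |log q| ≥ |log q| > 0, contradicting (V n)'(p) → 1.
-/
import Pool.Agent.H50.GS.Stab
import Pool.Agent.H50.GS.RenHyp
import Pool.Agent.H50.GS.ConjSeq

set_option autoImplicit false
open Set Filter Topology MeasureTheory

namespace Pool.Agent.H50.GS

/-- a continuous function on a preconnected set with values in `2πℤ` is constant -/
theorem disc_const_on {S : Set ℝ} (hS : IsPreconnected S) {φ : ℝ → ℝ} (hφ : ContinuousOn φ S)
    (h : ∀ t ∈ S, Circle.exp (φ t) = 1) {s t : ℝ} (hs : s ∈ S) (ht : t ∈ S) : φ s = φ t := by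
  have hd : IsDiscrete ((AddSubgroup.zmultiples (2 * Real.pi) : AddSubgroup ℝ) : Set ℝ) := by
    rw [isDiscrete_iff_discreteTopology]
    exact (inferInstance : DiscreteTopology (AddSubgroup.zmultiples (2 * Real.pi)))
  refine hS.constant_of_mapsTo hd hφ ?_ hs ht
  intro x hx
  obtain ⟨n, hn⟩ := Circle.exp_eq_one.1 (h x hx)
  show φ x ∈ AddSubgroup.zmultiples (2 * Real.pi)
  rw [AddSubgroup.mem_zmultiples_iff]
  exact ⟨n, by rw [hn]; simp⟩

theorem disc_inj {v : ℝ → ℝ} (hv : ContDiff ℝ 2 v) (hv' : ∀ t, deriv v t ≠ 0) :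
    Function.Injective v := by
  intro a b hab
  by_contra hne
  rcases lt_or_gt_of_ne hne with h | h
  · obtain ⟨c, -, hc⟩ := exists_deriv_eq_zero h (hv.continuous.continuousOn) hab
    exact hv' c hc
  · obtain ⟨c, -, hc⟩ := exists_deriv_eq_zero h (hv.continuous.continuousOn) hab.symm
    exact hv' c hc

/-- the inverse of a lift -/
theorem disc_inverse {g : Circle ≃ₜ Circle} {v w0 : ℝ → ℝ} (hv : IsLift g v)
    (hw : IsLift g⁻¹ w0) : ∃ w, IsLift g⁻¹ w ∧ (∀ t, v (w t) = t) ∧ ∀ t, w (v t) = t := by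
  have h1 : ∀ t, Circle.exp (v (w0 t) - t) = 1 := by
    intro t
    rw [Circle.exp_sub, hv.2.2, hw.2.2]
    have : g (g⁻¹ (Circle.exp t)) = Circle.exp t := g.apply_symm_apply _
    rw [this, div_self']
  have hcont : Continuous (fun t => v (w0 t) - t) :=
    (hv.1.continuous.comp hw.1.continuous).sub continuous_id
  set c : ℝ := v (w0 0) - 0 with hc
  have h2 : ∀ t, v (w0 t) - t = c := by
    intro t
    exact disc_const_on isPreconnected_univ hcont.continuousOn (fun t _ => h1 t)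
      (mem_univ t) (mem_univ 0)
  have hc1 : Circle.exp c = 1 := h1 0
  refine ⟨fun t => w0 (t - c), ⟨?_, ?_, ?_⟩, ?_, ?_⟩
  · exact hw.1.comp (contDiff_id.sub contDiff_const)
  · intro t
    rw [deriv_comp_sub_const]
    exact hw.2.1 _
  · intro t
    rw [hw.2.2, Circle.exp_sub, hc1, div_one]
  · intro t
    have := h2 (t - c)
    show v (w0 (t - c)) = t
    linarith
  · intro t
    apply disc_inj hv.1 hv.2.1
    have := h2 (v t - c)
    show v (w0 (v t - c)) = v t
    linarith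

theorem disc_iter_exp {g : Circle ≃ₜ Circle} {u : ℝ → ℝ}
    (hu : ∀ t, Circle.exp (u t) = g (Circle.exp t)) (k : ℕ) (t : ℝ) :
    Circle.exp (u^[k] t) = (g ^ k) (Circle.exp t) := by
  induction k generalizing t with
  | zero => simp
  | succ k ih =>
    rw [Function.iterate_succ_apply, ih, hu, pow_succ]
    rfl

/-- NearId is invariant under translations -/
theorem disc_nearId_translate {α β : ℝ} {F : ℕ → ℝ → ℝ} (hF : NearId α β F) (c : ℝ) :
    NearId (α - c) (β - c) (fun n t => F n (t + c) - c) := by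
  obtain ⟨h1, h2, h3, h4, C, h5⟩ := hF
  have hmem : ∀ t ∈ Ioo (α - c) (β - c), t + c ∈ Ioo α β := by
    intro t ht
    exact ⟨by linarith [ht.1], by linarith [ht.2]⟩
  have hd : ∀ n t, deriv (fun t => F n (t + c) - c) t = deriv (F n) (t + c) := by
    intro n t
    rw [deriv_sub_const, deriv_comp_add_const]
  refine ⟨?_, ?_, ?_, ?_, C, ?_⟩
  · intro n t ht
    have := h1 n _ (hmem t ht)
    show t < F n (t + c) - c
    linarith
  · intro n t ht
    have := h2 n _ (hmem t ht)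
    exact (this.comp t (differentiableAt_id.add_const c)).sub_const c
  · intro n t ht
    rw [hd]
    exact h3 n _ (hmem t ht)
  · intro ε hε
    obtain ⟨N, hN⟩ := h4 ε hε
    refine ⟨N, fun n hn t ht => ?_⟩
    have := hN n hn _ (hmem t ht)
    have h : F n (t + c) - c - t = F n (t + c) - (t + c) := by ring
    show |F n (t + c) - c - t| < ε
    rw [h]
    exact this
  · intro n s hs t ht
    have := h5 n _ (hmem s hs) _ (hmem t ht)
    rw [hd, hd]
    have h : s + c - (t + c) = s - t := by ring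
    rw [h] at this
    exact this

/-- near a point with derivative less than one an increasing map pushes points towards the fixed point -/
theorem disc_shrink {p r : ℝ} (hr : 0 < r) {u : ℝ → ℝ} (hu : ContDiff ℝ 2 u)
    (hu' : ∀ t, 0 < deriv u t) (hp : u p = p) (hlam : deriv u p < 1) :
    ∃ r' > 0, r' ≤ r ∧ (∀ t ∈ Ioo p (p + r'), u t ∈ Ioo p (p + r')) ∧
      ∀ t ∈ Ioo (p - r') p, u t ∈ Ioo (p - r') p := by
  have hc : Continuous (deriv u) := hu.continuous_deriv (by norm_num)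
  have hev : ∀ᶠ t in 𝓝 p, deriv u t < 1 := hc.continuousAt.eventually_lt continuousAt_const hlam
  obtain ⟨ε, hε, hball⟩ := Metric.eventually_nhds_iff.1 hev
  have hmono : StrictMono u := strictMono_of_deriv_pos hu'
  have hdiff : Differentiable ℝ u := hu.differentiable (by norm_num)
  refine ⟨min r ε, lt_min hr hε, min_le_left _ _, ?_, ?_⟩
  · intro t ht
    refine ⟨?_, ?_⟩
    · have := hmono ht.1
      rwa [hp] at this
    · obtain ⟨c, hc, hceq⟩ := exists_deriv_eq_slope u ht.1 (hdiff.continuous.continuousOn)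
        (hdiff.differentiableOn)
      have h1 : deriv u c < 1 := by
        apply hball
        rw [Real.dist_eq, abs_lt]
        have : t < p + ε := lt_of_lt_of_le ht.2 (by linarith [min_le_right r ε])
        constructor <;> linarith [hc.1, hc.2]
      have h2 : 0 < t - p := by linarith [ht.1]
      rw [hceq, div_lt_one h2, hp] at h1
      linarith [ht.2]
  · intro t ht
    refine ⟨?_, ?_⟩
    · obtain ⟨c, hc, hceq⟩ := exists_deriv_eq_slope u ht.2 (hdiff.continuous.continuousOn)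
        (hdiff.differentiableOn)
      have h1 : deriv u c < 1 := by
        apply hball
        rw [Real.dist_eq, abs_lt]
        have : p - ε < t := lt_of_le_of_lt (by linarith [min_le_right r ε]) ht.1
        constructor <;> linarith [hc.1, hc.2]
      have h2 : 0 < p - t := by linarith [ht.2]
      rw [hceq, div_lt_one h2, hp] at h1
      linarith [ht.1]
    · have := hmono ht.2
      rwa [hp] at this


/-- Case A: all the maps move `p` to the right -/
theorem disc_caseA {G : Subgroup (Circle ≃ₜ Circle)} (hC : C2Group G) (hm : Minimal G) {p r : ℝ}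
    (hr : 0 < r) {f : Circle ≃ₜ Circle} (hfG : f ∈ G) {u e : ℝ → ℝ} (hu : FixLift p f u)
    (he : FixLift p f⁻¹ e) (hue : ∀ t, u (e t) = t) (heu : ∀ t, e (u t) = t)
    (hlam : deriv u p < 1) {V : ℕ → ℝ → ℝ}
    (hV : ∀ n, ∃ g ∈ G, ∀ t ∈ Ioo (p - r) (p + r), Circle.exp (V n t) = g (Circle.exp t))
    (hV2 : ∀ n, ContDiffOn ℝ 2 (V n) (Ioo (p - r) (p + r)))
    (h0 : ∀ ε > 0, ∃ N, ∀ n ≥ N, ∀ t ∈ Ioo (p - r) (p + r), |V n t - t| < ε)
    (h1 : ∀ ε > 0, ∃ N, ∀ n ≥ N, ∀ t ∈ Ioo (p - r) (p + r), |deriv (V n) t - 1| < ε)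
    {M : ℝ} (h2 : ∀ n, ∀ t ∈ Ioo (p - r) (p + r), |deriv (deriv (V n)) t| ≤ M)
    (hpos : ∀ n, p < V n p) : LebErgodic G := by
  obtain ⟨r', hr', hr'r, hin, -⟩ := disc_shrink hr hu.1.1 hu.2.1 hu.2.2 hlam
  have hsub : Ioo (p - r') (p + r') ⊆ Ioo (p - r) (p + r) :=
    Ioo_subset_Ioo (by linarith) (by linarith)
  obtain ⟨α, β, hα, hαβ, hβ, N, k, hN⟩ := renormHyp hr' hu.1.1 he.1.1 hu.2.1 he.2.1 hue heu hu.2.2
    hlam (fun n => (hV2 n).mono hsub)
    (fun ε hε => by
      obtain ⟨N, hN⟩ := h0 ε hε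
      exact ⟨N, fun n hn t ht => hN n hn t (hsub ht)⟩)
    (fun ε hε => by
      obtain ⟨N, hN⟩ := h1 ε hε
      exact ⟨N, fun n hn t ht => hN n hn t (hsub ht)⟩)
    (fun n t ht => h2 n t (hsub ht)) hpos
  refine globB hC hm hαβ hN ?_
  intro n
  obtain ⟨g, hg, hgt⟩ := hV (N + n)
  refine ⟨(f⁻¹) ^ k n * (g * f ^ k n), G.mul_mem (G.pow_mem (G.inv_mem hfG) _)
    (G.mul_mem hg (G.pow_mem hfG _)), ?_⟩
  intro t ht
  have hmem : ∀ j : ℕ, u^[j] t ∈ Ioo p (p + r') := by
    intro j
    induction j with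
    | zero => exact ⟨lt_trans hα ht.1, lt_trans ht.2 hβ⟩
    | succ j ih =>
      rw [Function.iterate_succ_apply']
      exact hin _ ih
  have h3 : u^[k n] t ∈ Ioo (p - r) (p + r) := by
    have := hmem (k n)
    exact ⟨by linarith [this.1], by linarith [this.2]⟩
  rw [disc_iter_exp he.1.2.2, hgt _ h3, disc_iter_exp hu.1.2.2]
  rfl

theorem disc_refl_iter {p : ℝ} {u : ℝ → ℝ} (k : ℕ) (t : ℝ) :
    (fun s => 2 * p - u (2 * p - s))^[k] t = 2 * p - u^[k] (2 * p - t) := by
  induction k generalizing t with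
  | zero => simp
  | succ k ih =>
    rw [Function.iterate_succ_apply, ih, Function.iterate_succ_apply]
    congr 2
    ring

theorem disc_refl_deriv (p : ℝ) (u : ℝ → ℝ) (t : ℝ) :
    deriv (fun s => 2 * p - u (2 * p - s)) t = deriv u (2 * p - t) := by
  rw [deriv_const_sub, deriv_comp_const_sub, neg_neg]

/-- Case B: all the maps move `p` to the left -/
theorem disc_caseB {G : Subgroup (Circle ≃ₜ Circle)} (hC : C2Group G) (hm : Minimal G) {p r : ℝ}
    (hr : 0 < r) {f : Circle ≃ₜ Circle} (hfG : f ∈ G) {u e : ℝ → ℝ} (hu : FixLift p f u)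
    (he : FixLift p f⁻¹ e) (hue : ∀ t, u (e t) = t) (heu : ∀ t, e (u t) = t)
    (hlam : deriv u p < 1) {V : ℕ → ℝ → ℝ}
    (hV : ∀ n, ∃ g ∈ G, ∀ t ∈ Ioo (p - r) (p + r), Circle.exp (V n t) = g (Circle.exp t))
    (hV2 : ∀ n, ContDiffOn ℝ 2 (V n) (Ioo (p - r) (p + r)))
    (h0 : ∀ ε > 0, ∃ N, ∀ n ≥ N, ∀ t ∈ Ioo (p - r) (p + r), |V n t - t| < ε)
    (h1 : ∀ ε > 0, ∃ N, ∀ n ≥ N, ∀ t ∈ Ioo (p - r) (p + r), |deriv (V n) t - 1| < ε)
    {M : ℝ} (h2 : ∀ n, ∀ t ∈ Ioo (p - r) (p + r), |deriv (deriv (V n)) t| ≤ M)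
    (hpos : ∀ n, V n p < p) : LebErgodic G := by
  obtain ⟨r', hr', hr'r, -, hin⟩ := disc_shrink hr hu.1.1 hu.2.1 hu.2.2 hlam
  have hsub : ∀ t ∈ Ioo (p - r') (p + r'), 2 * p - t ∈ Ioo (p - r) (p + r) := by
    intro t ht
    exact ⟨by linarith [ht.2], by linarith [ht.1]⟩
  have hrefl2 : ∀ {w : ℝ → ℝ}, ContDiff ℝ 2 w → ContDiff ℝ 2 (fun s => 2 * p - w (2 * p - s)) := by
    intro w hw
    exact contDiff_const.sub (hw.comp (contDiff_const.sub contDiff_id))
  have hp2 : 2 * p - p = p := by ring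
  obtain ⟨α, β, hα, hαβ, hβ, N, k, hN⟩ := renormHyp (p := p) hr'
    (f := fun s => 2 * p - u (2 * p - s)) (e := fun s => 2 * p - e (2 * p - s))
    (U := fun n s => 2 * p - V n (2 * p - s)) (M := M)
    (hrefl2 hu.1.1) (hrefl2 he.1.1)
    (fun t => by rw [disc_refl_deriv]; exact hu.2.1 _)
    (fun t => by rw [disc_refl_deriv]; exact he.2.1 _)
    (fun t => by
      show 2 * p - u (2 * p - (2 * p - e (2 * p - t))) = t
      have : 2 * p - (2 * p - e (2 * p - t)) = e (2 * p - t) := by ring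
      rw [this, hue]; ring)
    (fun t => by
      show 2 * p - e (2 * p - (2 * p - u (2 * p - t))) = t
      have : 2 * p - (2 * p - u (2 * p - t)) = u (2 * p - t) := by ring
      rw [this, heu]; ring)
    (by show 2 * p - u (2 * p - p) = p; rw [hp2, hu.2.2]; ring)
    (by rw [disc_refl_deriv, hp2]; exact hlam)
    (fun n => by
      refine contDiffOn_const.sub ((hV2 n).comp (contDiff_const.sub contDiff_id).contDiffOn ?_)
      intro t ht
      exact hsub t ht)
    (fun ε hε => by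
      obtain ⟨N, hN⟩ := h0 ε hε
      refine ⟨N, fun n hn t ht => ?_⟩
      have := hN n hn _ (hsub t ht)
      have h : 2 * p - V n (2 * p - t) - t = -(V n (2 * p - t) - (2 * p - t)) := by ring
      show |2 * p - V n (2 * p - t) - t| < ε
      rw [h, abs_neg]
      exact this)
    (fun ε hε => by
      obtain ⟨N, hN⟩ := h1 ε hε
      refine ⟨N, fun n hn t ht => ?_⟩
      have := hN n hn _ (hsub t ht)
      rw [disc_refl_deriv]
      exact this)
    (fun n t ht => by
      have hfun : deriv (fun s => 2 * p - V n (2 * p - s)) = fun t => deriv (V n) (2 * p - t) := by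
        funext t
        rw [disc_refl_deriv]
      rw [hfun, deriv_comp_const_sub, abs_neg]
      exact h2 n _ (hsub t ht))
    (fun n => by
      show p < 2 * p - V n (2 * p - p)
      rw [hp2]
      linarith [hpos n])
  have hαβ' : 2 * p - β < 2 * p - α := by linarith
  refine globB_left hC hm hαβ' (F := fun n t => e^[k n] (V (N + n) (u^[k n] t))) ?_ ?_
  · have h3 := disc_nearId_translate hN (2 * p)
    have e1 : α - 2 * p = -(2 * p - α) := by ring
    have e2 : β - 2 * p = -(2 * p - β) := by ring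
    rw [e1, e2] at h3
    convert h3 using 2 with n
    funext t
    rw [disc_refl_iter, disc_refl_iter]
    have e3 : 2 * p - (t + 2 * p) = -t := by ring
    have e4 : ∀ x : ℝ, 2 * p - (2 * p - x) = x := fun x => by ring
    rw [e3, e4, e4]
    ring
  · intro n
    obtain ⟨g, hg, hgt⟩ := hV (N + n)
    refine ⟨(f⁻¹) ^ k n * (g * f ^ k n), G.mul_mem (G.pow_mem (G.inv_mem hfG) _)
      (G.mul_mem hg (G.pow_mem hfG _)), ?_⟩
    intro t ht
    have hmem : ∀ j : ℕ, u^[j] t ∈ Ioo (p - r') p := by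
      intro j
      induction j with
      | zero => exact ⟨by have := ht.1; simp only [Function.iterate_zero, id]; linarith,
          by have := ht.2; simp only [Function.iterate_zero, id]; linarith⟩
      | succ j ih =>
        rw [Function.iterate_succ_apply']
        exact hin _ ih
    have h3 : u^[k n] t ∈ Ioo (p - r) (p + r) := by
      have := hmem (k n)
      exact ⟨by linarith [this.1], by linarith [this.2]⟩
    rw [disc_iter_exp he.1.2.2, hgt _ h3, disc_iter_exp hu.1.2.2]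
    rfl


/-- derivative at the fixed point of the fixing lift of an integer power -/
theorem disc_zpow {G : Subgroup (Circle ≃ₜ Circle)} {p : ℝ} {h0 : Circle ≃ₜ Circle} {u0 e0 : ℝ → ℝ}
    (hu0 : FixLift p h0 u0) (he0 : FixLift p h0⁻¹ e0) (hue : ∀ t, u0 (e0 t) = t)
    (k : ℤ) {w : ℝ → ℝ} (hw : FixLift p (h0 ^ k) w) : deriv w p = (deriv u0 p) ^ k := by
  have hdu : HasDerivAt u0 (deriv u0 p) p :=
    (hu0.1.1.differentiable (by norm_num) p).hasDerivAt
  have hde : HasDerivAt e0 (deriv e0 p) p :=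
    (he0.1.1.differentiable (by norm_num) p).hasDerivAt
  have hinv : deriv u0 p * deriv e0 p = 1 := by
    have h1 : HasDerivAt (u0 ∘ e0) (deriv u0 p * deriv e0 p) p := by
      apply HasDerivAt.comp
      · rw [he0.2.2]; exact hdu
      · exact hde
    have h2 : u0 ∘ e0 = id := funext hue
    rw [h2] at h1
    exact h1.unique (hasDerivAt_id p)
  obtain ⟨n, rfl | rfl⟩ := k.eq_nat_or_neg
  · rw [zpow_natCast] at hw
    rw [fixLift_unique hw (fixLift_iter hu0 n), zpow_natCast]
    exact (HasDerivAt.iterate p hdu hu0.2.2 n).deriv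
  · rw [zpow_neg, zpow_natCast, ← inv_pow] at hw
    rw [fixLift_unique hw (fixLift_iter he0 n), zpow_neg, zpow_natCast, ← inv_pow]
    rw [(HasDerivAt.iterate p hde he0.2.2 n).deriv]
    congr 1
    exact eq_inv_of_mul_eq_one_right hinv

/-- Case C: all the maps fix `p` -/
theorem disc_caseC {G : Subgroup (Circle ≃ₜ Circle)} (hC : C2Group G) (hm : Minimal G) {p r : ℝ}
    (hr : 0 < r) {f : Circle ≃ₜ Circle} (hfG : f ∈ G) {u : ℝ → ℝ} (hu : FixLift p f u)
    (hlam : deriv u p ≠ 1)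
    (hiso : ∀ g ∈ G, IsPos g → g (Circle.exp p) = Circle.exp p → g ≠ 1 →
      ∀ᶠ t in 𝓝[>] p, g (Circle.exp t) ≠ Circle.exp t) {V : ℕ → ℝ → ℝ}
    (hV : ∀ n, ∃ g ∈ G, g ≠ 1 ∧ ∀ t ∈ Ioo (p - r) (p + r), Circle.exp (V n t) = g (Circle.exp t))
    (hV2 : ∀ n, ContDiffOn ℝ 2 (V n) (Ioo (p - r) (p + r)))
    (h1 : ∀ ε > 0, ∃ N, ∀ n ≥ N, ∀ t ∈ Ioo (p - r) (p + r), |deriv (V n) t - 1| < ε)
    (hpos : ∀ n, V n p = p) : LebErgodic G := by
  let H : Subgroup (Circle ≃ₜ Circle) :=
    { carrier := {g | g ∈ G ∧ IsPos g ∧ g (Circle.exp p) = Circle.exp p}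
      mul_mem' := by
        rintro a b ⟨ha1, ha2, ha3⟩ ⟨hb1, hb2, hb3⟩
        refine ⟨G.mul_mem ha1 hb1, isPos_mul ha2 hb2, ?_⟩
        show a (b (Circle.exp p)) = Circle.exp p
        rw [hb3, ha3]
      one_mem' := by
        refine ⟨G.one_mem, ⟨id, ?_, ?_⟩, rfl⟩
        · exact (fixLift_one 0).1
        · exact (fixLift_one 0).2.1
      inv_mem' := by
        rintro a ⟨ha1, ha2, ha3⟩
        obtain ⟨v, hv⟩ := hC _ (G.inv_mem ha1)
        refine ⟨G.inv_mem ha1, isPos_inv ha2 hv, ?_⟩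
        have : a⁻¹ (a (Circle.exp p)) = Circle.exp p := a.symm_apply_apply _
        rwa [ha3] at this }
  have hHmem : ∀ g, g ∈ H ↔ g ∈ G ∧ IsPos g ∧ g (Circle.exp p) = Circle.exp p := fun g => Iff.rfl
  have hfix : ∀ {g : Circle ≃ₜ Circle} {w : ℝ → ℝ}, FixLift p g w →
      IsPos g ∧ g (Circle.exp p) = Circle.exp p := by
    intro g w hw
    refine ⟨⟨w, hw.1, hw.2.1⟩, ?_⟩
    rw [← hw.1.2.2, hw.2.2]
  rcases stab hC hm p H (fun g hg => hg.1) (fun g hg => hg.2.2) (fun g hg => hg.2.1)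
    (fun g hg hne => hiso g hg.1 hg.2.1 hg.2.2 hne) with h | ⟨g0, hg0, hcyc⟩
  · exact h
  exfalso
  obtain ⟨u0, hu0⟩ := exists_fixLift hg0.2.1 hg0.2.2
  have hg0' : IsPos g0⁻¹ := (H.inv_mem hg0).2.1
  obtain ⟨e0, he0, hue0, -⟩ := fixLift_inv hu0 hg0'
  set q := deriv u0 p with hq
  have hq0 : 0 < q := hu0.2.1 p
  have hq1 : q ≠ 1 := by
    intro hq1
    obtain ⟨k, hk⟩ := hcyc f ⟨hfG, hfix hu⟩
    have := disc_zpow (G := G) hu0 he0 hue0 k (w := u) (by rw [← hk]; exact hu)
    rw [← hq, hq1, one_zpow] at this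
    exact hlam this
  have hlog : Real.log q ≠ 0 := by
    intro h
    rcases Real.log_eq_zero.1 h with h | h | h
    · exact hq0.ne' h
    · exact hq1 h
    · linarith
  -- choose n such that the derivative of `V n` at `p` is close to one
  have hcont : ∀ᶠ y in 𝓝 (1 : ℝ), |Real.log y| < |Real.log q| := by
    have hc : ContinuousAt (fun y => |Real.log y|) 1 :=
      (Real.continuousAt_log one_ne_zero).abs
    have : (fun y => |Real.log y|) 1 < |Real.log q| := by
      simp only [Real.log_one, abs_zero]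
      exact abs_pos.2 hlog
    exact hc.eventually_lt continuousAt_const this
  obtain ⟨ε, hε, hball⟩ := Metric.eventually_nhds_iff.1 hcont
  obtain ⟨N, hN⟩ := h1 (min ε (1 / 2)) (lt_min hε (by norm_num))
  have hpmem : p ∈ Ioo (p - r) (p + r) := ⟨by linarith, by linarith⟩
  have hder := hN N le_rfl p hpmem
  have hder1 : |Real.log (deriv (V N) p)| < |Real.log q| := by
    apply hball
    rw [Real.dist_eq]
    exact lt_of_lt_of_le hder (min_le_left _ _)
  have hder2 : 0 < deriv (V N) p := by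
    have := lt_of_lt_of_le hder (min_le_right _ _)
    rw [abs_lt] at this
    linarith [this.1]
  obtain ⟨g, hgG, hg1, hgt⟩ := hV N
  obtain ⟨l, hl⟩ := hC g hgG
  have hexp1 : ∀ t ∈ Ioo (p - r) (p + r), Circle.exp (l t - V N t) = 1 := by
    intro t ht
    rw [Circle.exp_sub, hl.2.2, hgt t ht, div_self']
  set c := l p - V N p with hc
  have hconst : ∀ t ∈ Ioo (p - r) (p + r), l t - V N t = c := by
    intro t ht
    exact disc_const_on isPreconnected_Ioo
      (hl.1.continuous.continuousOn.sub (hV2 N).continuousOn) hexp1 ht hpmem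
  have hcexp : Circle.exp c = 1 := hexp1 p hpmem
  set L : ℝ → ℝ := fun t => l t - c with hL
  have hLV : ∀ᶠ t in 𝓝 p, L t = V N t := by
    filter_upwards [Ioo_mem_nhds hpmem.1 hpmem.2] with t ht
    have := hconst t ht
    show l t - c = V N t
    linarith
  have hLd : deriv L p = deriv (V N) p := Filter.EventuallyEq.deriv_eq hLV
  have hLlift : IsLift g L := by
    refine ⟨hl.1.sub contDiff_const, ?_, ?_⟩
    · intro t
      rw [hL, deriv_sub_const]
      exact hl.2.1 t
    · intro t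
      show Circle.exp (l t - c) = g (Circle.exp t)
      rw [Circle.exp_sub, hcexp, div_one, hl.2.2]
  have hLpos : ∀ t, 0 < deriv L t := by
    have hdc : Continuous (deriv L) := hLlift.1.continuous_deriv (by norm_num)
    intro t
    by_contra hneg
    push Not at hneg
    have h0 : (0 : ℝ) ∈ range (deriv L) := by
      apply mem_range_of_exists_le_of_exists_ge hdc ⟨t, hneg⟩ ⟨p, ?_⟩
      rw [hLd]; exact hder2.le
    obtain ⟨s, hs⟩ := h0
    exact hLlift.2.1 s hs
  have hLfix : FixLift p g L := by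
    refine ⟨hLlift, hLpos, ?_⟩
    have := hconst p hpmem
    show l p - c = p
    rw [hpos N] at this
    linarith
  obtain ⟨k, hk⟩ := hcyc g ⟨hgG, hfix hLfix⟩
  have hk0 : k ≠ 0 := by
    rintro rfl
    rw [zpow_zero] at hk
    exact hg1 hk
  have h3 := disc_zpow (G := G) hu0 he0 hue0 k (w := L) (by rw [← hk]; exact hLfix)
  rw [hLd, ← hq] at h3
  rw [h3, Real.log_zpow, abs_mul] at hder1
  have h4 : (1 : ℝ) ≤ |(k : ℝ)| := by
    have : (1 : ℤ) ≤ |k| := Int.one_le_abs hk0
    exact_mod_cast this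
  have h5 : 0 < |Real.log q| := abs_pos.2 hlog
  nlinarith

/-- the three cases together -/
theorem disc_core {G : Subgroup (Circle ≃ₜ Circle)} (hC : C2Group G) (hm : Minimal G) {p r : ℝ}
    (hr : 0 < r) {f : Circle ≃ₜ Circle} (hfG : f ∈ G) {u e : ℝ → ℝ} (hu : FixLift p f u)
    (he : FixLift p f⁻¹ e) (hue : ∀ t, u (e t) = t) (heu : ∀ t, e (u t) = t)
    (hlam : deriv u p < 1)
    (hiso : ∀ g ∈ G, IsPos g → g (Circle.exp p) = Circle.exp p → g ≠ 1 →
      ∀ᶠ t in 𝓝[>] p, g (Circle.exp t) ≠ Circle.exp t) {V : ℕ → ℝ → ℝ}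
    (hV : ∀ n, ∃ g ∈ G, g ≠ 1 ∧ ∀ t ∈ Ioo (p - r) (p + r), Circle.exp (V n t) = g (Circle.exp t))
    (hV2 : ∀ n, ContDiffOn ℝ 2 (V n) (Ioo (p - r) (p + r)))
    (h0 : ∀ ε > 0, ∃ N, ∀ n ≥ N, ∀ t ∈ Ioo (p - r) (p + r), |V n t - t| < ε)
    (h1 : ∀ ε > 0, ∃ N, ∀ n ≥ N, ∀ t ∈ Ioo (p - r) (p + r), |deriv (V n) t - 1| < ε)
    {M : ℝ} (h2 : ∀ n, ∀ t ∈ Ioo (p - r) (p + r), |deriv (deriv (V n)) t| ≤ M) :
    LebErgodic G := by
  have hsub : ∀ {P : ℕ → Prop}, (∃ᶠ n in atTop, P n) →
      ∃ φ : ℕ → ℕ, StrictMono φ ∧ ∀ n, P (φ n) := fun h => extraction_of_frequently_atTop h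
  by_cases hA : ∃ᶠ n in atTop, p < V n p
  · obtain ⟨φ, hφ, hP⟩ := hsub hA
    refine disc_caseA hC hm hr hfG hu he hue heu hlam (V := fun n => V (φ n)) (M := M)
      (fun n => ?_) (fun n => hV2 _) ?_ ?_ (fun n => h2 _) hP
    · obtain ⟨g, hg, -, hgt⟩ := hV (φ n)
      exact ⟨g, hg, hgt⟩
    · intro ε hε
      obtain ⟨N, hN⟩ := h0 ε hε
      exact ⟨N, fun n hn => hN _ (le_trans hn (hφ.id_le n))⟩
    · intro ε hε
      obtain ⟨N, hN⟩ := h1 ε hε
      exact ⟨N, fun n hn => hN _ (le_trans hn (hφ.id_le n))⟩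
  by_cases hB : ∃ᶠ n in atTop, V n p < p
  · obtain ⟨φ, hφ, hP⟩ := hsub hB
    refine disc_caseB hC hm hr hfG hu he hue heu hlam (V := fun n => V (φ n)) (M := M)
      (fun n => ?_) (fun n => hV2 _) ?_ ?_ (fun n => h2 _) hP
    · obtain ⟨g, hg, -, hgt⟩ := hV (φ n)
      exact ⟨g, hg, hgt⟩
    · intro ε hε
      obtain ⟨N, hN⟩ := h0 ε hε
      exact ⟨N, fun n hn => hN _ (le_trans hn (hφ.id_le n))⟩
    · intro ε hε
      obtain ⟨N, hN⟩ := h1 ε hε
      exact ⟨N, fun n hn => hN _ (le_trans hn (hφ.id_le n))⟩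
  · have hC' : ∀ᶠ n in atTop, V n p = p := by
      filter_upwards [Filter.not_frequently.1 hA, Filter.not_frequently.1 hB] with n h3 h4
      exact le_antisymm (not_lt.1 h3) (not_lt.1 h4)
    obtain ⟨N0, hN0⟩ := eventually_atTop.1 hC'
    refine disc_caseC hC hm hr hfG hu hlam.ne hiso (V := fun n => V (N0 + n))
      (fun n => hV _) (fun n => hV2 _) ?_ (fun n => hN0 _ (Nat.le_add_right _ _))
    intro ε hε
    obtain ⟨N, hN⟩ := h1 ε hε
    exact ⟨N, fun n hn => hN _ (le_trans hn (Nat.le_add_left _ _))⟩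

theorem disc {G : Subgroup (Circle ≃ₜ Circle)} (hC : C2Group G) (hm : Minimal G) {p : ℝ}
    {f : Circle ≃ₜ Circle} (hfG : f ∈ G) {u : ℝ → ℝ} (hu : FixLift p f u) (hhyp : deriv u p ≠ 1)
    (hiso : ∀ g ∈ G, IsPos g → g (Circle.exp p) = Circle.exp p → g ≠ 1 →
      ∀ᶠ t in 𝓝[>] p, g (Circle.exp t) ≠ Circle.exp t)
    {α β : ℝ} (hαβ : α < β) {U : ℕ → ℝ → ℝ}
    (hU : ∀ n, ∃ g ∈ G, g ≠ 1 ∧ ∀ t ∈ Ioo α β, Circle.exp (U n t) = g (Circle.exp t))
    (hU2 : ∀ n, ContDiffOn ℝ 2 (U n) (Ioo α β))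
    (h0 : ∀ ε > 0, ∃ N, ∀ n ≥ N, ∀ t ∈ Ioo α β, |U n t - t| < ε)
    (h1 : ∀ ε > 0, ∃ N, ∀ n ≥ N, ∀ t ∈ Ioo α β, |deriv (U n) t - 1| < ε)
    {M : ℝ} (h2 : ∀ n, ∀ t ∈ Ioo α β, |deriv (deriv (U n)) t| ≤ M) : LebErgodic G := by
  obtain ⟨h, hhG, v, hv, hvp⟩ := exists_lift_mem hC hm p hαβ
  obtain ⟨w0, hw0⟩ := hC _ (G.inv_mem hhG)
  obtain ⟨w, hw, hvw, hwv⟩ := disc_inverse hv hw0
  obtain ⟨r, hr, N, c1, c2, c3, c4, M', c5⟩ := conjSeq hv.1 hw.1 hv.2.1 hvw hwv hvp hU2 h0 h1 h2
  have hV : ∀ n, ∃ g ∈ G, g ≠ 1 ∧ ∀ t ∈ Ioo (p - r) (p + r),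
      Circle.exp ((fun n t => w (U (N + n) (v t))) n t) = g (Circle.exp t) := by
    intro n
    obtain ⟨g, hg, hg1, hgt⟩ := hU (N + n)
    refine ⟨h⁻¹ * (g * h), G.mul_mem (G.inv_mem hhG) (G.mul_mem hg hhG), ?_, ?_⟩
    · intro h3
      apply hg1
      have h4 : g * h = h := by
        have := congrArg (fun x => h * x) h3
        simpa using this
      simpa using h4
    · intro t ht
      show Circle.exp (w (U (N + n) (v t))) = _
      rw [hw.2.2, hgt _ (c1 t ht).1, hv.2.2]
      rfl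
  obtain ⟨v1, hv1⟩ := hC _ (G.inv_mem hfG)
  have hfinv : IsPos f⁻¹ := isPos_inv ⟨u, hu.1, hu.2.1⟩ hv1
  obtain ⟨e, he, hue, heu⟩ := fixLift_inv hu hfinv
  have hdu : HasDerivAt u (deriv u p) p :=
    (hu.1.1.differentiable (by norm_num) p).hasDerivAt
  have hde : HasDerivAt e (deriv e p) p :=
    (he.1.1.differentiable (by norm_num) p).hasDerivAt
  have hinv : deriv u p * deriv e p = 1 := by
    have h1 : HasDerivAt (u ∘ e) (deriv u p * deriv e p) p := by
      apply HasDerivAt.comp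
      · rw [he.2.2]; exact hdu
      · exact hde
    have h2 : u ∘ e = id := funext hue
    rw [h2] at h1
    exact h1.unique (hasDerivAt_id p)
  rcases lt_or_gt_of_ne hhyp with hlt | hgt
  · exact disc_core hC hm hr hfG hu he hue heu hlt hiso hV c2 c3 c4 c5
  · have hlt : deriv e p < 1 := by
      have := he.2.1 p
      nlinarith
    exact disc_core hC hm hr (G.inv_mem hfG) he (by rw [inv_inv]; exact hu) heu hue hlt hiso hV
      c2 c3 c4 c5

end Pool.Agent.H50.GS
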