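/-
helper50, project GS, job GS-KOPELL: Kopell's lemma.

f, ψ C² with positive derivative, f a = a, f b = b, f t < t on (a, b); f and ψ commute; ψ z = z for one z ∈ (a,b).
Then ψ = id on (a, b).
PROOF. f, ψ are strictly increasing bijections onto their images. f^[k] z ∈ (a, z] decreases to a, and ψ fixes
every f^[k] z (commutation), so ψ a = a and, ψ being differentiable at a with the fixed points f^[k] z → a,
ψ'(a) = 1. Fix J := [f z, z]; ψ maps J onto J (it fixes both end points).
Apply `iter_facts` with p := a, δ := z - a (f t < t on (a, z]), a := f z ∈ (a, z) [the file Sum: L_k = log (f^[k])'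
is C-Lipschitz on [f z, z]]. For t ∈ J and m ∈ ℕ: ψ^[m] ∘ f^[k] = f^[k] ∘ ψ^[m], so
   log (ψ^[m])'(t) = log (ψ^[m])'(f^[k] t) + L_k(t) - L_k(ψ^[m] t),
where |L_k(t) - L_k(ψ^[m] t)| ≤ C (z - f z) =: V and (ψ^[m])'(f^[k] t) → (ψ^[m])'(a) = 1 as k → ∞ (f^[k] t → a).
Hence |log (ψ^[m])'(t)| ≤ V for all t ∈ J, all m: so (ψ^[m])' ≥ exp(-V) on J. Suppose ψ t0 ≠ t0 for some t0 ∈ J.
The intervals ψ^[m] [t0, ψ t0] (or [ψ t0, t0]) ⊂ J, m = 0, 1, 2, ..., are consecutive, non overlapping, so their
lengths tend to 0 (the monotone sequence ψ^[m] t0 converges in J); but by the mean value theorem their length is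
≥ exp(-V) |ψ t0 - t0| > 0. Contradiction. So ψ = id on J = [f z, z]. Finally every t ∈ (a, b) can be moved into
[f z, z] : if t ≤ z then t ∈ [f^[k+1] z, f^[k] z] for some k, t = f^[k] s with s ∈ J, ψ t = f^[k] ψ s = t; if t ≥ z
then f^[k] t ∈ [f z, z] for some k (the sequence f^[k] t decreases to a: the limit is a fixed point of f in [a, b),
hence a; the first k with f^[k] t ≤ z has f^[k] t ≥ f z), and f^[k] (ψ t) = ψ (f^[k] t) = f^[k] t, injectivity.
-/
import Pool.Agent.H50.GS.Sum

set_option autoImplicit false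
open Set Filter Topology MeasureTheory

namespace Pool.Agent.H50.GS

theorem kopell_contDiff_iter {ψ : ℝ → ℝ} (hψ : ContDiff ℝ 2 ψ) (m : ℕ) :
    ContDiff ℝ 2 (ψ^[m]) := by
  induction m with
  | zero => exact contDiff_id
  | succ m ih =>
    rw [Function.iterate_succ']
    exact hψ.comp ih

theorem kopell_deriv_iter_pos {ψ : ℝ → ℝ} (hψ : ContDiff ℝ 2 ψ) (hψ' : ∀ t, 0 < deriv ψ t)
    (m : ℕ) (t : ℝ) : 0 < deriv (ψ^[m]) t := by
  induction m with
  | zero => simp
  | succ m ih =>
    rw [Function.iterate_succ', deriv_comp]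
    · exact mul_pos (hψ' _) ih
    · exact (hψ.differentiable (by simp)) _
    · exact ((kopell_contDiff_iter hψ m).differentiable (by simp)) _

/-- on the fundamental interval the commuting map is the identity -/
theorem kopell_fund {a b : ℝ} {f ψ : ℝ → ℝ} (hf : ContDiff ℝ 2 f) (hψ : ContDiff ℝ 2 ψ)
    (hf' : ∀ t, 0 < deriv f t) (hψ' : ∀ t, 0 < deriv ψ t) (hfa : f a = a)
    (hcon : ∀ t ∈ Ioo a b, f t < t) (hcomm : ∀ t, f (ψ t) = ψ (f t))
    {z : ℝ} (hz : z ∈ Ioo a b) (hψz : ψ z = z) : ∀ t ∈ Icc (f z) z, ψ t = t := by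
  have hfm : StrictMono f := strictMono_of_deriv_pos hf'
  have hψm : StrictMono ψ := strictMono_of_deriv_pos hψ'
  have hfz : f z < z := hcon z hz
  have hfz' : a < f z := by
    have := hfm hz.1
    rwa [hfa] at this
  obtain ⟨⟨C, hC0, hC⟩, -, h3, h4, h5, h6⟩ := iter_facts (p := a) (δ := z - a) (a := f z)
    (by linarith [hz.1]) hf hf' hfa (by
      intro t ht
      rw [add_sub_cancel] at ht
      exact hcon t ⟨ht.1, lt_of_le_of_lt ht.2 hz.2⟩) (by
      rw [add_sub_cancel]
      exact ⟨hfz', hfz⟩)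
  rw [add_sub_cancel] at hC h3 h4
  have hcm : Function.Commute f ψ := hcomm
  have hcmk : ∀ k m t, f^[k] (ψ^[m] t) = ψ^[m] (f^[k] t) := fun k m t => hcm.iterate_iterate k m t
  have hlim : ∀ t ∈ Ioc a z, Tendsto (fun k => f^[k] t) atTop (𝓝[≠] a) := by
    intro t ht
    rw [tendsto_nhdsWithin_iff]
    constructor
    · rw [Metric.tendsto_atTop]
      intro ε hε
      obtain ⟨K, hK⟩ := h3 ε hε
      refine ⟨K, fun k hk => ?_⟩
      rw [Real.dist_eq, abs_of_pos (by linarith [(h4 k t ht).1])]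
      linarith [hK k hk t ht]
    · exact Eventually.of_forall fun k => (h4 k t ht).1.ne'
  have hzz : z ∈ Ioc a z := ⟨hz.1, le_rfl⟩
  have hψk : ∀ k, ψ (f^[k] z) = f^[k] z := by
    intro k
    have := hcmk k 1 z
    simp only [Function.iterate_one] at this
    rw [← this, hψz]
  have hψa : ψ a = a := by
    have h7 : Tendsto (fun k => f^[k] z) atTop (𝓝 a) :=
      (hlim z hzz).mono_right nhdsWithin_le_nhds
    have h8 : Tendsto (fun k => ψ (f^[k] z)) atTop (𝓝 (ψ a)) :=
      (hψ.continuous.tendsto a).comp h7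
    simp only [hψk] at h8
    exact tendsto_nhds_unique h8 h7
  have hda : deriv ψ a = 1 := by
    have h7 : HasDerivAt ψ (deriv ψ a) a := ((hψ.differentiable (by simp)) a).hasDerivAt
    rw [hasDerivAt_iff_tendsto_slope] at h7
    have h8 := h7.comp (hlim z hzz)
    have h9 : (slope ψ a ∘ fun k => f^[k] z) = fun _ => (1 : ℝ) := by
      funext k
      simp only [Function.comp_apply, slope_def_field]
      rw [hψk, hψa, div_self]
      exact sub_ne_zero.2 (h4 k z hzz).1.ne'
    rw [h9] at h8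
    exact tendsto_nhds_unique h8 tendsto_const_nhds
  have hdm : ∀ m, deriv (ψ^[m]) a = 1 := by
    intro m
    have h7 : HasDerivAt ψ (deriv ψ a) a := ((hψ.differentiable (by simp)) a).hasDerivAt
    have h8 := HasDerivAt.iterate a h7 hψa m
    rw [h8.deriv, hda, one_pow]
  have hJ : ∀ m, ∀ t ∈ Icc (f z) z, ψ^[m] t ∈ Icc (f z) z := by
    intro m t ht
    induction m with
    | zero => exact ht
    | succ m ih =>
      rw [Function.iterate_succ_apply']
      constructor
      · have h7 := hψm.monotone ih.1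
        rwa [← hcomm, hψz] at h7
      · have h7 := hψm.monotone ih.2
        rwa [hψz] at h7
  have hlog : ∀ m, ∀ t ∈ Icc (f z) z, |Real.log (deriv (ψ^[m]) t)| ≤ C * (z - f z) := by
    intro m t ht
    have htz : t ∈ Ioc a z := ⟨lt_of_lt_of_le hfz' ht.1, ht.2⟩
    have hdiff : ∀ k, Differentiable ℝ (f^[k]) := fun k => (h6 k).differentiable (by simp)
    have hdψ : ∀ m, Differentiable ℝ (ψ^[m]) :=
      fun m => (kopell_contDiff_iter hψ m).differentiable (by simp)
    have hchain : ∀ k, deriv (f^[k]) (ψ^[m] t) * deriv (ψ^[m]) t =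
        deriv (ψ^[m]) (f^[k] t) * deriv (f^[k]) t := by
      intro k
      rw [← deriv_comp t (hdiff k _) (hdψ m _), ← deriv_comp t (hdψ m _) (hdiff k _)]
      congr 1
      funext s
      exact hcmk k m s
    have hk : ∀ k, |Real.log (deriv (ψ^[m]) t)| ≤
        |Real.log (deriv (ψ^[m]) (f^[k] t))| + C * (z - f z) := by
      intro k
      have h7 := congrArg Real.log (hchain k)
      have hp1 := h5 k (ψ^[m] t)
      have hp2 := h5 k t
      have hp3 := kopell_deriv_iter_pos hψ hψ' m t
      have hp4 := kopell_deriv_iter_pos hψ hψ' m (f^[k] t)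
      rw [Real.log_mul hp1.ne' hp3.ne', Real.log_mul hp4.ne' hp2.ne'] at h7
      have h8 := hC k t ht (ψ^[m] t) (hJ m t ht)
      have h9 : |t - ψ^[m] t| ≤ z - f z := by
        have := hJ m t ht
        rw [abs_le]
        constructor <;> linarith [this.1, this.2, ht.1, ht.2]
      have h10 : C * |t - ψ^[m] t| ≤ C * (z - f z) := by gcongr
      have h11 : Real.log (deriv (ψ^[m]) t) = Real.log (deriv (ψ^[m]) (f^[k] t)) +
          (Real.log (deriv (f^[k]) t) - Real.log (deriv (f^[k]) (ψ^[m] t))) := by linarith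
      rw [h11]
      exact (abs_add_le _ _).trans (by linarith)
    have hcont : Continuous (deriv (ψ^[m])) :=
      (kopell_contDiff_iter hψ m).continuous_deriv (by norm_num)
    have hT : Tendsto (fun k => |Real.log (deriv (ψ^[m]) (f^[k] t))| + C * (z - f z)) atTop
        (𝓝 (0 + C * (z - f z))) := by
      refine Tendsto.add_const _ ?_
      have h7 : Tendsto (fun k => deriv (ψ^[m]) (f^[k] t)) atTop (𝓝 1) := by
        have := (hcont.tendsto a).comp ((hlim t htz).mono_right nhdsWithin_le_nhds)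
        rwa [hdm] at this
      have h8 := (Real.continuousAt_log (one_ne_zero)).tendsto.comp h7
      rw [Real.log_one] at h8
      have h9 := h8.abs
      rwa [abs_zero] at h9
    rw [zero_add] at hT
    exact ge_of_tendsto' hT hk
  have hlow : ∀ m, ∀ t ∈ Icc (f z) z, Real.exp (-(C * (z - f z))) ≤ deriv (ψ^[m]) t := by
    intro m t ht
    have h7 := (abs_le.1 (hlog m t ht)).1
    rw [← Real.exp_log (kopell_deriv_iter_pos hψ hψ' m t)]
    exact Real.exp_le_exp.2 h7
  have hmvt : ∀ m, ∀ s ∈ Icc (f z) z, ∀ t ∈ Icc (f z) z, s < t →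
      Real.exp (-(C * (z - f z))) * (t - s) ≤ ψ^[m] t - ψ^[m] s := by
    intro m s hs t ht hst
    have hdψ : Differentiable ℝ (ψ^[m]) := (kopell_contDiff_iter hψ m).differentiable (by simp)
    obtain ⟨ξ, hξ, hξ'⟩ := exists_deriv_eq_slope (ψ^[m]) hst hdψ.continuous.continuousOn
      hdψ.differentiableOn
    have h7 := hlow m ξ ⟨hs.1.trans hξ.1.le, hξ.2.le.trans ht.2⟩
    rw [hξ', le_div_iff₀ (by linarith)] at h7
    exact h7
  intro t ht
  set c := Real.exp (-(C * (z - f z))) with hc
  have hc0 : 0 < c := Real.exp_pos _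
  have hψt : ψ t ∈ Icc (f z) z := by simpa using hJ 1 t ht
  rcases lt_trichotomy (ψ t) t with h | h | h
  · exfalso
    have h7 : Antitone fun m => ψ^[m] t := hψm.monotone.antitone_iterate_of_map_le h.le
    have h8 := tendsto_atTop_ciInf h7 ⟨f z, by
      rintro _ ⟨m, rfl⟩
      exact (hJ m t ht).1⟩
    have h9 := (h8.comp (tendsto_add_atTop_nat 1)).sub h8
    rw [sub_self] at h9
    have h10 : (0 : ℝ) ≤ -(c * (t - ψ t)) := by
      refine le_of_tendsto' h9 fun m => ?_
      have h11 := hmvt m (ψ t) hψt t ht h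
      simp only [Function.comp_apply, Function.iterate_succ_apply]
      linarith
    have h12 := mul_pos hc0 (sub_pos.2 h)
    linarith
  · exact h
  · exfalso
    have h7 : Monotone fun m => ψ^[m] t := hψm.monotone.monotone_iterate_of_le_map h.le
    have h8 := tendsto_atTop_ciSup h7 ⟨z, by
      rintro _ ⟨m, rfl⟩
      exact (hJ m t ht).2⟩
    have h9 := (h8.comp (tendsto_add_atTop_nat 1)).sub h8
    rw [sub_self] at h9
    have h10 : c * (ψ t - t) ≤ 0 := by
      refine ge_of_tendsto' h9 fun m => ?_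
      have h11 := hmvt m t ht (ψ t) hψt h
      simp only [Function.comp_apply, Function.iterate_succ_apply]
      linarith
    have h12 := mul_pos hc0 (sub_pos.2 h)
    linarith

/-- the orbit of every point of `(a, b)` comes close to `a` -/
theorem kopell_orbit {a b : ℝ} {f : ℝ → ℝ} (hf : Continuous f) (hfm : StrictMono f)
    (hfa : f a = a) (hcon : ∀ t ∈ Ioo a b, f t < t) {z : ℝ} (hz : a < z) {t : ℝ}
    (ht : t ∈ Ioo a b) : ∃ k, f^[k] t ≤ z := by
  have h1 : ∀ k, f^[k] t ∈ Ioo a b := by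
    intro k
    induction k with
    | zero => exact ht
    | succ k ih =>
      rw [Function.iterate_succ_apply']
      refine ⟨?_, (hcon _ ih).trans ih.2⟩
      have := hfm ih.1
      rwa [hfa] at this
  have h2 : Antitone fun k => f^[k] t := by
    refine antitone_nat_of_succ_le fun k => ?_
    rw [Function.iterate_succ_apply']
    exact (hcon _ (h1 k)).le
  have h3 := tendsto_atTop_ciInf h2 ⟨a, by
    rintro _ ⟨k, rfl⟩
    exact (h1 k).1.le⟩
  set l := ⨅ k, f^[k] t with hl
  have h4 : f l = l := by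
    have h5 := (hf.tendsto l).comp h3
    have h6 := h3.comp (tendsto_add_atTop_nat 1)
    refine tendsto_nhds_unique h5 (h6.congr fun k => ?_)
    simp only [Function.comp_apply]
    rw [Function.iterate_succ_apply']
  have h5 : a ≤ l := ge_of_tendsto' h3 fun k => (h1 k).1.le
  have h6 : l ≤ t := le_of_tendsto' h3 fun k => h2 (Nat.zero_le k)
  have h7 : l = a := by
    rcases eq_or_lt_of_le h5 with h | h
    · exact h.symm
    · have := hcon l ⟨h, lt_of_le_of_lt h6 ht.2⟩
      linarith
  rw [h7] at h3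
  obtain ⟨k, hk⟩ := (h3.eventually (gt_mem_nhds hz)).exists
  exact ⟨k, le_of_lt hk⟩

theorem kopell {a b : ℝ} {f ψ : ℝ → ℝ} (hf : ContDiff ℝ 2 f) (hψ : ContDiff ℝ 2 ψ)
    (hf' : ∀ t, 0 < deriv f t) (hψ' : ∀ t, 0 < deriv ψ t) (hfa : f a = a) (hfb : f b = b)
    (hcon : ∀ t ∈ Ioo a b, f t < t) (hcomm : ∀ t, f (ψ t) = ψ (f t))
    {z : ℝ} (hz : z ∈ Ioo a b) (hψz : ψ z = z) : ∀ t ∈ Ioo a b, ψ t = t := by
  have hfm : StrictMono f := strictMono_of_deriv_pos hf'
  have hfund := kopell_fund hf hψ hf' hψ' hfa hcon hcomm hz hψz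
  have hcm : Function.Commute f ψ := hcomm
  have hcmk : ∀ k t, f^[k] (ψ t) = ψ (f^[k] t) := fun k t => (hcm.iterate_left k) t
  intro t ht
  rcases le_or_gt t z with htz | htz
  · obtain ⟨k₀, hk₀⟩ := kopell_orbit hf.continuous hfm hfa hcon ht.1 hz
    classical
    have hex : ∃ k, f^[k] z ≤ t := ⟨k₀, hk₀⟩
    obtain ⟨k, hk⟩ : ∃ k, k = Nat.find hex := ⟨_, rfl⟩
    have h1 : f^[k] z ≤ t := by
      rw [hk]
      exact Nat.find_spec hex
    rcases k with _ | k
    · have h2 : t = z := le_antisymm htz h1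
      rw [h2, hψz]
    · have h2 : t < f^[k] z := by
        have := Nat.find_min hex (m := k) (by omega)
        exact not_le.1 this
      have h3 : t ∈ Icc (f^[k] (f z)) (f^[k] z) := ⟨h1, h2.le⟩
      obtain ⟨s, hs, hst⟩ := intermediate_value_Icc (hcon z hz).le
        (hf.continuous.iterate k).continuousOn h3
      rw [← hst, ← hcmk, hfund s hs]
  · obtain ⟨k₀, hk₀⟩ := kopell_orbit hf.continuous hfm hfa hcon hz.1 ht
    classical
    have hex : ∃ k, f^[k] t ≤ z := ⟨k₀, hk₀⟩
    obtain ⟨k, hk⟩ : ∃ k, k = Nat.find hex := ⟨_, rfl⟩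
    have h1 : f^[k] t ≤ z := by
      rw [hk]
      exact Nat.find_spec hex
    rcases k with _ | k
    · exact absurd h1 (not_le.2 htz)
    · have h2 : z < f^[k] t := by
        have := Nat.find_min hex (m := k) (by omega)
        exact not_le.1 this
      have h3 : f^[k + 1] t ∈ Icc (f z) z := by
        refine ⟨?_, h1⟩
        rw [Function.iterate_succ_apply']
        exact (hfm h2).le
      have h4 := hfund _ h3
      rw [← hcmk] at h4
      exact (hfm.iterate (k + 1)).injective h4

end Pool.Agent.H50.GS
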