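/-
helper50, project GS, job GS-ABEL: two commuting orientation preserving elements with a common fixed point
generate a cyclic group, or G is ergodic (assumption: no nontrivial element of G fixes an interval pointwise).

PROOF. If f = 1 then closure {f,h} = closure {h} is cyclic (g0 = h); same for h = 1. Assume f ≠ 1, h ≠ 1.
Let F, Hh be the fixing lifts at p (exists_fixLift), they commute (fixLift_commute). Let
Z := {t | F t = t ∧ Hh t = t}, closed, p ∈ Z, p + 2π ∈ Z (a positive lift satisfies u (t+2π) = u t + 2π: u(t+2π) - u t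
is constant in 2πℤ; evaluate: equals 2π because exp is injective on [p, p+2π) and u is increasing, g a bijection.
Simplest: u(·+2π) - 2πk is again a lift of g; the integer k must be 1: apply the same to the inverse lift e:
e(t+2π) = e t + 2πl, and e(u(t)) = t gives k·l = 1, k > 0).
By hNI there is t0 ∈ (p, p+2π) with f (exp t0) ≠ exp t0, so F t0 ≠ t0, t0 ∉ Z. Let a := sSup (Z ∩ Iic t0),
b := sInf (Z ∩ Ici t0): a, b ∈ Z, a < t0 < b and (a,b) ∩ Z = ∅.
(1) F and Hh cannot both have a fixed point in (a,b). Suppose F z = z with z ∈ (a,b) and Hh w = w with w ∈ (a,b).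
z is not fixed by Hh; the orbit Hh^[n] z stays in Fix F (commutation) and is monotone and bounded in (a,b): say
w > z or w < z (w ≠ z since z ∉ Z); the sequence Hh^[n] z (n → ∞) and the sequence of the inverse iterates
(n → -∞) both stay on the same side of w, one increases, the other decreases, and the limits are fixed by Hh and
by F, so lie in Z, so in {a, b}: if z < w the increasing one has its limit in (z, w], not in {a,b}: contradiction;
if z > w the decreasing one has its limit in [w, z): contradiction.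
(2) So one of F, Hh, say F (symmetric), has no fixed point in (a,b): F t < t on (a,b) or F t > t on (a,b)
(connectedness). Replacing F by its inverse lift (of f⁻¹) we may assume F t < t on (a,b). If Hh had a fixed point in
(a,b), `kopell` would give Hh = id on (a,b), so h fixes exp t for all t ∈ (a,b), so h = 1 by hNI, contradiction.
More generally every g ∈ closure {f,h} commutes with f (the group is abelian), fixes exp a, is positive, and its lift
u fixing a commutes with F (F also fixes a, so it is the fixing lift of f at a); if g (exp t) = exp t for some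
t ∈ (a,b), then u t = t [u t - t ∈ 2πℤ, and u b = b? u fixes a and b: b is fixed by F and Hh; elements of the closure
are products of F^{±1}, Hh^{±1} on the level of lifts fixing a, all of which fix b; so u maps (a,b) to (a,b), and
b - a ≤ 2π forces u t = t], so by `kopell` u = id on (a,b), so g = 1 by hNI.
(3) Apply `stab` with p := a and H := closure {f, h}: every g ∈ H with g ≠ 1 has g (exp t) ≠ exp t for t ∈ (a,b).
-/
import Pool.Agent.H50.GS.Stab
import Pool.Agent.H50.GS.Kopell

set_option autoImplicit false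
open Set Filter Topology MeasureTheory

namespace Pool.Agent.H50.GS

/-- two commuting increasing maps with a fixed point each in `(a, b)`, whose end points are fixed,
have a common fixed point -/
theorem abel_common {F H : ℝ → ℝ} (hF : Continuous F) (hH : Continuous H) (hHm : StrictMono H)
    (hcomm : ∀ t, F (H t) = H (F t)) {a b z w : ℝ} (hHa : H a = a) (hHb : H b = b)
    (hz : z ∈ Ioo a b) (hw : w ∈ Ioo a b) (hFz : F z = z) (hHw : H w = w) :
    ∃ t ∈ Ioo a b, F t = t ∧ H t = t := by
  have hcl : IsClosed {t : ℝ | F t = t} := isClosed_eq hF continuous_id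
  rcases le_total z w with hzw | hwz
  · have hc : IsCompact ({t : ℝ | F t = t} ∩ Icc z w) := isCompact_Icc.inter_left hcl
    obtain ⟨c, hc1, hc2⟩ := hc.exists_isGreatest ⟨z, hFz, le_refl z, hzw⟩
    have hcF : F c = c := hc1.1
    have h1 : H c ≤ c := by
      by_cases h : z ≤ H c
      · refine hc2 ⟨?_, h, ?_⟩
        · change F (H c) = H c
          rw [hcomm, hcF]
        · calc H c ≤ H w := hHm.monotone hc1.2.2
            _ = w := hHw
      · exact (not_le.1 h).le.trans hc1.2.1
    have h2 : c ≤ H c := by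
      have hsub := intermediate_value_Icc (f := H) (a := a) (b := w) hw.1.le hH.continuousOn
      have hmem : c ∈ Icc (H a) (H w) := by
        rw [hHa, hHw]
        exact ⟨hz.1.le.trans hc1.2.1, hc1.2.2⟩
      obtain ⟨y, hy, hyc⟩ := hsub hmem
      have hFy : F y = y := hHm.injective (by rw [← hcomm, hyc, hcF])
      have h3 : y ≤ c := by
        by_cases h : z ≤ y
        · exact hc2 ⟨hFy, h, hy.2⟩
        · exact (not_le.1 h).le.trans hc1.2.1
      calc c = H y := hyc.symm
        _ ≤ H c := hHm.monotone h3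
    exact ⟨c, ⟨hz.1.trans_le hc1.2.1, hc1.2.2.trans_lt hw.2⟩, hcF, le_antisymm h1 h2⟩
  · have hc : IsCompact ({t : ℝ | F t = t} ∩ Icc w z) := isCompact_Icc.inter_left hcl
    obtain ⟨c, hc1, hc2⟩ := hc.exists_isLeast ⟨z, hFz, hwz, le_refl z⟩
    have hcF : F c = c := hc1.1
    have h1 : c ≤ H c := by
      by_cases h : H c ≤ z
      · refine hc2 ⟨?_, ?_, h⟩
        · change F (H c) = H c
          rw [hcomm, hcF]
        · calc w = H w := hHw.symm
            _ ≤ H c := hHm.monotone hc1.2.1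
      · exact hc1.2.2.trans (not_le.1 h).le
    have h2 : H c ≤ c := by
      have hsub := intermediate_value_Icc (f := H) (a := w) (b := b) hw.2.le hH.continuousOn
      have hmem : c ∈ Icc (H w) (H b) := by
        rw [hHb, hHw]
        exact ⟨hc1.2.1, hc1.2.2.trans hz.2.le⟩
      obtain ⟨y, hy, hyc⟩ := hsub hmem
      have hFy : F y = y := hHm.injective (by rw [← hcomm, hyc, hcF])
      have h3 : c ≤ y := by
        by_cases h : y ≤ z
        · exact hc2 ⟨hFy, hy.1, h⟩
        · exact hc1.2.2.trans (not_le.1 h).le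
      calc H c ≤ H y := hHm.monotone h3
        _ = c := hyc
    exact ⟨c, ⟨hw.1.trans_le hc1.2.1, hc1.2.2.trans_lt hz.2⟩, hcF, le_antisymm h2 h1⟩

theorem abel_strictMono {p : ℝ} {g : Circle ≃ₜ Circle} {u : ℝ → ℝ} (hu : FixLift p g u) :
    StrictMono u := strictMono_of_deriv_pos hu.2.1

theorem abel_two_pi {p : ℝ} {g : Circle ≃ₜ Circle} {u : ℝ → ℝ} (hu : FixLift p g u) :
    u (p + 2 * Real.pi) = p + 2 * Real.pi := by
  have hpi := Real.two_pi_pos
  have hmono := abel_strictMono hu
  have hper : Circle.exp (p + 2 * Real.pi) = Circle.exp p := Circle.periodic_exp p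
  have hgp : g (Circle.exp p) = Circle.exp p := by rw [← hu.1.2.2, hu.2.2]
  have h1 : Circle.exp (u (p + 2 * Real.pi)) = Circle.exp p := by
    rw [hu.1.2.2, hper, hgp]
  obtain ⟨m, hm⟩ := Circle.exp_eq_exp.1 h1
  have h2 : u p < u (p + 2 * Real.pi) := hmono (by linarith)
  rw [hu.2.2, hm] at h2
  have hm0 : 0 < m := by
    by_contra hc
    have hc' : (m : ℝ) ≤ 0 := by exact_mod_cast not_lt.1 hc
    nlinarith
  have hm1 : m ≤ 1 := by
    by_contra hc
    have hc' : (2 : ℝ) ≤ m := by exact_mod_cast (not_le.1 hc : 1 < m)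
    have hsub := intermediate_value_Ioo (f := u) (a := p) (b := p + 2 * Real.pi)
      (by linarith) hu.1.1.continuous.continuousOn
    have hmem : p + 2 * Real.pi ∈ Ioo (u p) (u (p + 2 * Real.pi)) := by
      rw [hu.2.2, hm]
      constructor
      · linarith
      · nlinarith
    obtain ⟨t, ht, htu⟩ := hsub hmem
    have h3 : g (Circle.exp t) = g (Circle.exp p) := by
      rw [← hu.1.2.2, htu, hper, hgp]
    obtain ⟨k, hk⟩ := Circle.exp_eq_exp.1 (g.injective h3)
    have hk0 : 0 < k := by
      by_contra hc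
      have hc' : (k : ℝ) ≤ 0 := by exact_mod_cast not_lt.1 hc
      have := ht.1
      nlinarith
    have hk1 : (1 : ℝ) ≤ k := by exact_mod_cast hk0
    have := ht.2
    nlinarith
  have hm2 : m = 1 := by omega
  rw [hm, hm2]
  simp

/-- a continuous map without fixed points in `(a, b)` moves all points in the same direction -/
theorem abel_sign {F : ℝ → ℝ} (hF : Continuous F) {a b : ℝ} (h : ∀ t ∈ Ioo a b, F t ≠ t) :
    (∀ t ∈ Ioo a b, F t < t) ∨ ∀ t ∈ Ioo a b, t < F t := by
  by_contra hc
  rw [not_or] at hc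
  obtain ⟨h1, h2⟩ := hc
  push Not at h1 h2
  obtain ⟨s, hs, hs'⟩ := h1
  obtain ⟨t, ht, ht'⟩ := h2
  obtain ⟨x, hx, hx'⟩ := isPreconnected_Ioo.intermediate_value₂ ht hs hF.continuousOn
    continuousOn_id ht' hs'
  exact h x hx hx'

/-- from an element without fixed points in `(a, b)` to one which moves points to the left -/
theorem abel_left {p : ℝ} {g : Circle ≃ₜ Circle} {u : ℝ → ℝ} (hu : FixLift p g u)
    (hg : IsPos g⁻¹) {a b : ℝ} (ha : u a = a) (hb : u b = b) (h : ∀ t ∈ Ioo a b, u t ≠ t) :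
    ∃ v φ, (φ = g ∨ φ = g⁻¹) ∧ FixLift p φ v ∧ v a = a ∧ v b = b ∧
      ∀ t ∈ Ioo a b, v t < t := by
  rcases abel_sign hu.1.1.continuous h with h1 | h1
  · exact ⟨u, g, Or.inl rfl, hu, ha, hb, h1⟩
  · obtain ⟨e, he, he1, he2⟩ := fixLift_inv hu hg
    have hea : e a = a := by
      have := he2 a
      rwa [ha] at this
    have heb : e b = b := by
      have := he2 b
      rwa [hb] at this
    refine ⟨e, g⁻¹, Or.inr rfl, he, hea, heb, ?_⟩
    intro t ht
    have hm := abel_strictMono he
    have h2 : e t ∈ Ioo a b := by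
      have h3 := hm ht.1
      have h4 := hm ht.2
      rw [hea] at h3
      rw [heb] at h4
      exact ⟨h3, h4⟩
    have h5 := h1 _ h2
    rwa [he1] at h5

theorem abel_zpow {f h : Circle ≃ₜ Circle} {x : Circle ≃ₜ Circle} (hx : x ∈ ({f, h} : Set _))
    (hle : ∀ y ∈ ({f, h} : Set (Circle ≃ₜ Circle)), y ∈ Subgroup.zpowers x) :
    ∃ g0 ∈ Subgroup.closure {f, h}, ∀ g ∈ Subgroup.closure {f, h}, ∃ k : ℤ, g = g0 ^ k := by
  refine ⟨x, Subgroup.subset_closure hx, fun g hg => ?_⟩
  have h1 : Subgroup.closure {f, h} ≤ Subgroup.zpowers x := (Subgroup.closure_le _).2 hle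
  obtain ⟨k, hk⟩ := Subgroup.mem_zpowers_iff.1 (h1 hg)
  exact ⟨k, hk.symm⟩

theorem abel {G : Subgroup (Circle ≃ₜ Circle)} (hC : C2Group G) (hm : Minimal G)
    (hNI : ∀ g ∈ G, g ≠ 1 → ∀ s t : ℝ, s < t → ∃ r ∈ Ioo s t, g (Circle.exp r) ≠ Circle.exp r)
    {f h : Circle ≃ₜ Circle} (hfG : f ∈ G) (hhG : h ∈ G) (hf : IsPos f) (hh : IsPos h)
    (hfh : f * h = h * f) {p : ℝ} (hfp : f (Circle.exp p) = Circle.exp p)
    (hhp : h (Circle.exp p) = Circle.exp p) :
    LebErgodic G ∨ ∃ g0 ∈ Subgroup.closure {f, h}, ∀ g ∈ Subgroup.closure {f, h},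
      ∃ k : ℤ, g = g0 ^ k := by
  have hpi := Real.two_pi_pos
  by_cases hf1 : f = 1
  · right
    refine abel_zpow (x := h) (by simp) ?_
    intro y hy
    rcases hy with rfl | rfl
    · rw [hf1]
      exact Subgroup.one_mem _
    · exact Subgroup.mem_zpowers _
  obtain ⟨F, hF⟩ := exists_fixLift hf hfp
  obtain ⟨E, hE⟩ := exists_fixLift hh hhp
  have hFm := abel_strictMono hF
  have hEm := abel_strictMono hE
  have hFc := hF.1.1.continuous
  have hEc := hE.1.1.continuous
  have hFE : ∀ t, F (E t) = E (F t) := fixLift_commute hF hE hfh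
  have hKG : Subgroup.closure {f, h} ≤ G := by
    rw [Subgroup.closure_le]
    rintro x (rfl | rfl)
    · exact hfG
    · exact hhG
  have hinv : ∀ g ∈ G, IsPos g → IsPos g⁻¹ := by
    intro g hg hgp
    obtain ⟨v, hv⟩ := hC g⁻¹ (G.inv_mem hg)
    exact isPos_inv hgp hv
  have hQ : ∀ g ∈ Subgroup.closure {f, h}, ∃ u, FixLift p g u ∧
      ∀ t, F t = t → E t = t → u t = t := by
    intro g hg
    induction hg using Subgroup.closure_induction with
    | mem x hx =>
      rcases hx with rfl | rfl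
      · exact ⟨F, hF, fun t h1 _ => h1⟩
      · exact ⟨E, hE, fun t _ h2 => h2⟩
    | one => exact ⟨id, fixLift_one p, fun _ _ _ => rfl⟩
    | mul x y hx hy ihx ihy =>
      obtain ⟨u, hu, hu'⟩ := ihx
      obtain ⟨v, hv, hv'⟩ := ihy
      refine ⟨u ∘ v, fixLift_comp hu hv, fun t h1 h2 => ?_⟩
      rw [Function.comp_apply, hv' t h1 h2, hu' t h1 h2]
    | inv x hx ih =>
      obtain ⟨u, hu, hu'⟩ := ih
      obtain ⟨e, he, h1, h2⟩ := fixLift_inv hu (hinv x (hKG hx) ⟨u, hu.1, hu.2.1⟩)
      refine ⟨e, he, fun t h3 h4 => ?_⟩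
      have h5 := h2 t
      rwa [hu' t h3 h4] at h5
  -- the interval `(a, b)`
  obtain ⟨t0, ht0, hft0⟩ := hNI f hfG hf1 p (p + 2 * Real.pi) (by linarith)
  have hFt0 : F t0 ≠ t0 := by
    intro h1
    apply hft0
    rw [← hF.1.2.2, h1]
  have hZ : IsClosed {t : ℝ | F t = t ∧ E t = t} :=
    (isClosed_eq hFc continuous_id).inter (isClosed_eq hEc continuous_id)
  obtain ⟨a, ha1, ha2⟩ := (isCompact_Icc.inter_left hZ :
    IsCompact ({t : ℝ | F t = t ∧ E t = t} ∩ Icc p t0)).exists_isGreatest
    ⟨p, ⟨hF.2.2, hE.2.2⟩, le_refl p, ht0.1.le⟩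
  obtain ⟨b, hb1, hb2⟩ := (isCompact_Icc.inter_left hZ :
    IsCompact ({t : ℝ | F t = t ∧ E t = t} ∩ Icc t0 (p + 2 * Real.pi))).exists_isLeast
    ⟨p + 2 * Real.pi, ⟨abel_two_pi hF, abel_two_pi hE⟩, ht0.2.le, le_refl _⟩
  have hat0 : a < t0 := lt_of_le_of_ne ha1.2.2 (fun h1 => hFt0 (h1 ▸ ha1.1.1))
  have htb0 : t0 < b := lt_of_le_of_ne hb1.2.1 (fun h1 => hFt0 (h1 ▸ hb1.1.1))
  have hab : a < b := hat0.trans htb0
  have hlen : b - a ≤ 2 * Real.pi := by
    have h1 := ha1.2.1
    have h2 := hb1.2.2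
    linarith
  have hno : ∀ t ∈ Ioo a b, ¬ (F t = t ∧ E t = t) := by
    intro t ht h1
    rcases le_total t t0 with h2 | h2
    · have h3 : t ≤ a := ha2 ⟨h1, ha1.2.1.trans ht.1.le, h2⟩
      exact absurd ht.1 (not_lt.2 h3)
    · have h3 : b ≤ t := hb2 ⟨h1, h2, ht.2.le.trans hb1.2.2⟩
      exact absurd ht.2 (not_lt.2 h3)
  -- an element which moves the points of `(a, b)` to the left
  have hφ : ∃ v φ, φ ∈ Subgroup.centralizer ({f, h} : Set (Circle ≃ₜ Circle)) ∧
      FixLift p φ v ∧ v a = a ∧ v b = b ∧ ∀ t ∈ Ioo a b, v t < t := by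
    have hfc : f ∈ Subgroup.centralizer ({f, h} : Set (Circle ≃ₜ Circle)) := by
      rw [Subgroup.mem_centralizer_iff]
      rintro x (rfl | rfl)
      · rfl
      · exact hfh.symm
    have hhc : h ∈ Subgroup.centralizer ({f, h} : Set (Circle ≃ₜ Circle)) := by
      rw [Subgroup.mem_centralizer_iff]
      rintro x (rfl | rfl)
      · exact hfh
      · rfl
    by_cases h1 : ∀ t ∈ Ioo a b, F t ≠ t
    · obtain ⟨v, φ, h2, h3, h4, h5, h6⟩ := abel_left hF (hinv f hfG hf) ha1.1.1 hb1.1.1 h1
      refine ⟨v, φ, ?_, h3, h4, h5, h6⟩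
      rcases h2 with rfl | rfl
      · exact hfc
      · exact Subgroup.inv_mem _ hfc
    · have h2 : ∀ t ∈ Ioo a b, E t ≠ t := by
        intro w hw hEw
        push Not at h1
        obtain ⟨z, hz, hFz⟩ := h1
        obtain ⟨t, ht, h3⟩ := abel_common hFc hEc hEm hFE ha1.1.2 hb1.1.2 hz hw hFz hEw
        exact hno t ht h3
      obtain ⟨v, φ, h2, h3, h4, h5, h6⟩ := abel_left hE (hinv h hhG hh) ha1.1.2 hb1.1.2 h2
      refine ⟨v, φ, ?_, h3, h4, h5, h6⟩
      rcases h2 with rfl | rfl
      · exact hhc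
      · exact Subgroup.inv_mem _ hhc
  obtain ⟨v, φ, hφc, hv, hva, hvb, hvlt⟩ := hφ
  -- nontrivial elements have no fixed points in `(a, b)`
  have hfree : ∀ g ∈ Subgroup.closure {f, h}, g ≠ 1 →
      ∀ t ∈ Ioo a b, g (Circle.exp t) ≠ Circle.exp t := by
    intro g hg hg1 t ht hgt
    obtain ⟨u, hu, hu'⟩ := hQ g hg
    have hua : u a = a := hu' a ha1.1.1 ha1.1.2
    have hub : u b = b := hu' b hb1.1.1 hb1.1.2
    have hum := abel_strictMono hu
    have h1 : Circle.exp (u t) = Circle.exp t := by rw [hu.1.2.2, hgt]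
    obtain ⟨m, hm⟩ := Circle.exp_eq_exp.1 h1
    have h2 : a < u t := by
      have := hum ht.1
      rwa [hua] at this
    have h3 : u t < b := by
      have := hum ht.2
      rwa [hub] at this
    have hm0 : m = 0 := by
      by_contra hc
      rcases lt_or_gt_of_ne hc with h4 | h4
      · have h5 : (m : ℝ) ≤ -1 := by exact_mod_cast (by omega : m ≤ -1)
        have := ht.2
        nlinarith
      · have h5 : (1 : ℝ) ≤ m := by exact_mod_cast (by omega : 1 ≤ m)
        have := ht.1
        nlinarith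
    have hut : u t = t := by
      rw [hm, hm0]
      simp
    have hgc : g * φ = φ * g := by
      have hle : Subgroup.closure ({f, h} : Set (Circle ≃ₜ Circle)) ≤
          Subgroup.centralizer {φ} := by
        rw [Subgroup.closure_le]
        intro x hx
        rw [SetLike.mem_coe, Subgroup.mem_centralizer_iff]
        rintro y rfl
        exact ((Subgroup.mem_centralizer_iff.1 hφc) x hx).symm
      have h4 := (Subgroup.mem_centralizer_iff.1 (hle hg)) φ rfl
      exact h4.symm
    have hcomm : ∀ s, v (u s) = u (v s) := fixLift_commute hv hu hgc.symm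
    have h5 := kopell hv.1.1 hu.1.1 hv.2.1 hu.2.1 hva hvb hvlt hcomm ht hut
    obtain ⟨r, hr, hr'⟩ := hNI g (hKG hg) hg1 a b hab
    apply hr'
    rw [← hu.1.2.2, h5 r hr]
  refine stab hC hm a (Subgroup.closure {f, h}) hKG ?_ ?_ ?_
  · intro g hg
    obtain ⟨u, hu, hu'⟩ := hQ g hg
    rw [← hu.1.2.2, hu' a ha1.1.1 ha1.1.2]
  · intro g hg
    obtain ⟨u, hu, hu'⟩ := hQ g hg
    exact ⟨u, hu.1, hu.2.1⟩
  · intro g hg hg1
    filter_upwards [Ioo_mem_nhdsGT hab] with t ht
    exact hfree g hg hg1 t ht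

end Pool.Agent.H50.GS
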