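/-
helper50, project GS, job GS-FEWFIX: near-identity elements with boundedly many fixed points.

PROOF. Cut (α, β) into K+1 equal open subintervals J_0, ..., J_K. For each n at least one J_j contains no fixed point of
U n (at most K fixed points); on such a J_j the continuous function U n t - t has constant sign. By the pigeonhole
principle there are j and a sign such that this holds for infinitely many n; let (n_i) be the strictly increasing
sequence of these n. On J_j = (α', β') put F i := U (n_i). If the sign is +, `NearId α' β' F` holds: the derivative is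
≥ 1/2 > 0, log (U n)' is Lipschitz with constant 2M (derivative (U n)''/(U n)'; convex interval), differentiability at
interior points from ContDiffOn on an open set. Apply `globB`. If the sign is -, the reflected maps
t ↦ - U (n_i) (-t) are NearId on (-β', -α'): apply `globB_left`.
-/
import Pool.Agent.H50.GS.GlobB

set_option autoImplicit false
open Set Filter Topology MeasureTheory

namespace Pool.Agent.H50.GS

theorem fewFix_diff {α β : ℝ} {u : ℝ → ℝ} (hu : ContDiffOn ℝ 2 u (Ioo α β)) {t : ℝ}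
    (ht : t ∈ Ioo α β) : DifferentiableAt ℝ u t :=
  ((hu.differentiableOn (by norm_num)) t ht).differentiableAt (Ioo_mem_nhds ht.1 ht.2)

theorem fewFix_lip {α β : ℝ} {u : ℝ → ℝ} (hu : ContDiffOn ℝ 2 u (Ioo α β))
    (h1 : ∀ t ∈ Ioo α β, 1 / 2 < deriv u t) {M : ℝ}
    (h2 : ∀ t ∈ Ioo α β, |deriv (deriv u) t| ≤ M) {s t : ℝ} (hs : s ∈ Ioo α β)
    (ht : t ∈ Ioo α β) :
    |Real.log (deriv u s) - Real.log (deriv u t)| ≤ 2 * M * |s - t| := by
  have hd : ContDiffOn ℝ 1 (deriv u) (Ioo α β) := hu.deriv_of_isOpen isOpen_Ioo (by norm_num)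
  have hd' : ∀ x ∈ Ioo α β, DifferentiableAt ℝ (deriv u) x := fun x hx =>
    ((hd.differentiableOn (by norm_num)) x hx).differentiableAt (Ioo_mem_nhds hx.1 hx.2)
  have h3 := (convex_Ioo α β).norm_image_sub_le_of_norm_deriv_le
    (f := fun x => Real.log (deriv u x)) (C := 2 * M) (x := t) (y := s) ?_ ?_ ht hs
  · simpa only [Real.norm_eq_abs] using h3
  · intro x hx
    exact (hd' x hx).log (by linarith [h1 x hx])
  · intro x hx
    rw [deriv.log (hd' x hx) (by linarith [h1 x hx]), norm_div, Real.norm_eq_abs, Real.norm_eq_abs]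
    have h4 := h1 x hx
    have h5 := h2 x hx
    have h6 := abs_nonneg (deriv (deriv u) x)
    rw [abs_of_pos (show 0 < deriv u x by linarith), div_le_iff₀ (by linarith)]
    nlinarith

theorem fewFix {G : Subgroup (Circle ≃ₜ Circle)} (hC : C2Group G) (hm : Minimal G)
    {α β : ℝ} (hαβ : α < β) {U : ℕ → ℝ → ℝ}
    (hU : ∀ n, ∃ g ∈ G, ∀ t ∈ Ioo α β, Circle.exp (U n t) = g (Circle.exp t))
    (hU2 : ∀ n, ContDiffOn ℝ 2 (U n) (Ioo α β))
    (h0 : ∀ ε > 0, ∃ N, ∀ n ≥ N, ∀ t ∈ Ioo α β, |U n t - t| < ε)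
    (h1 : ∀ n, ∀ t ∈ Ioo α β, 1 / 2 < deriv (U n) t)
    {M : ℝ} (h2 : ∀ n, ∀ t ∈ Ioo α β, |deriv (deriv (U n)) t| ≤ M)
    {K : ℕ} (hK : ∀ n, {t | t ∈ Ioo α β ∧ U n t = t}.encard ≤ K) : LebErgodic G := by
  classical
  set δ : ℝ := (β - α) / (K + 1) with hδ
  have hK0 : (0 : ℝ) < (K : ℝ) + 1 := by positivity
  have hδ0 : 0 < δ := div_pos (by linarith) hK0
  have hδK : ((K : ℝ) + 1) * δ = β - α := by
    rw [hδ]; field_simp
  set J : Fin (K + 1) → Set ℝ := fun j => Ioo (α + (j : ℕ) * δ) (α + ((j : ℕ) + 1) * δ) with hJ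
  have hJsub : ∀ j, J j ⊆ Ioo α β := by
    intro j t ht
    have hj : ((j : ℕ) : ℝ) + 1 ≤ (K : ℝ) + 1 := by
      exact_mod_cast Nat.succ_le_of_lt j.2
    have hj0 : (0 : ℝ) ≤ ((j : ℕ) : ℝ) := Nat.cast_nonneg _
    refine ⟨?_, ?_⟩
    · have := ht.1
      nlinarith
    · have := ht.2
      nlinarith
  -- an interval without fixed points
  have hstep1 : ∀ n, ∃ j, ∀ t ∈ J j, U n t ≠ t := by
    intro n
    by_contra hcon
    push Not at hcon
    choose p hp hp' using hcon
    have hinj : Function.Injective p := by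
      intro i j hij
      by_contra hne
      have hlt : ∀ a b : Fin (K + 1), a < b → p a ≠ p b := by
        intro a b hab heq
        have ha := (hp a).2
        have hb := (hp b).1
        have hab' : ((a : ℕ) : ℝ) + 1 ≤ ((b : ℕ) : ℝ) := by
          exact_mod_cast Nat.succ_le_of_lt hab
        rw [heq] at ha
        nlinarith
      rcases lt_or_gt_of_ne hne with h | h
      · exact hlt i j h hij
      · exact hlt j i h hij.symm
    have hsub : Set.range p ⊆ {t | t ∈ Ioo α β ∧ U n t = t} := by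
      rintro _ ⟨j, rfl⟩
      exact ⟨hJsub j (hp j), hp' j⟩
    have hcard : (Set.range p).encard = ((K + 1 : ℕ) : ℕ∞) := by
      rw [← Set.image_univ, hinj.encard_image, Set.encard_univ]
      simp
    have := (Set.encard_le_encard hsub).trans (hK n)
    rw [hcard] at this
    have h3 : K + 1 ≤ K := by exact_mod_cast this
    omega
  have hstep2 : ∀ n, ∃ jb : Fin (K + 1) × Bool,
      (jb.2 = true → ∀ t ∈ J jb.1, t < U n t) ∧ (jb.2 = false → ∀ t ∈ J jb.1, U n t < t) := by
    intro n
    obtain ⟨j, hj⟩ := hstep1 n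
    have hcont : ContinuousOn (U n) (J j) := (hU2 n).continuousOn.mono (hJsub j)
    by_cases hpos : ∀ t ∈ J j, t < U n t
    · exact ⟨(j, true), fun _ => hpos, fun h => by simp at h⟩
    · refine ⟨(j, false), fun h => by simp at h, fun _ t ht => ?_⟩
      push Not at hpos
      obtain ⟨s, hs, hs'⟩ := hpos
      by_contra hcon
      push Not at hcon
      obtain ⟨x, hx, hx'⟩ := (isPreconnected_Ioo).intermediate_value₂ hs ht hcont continuousOn_id
        hs' hcon
      exact hj x hx hx'
  choose c hc1 hc2 using hstep2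
  obtain ⟨jb, hinf⟩ := Finite.exists_infinite_fiber c
  have hfreq : ∃ᶠ n in atTop, c n = jb := by
    rw [Nat.frequently_atTop_iff_infinite]
    exact Set.infinite_coe_iff.1 hinf
  obtain ⟨φ, hφ, hφ'⟩ := extraction_of_frequently_atTop hfreq
  obtain ⟨j, b⟩ := jb
  have hlt : α + (j : ℕ) * δ < α + ((j : ℕ) + 1) * δ := by nlinarith
  have hG : ∀ n, ∃ g ∈ G, ∀ t ∈ J j, Circle.exp (U (φ n) t) = g (Circle.exp t) := by
    intro n
    obtain ⟨g, hg, hg'⟩ := hU (φ n)
    exact ⟨g, hg, fun t ht => hg' t (hJsub j ht)⟩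
  have hunif : ∀ ε > 0, ∃ N, ∀ n ≥ N, ∀ t ∈ J j, |U (φ n) t - t| < ε := by
    intro ε hε
    obtain ⟨N, hN⟩ := h0 ε hε
    exact ⟨N, fun n hn t ht => hN (φ n) (hn.le.trans (hφ.le_apply)) t (hJsub j ht)⟩
  cases b with
  | true =>
    have hF : NearId (α + (j : ℕ) * δ) (α + ((j : ℕ) + 1) * δ) (fun n => U (φ n)) := by
      refine ⟨fun n t ht => ?_, fun n t ht => fewFix_diff (hU2 _) (hJsub j ht),
        fun n t ht => by linarith [h1 (φ n) t (hJsub j ht)], hunif, 2 * M,
        fun n s hs t ht => fewFix_lip (hU2 _) (h1 _) (h2 _) (hJsub j hs) (hJsub j ht)⟩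
      have := hc1 (φ n)
      rw [hφ' n] at this
      exact this rfl t ht
    exact globB hC hm hlt hF hG
  | false =>
    have hmem : ∀ t ∈ Ioo (-(α + ((j : ℕ) + 1) * δ)) (-(α + (j : ℕ) * δ)), -t ∈ J j := by
      intro t ht
      exact ⟨by linarith [ht.2], by linarith [ht.1]⟩
    have hderiv : ∀ n, ∀ t ∈ Ioo (-(α + ((j : ℕ) + 1) * δ)) (-(α + (j : ℕ) * δ)),
        HasDerivAt (fun t => - U (φ n) (-t)) (deriv (U (φ n)) (-t)) t := by
      intro n t ht
      have h3 := (fewFix_diff (hU2 (φ n)) (hJsub j (hmem t ht))).hasDerivAt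
      have h4 : HasDerivAt (fun t => - U (φ n) (-t)) (-(deriv (U (φ n)) (-t) * (-1))) t :=
        (h3.comp t (hasDerivAt_neg t)).neg
      rw [show -(deriv (U (φ n)) (-t) * (-1)) = deriv (U (φ n)) (-t) by ring] at h4
      exact h4
    have hF : NearId (-(α + ((j : ℕ) + 1) * δ)) (-(α + (j : ℕ) * δ))
        (fun n t => - U (φ n) (-t)) := by
      refine ⟨fun n t ht => ?_, fun n t ht => (hderiv n t ht).differentiableAt,
        fun n t ht => ?_, fun ε hε => ?_, 2 * M, fun n s hs t ht => ?_⟩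
      · have := hc2 (φ n)
        rw [hφ' n] at this
        have h5 := this rfl (-t) (hmem t ht)
        linarith
      · rw [(hderiv n t ht).deriv]
        linarith [h1 (φ n) (-t) (hJsub j (hmem t ht))]
      · obtain ⟨N, hN⟩ := hunif ε hε
        refine ⟨N, fun n hn t ht => ?_⟩
        have h5 := hN n hn (-t) (hmem t ht)
        rw [abs_lt] at h5 ⊢
        constructor <;> linarith [h5.1, h5.2]
      · rw [(hderiv n s hs).deriv, (hderiv n t ht).deriv]
        have h5 := fewFix_lip (hU2 (φ n)) (h1 _) (h2 _) (hJsub j (hmem s hs)) (hJsub j (hmem t ht))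
        rw [show -s - -t = -(s - t) by ring, abs_neg] at h5
        exact h5
    exact globB_left hC hm hlt hF hG

end Pool.Agent.H50.GS
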